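import Pool.Agent.Lib.MP_1c0d65_gt.B.Sph

/-! Change of variables for a holomorphic map with a constant number of preimages. -/

set_option autoImplicit false

namespace Pool.Agent.Lib.MP_1c0d65_gt.B

open Filter Topology MeasureTheory Set
open scoped ENNReal NNReal

theorem det_cmul (a : ℂ) :
    ((ContinuousLinearMap.toSpanSingleton ℂ a).restrictScalars ℝ).det = ‖a‖ ^ 2 := by
  simp [ContinuousLinearMap.det, LinearMap.det_restrictScalars, Algebra.norm_complex_eq,
    Complex.normSq_eq_norm_sq]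

theorem exists_inj_cover {R : Set ℂ} (hR : IsOpen R) {φ : ℂ → ℂ}
    (hφ : ∀ z ∈ R, AnalyticAt ℂ φ z) : ∃ s : ℕ → Set ℂ, (∀ k, MeasurableSet (s k)) ∧
      Pairwise (Function.onFun Disjoint s) ∧ (∀ k, InjOn φ (s k)) ∧
      ⋃ k, s k = {z ∈ R | deriv φ z ≠ 0} := by
  let B : Set (Set ℂ) := insert ∅ {U ∈ TopologicalSpace.countableBasis ℂ |
    U ⊆ {z ∈ R | deriv φ z ≠ 0} ∧ InjOn φ U}
  have hB : B.Countable :=
    ((TopologicalSpace.countable_countableBasis ℂ).mono (sep_subset _ _)).insert _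
  obtain ⟨u, hu⟩ := hB.exists_eq_range (insert_nonempty _ _)
  have h1 (k : ℕ) : IsOpen (u k) ∧ u k ⊆ {z ∈ R | deriv φ z ≠ 0} ∧ InjOn φ (u k) := by
    have : u k ∈ B := hu ▸ mem_range_self k
    rcases this with e | e
    · rw [e]; simp
    · exact ⟨TopologicalSpace.isOpen_of_mem_countableBasis e.1, e.2⟩
  refine ⟨disjointed u, MeasurableSet.disjointed fun k => (h1 k).1.measurableSet,
    disjoint_disjointed u, fun k => (h1 k).2.2.mono (disjointed_subset u k), ?_⟩
  rw [iUnion_disjointed]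
  refine Subset.antisymm (iUnion_subset fun k => (h1 k).2.1) fun z hz => ?_
  have hs := ((hφ z hz.1).hasStrictDerivAt.hasStrictFDerivAt_equiv hz.2)
  have h2 : {z ∈ R | deriv φ z ≠ 0} ∈ 𝓝 z :=
    inter_mem (hR.mem_nhds hz.1) ((hφ z hz.1).deriv.continuousAt.eventually_ne hz.2)
  obtain ⟨U, hU, hzU, hUs⟩ := (TopologicalSpace.isBasis_countableBasis ℂ).mem_nhds_iff.1
    (inter_mem h2 (((hs.toOpenPartialHomeomorph φ).open_source).mem_nhds
      hs.mem_toOpenPartialHomeomorph_source))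
  have : U ∈ range u := hu ▸ Or.inr ⟨hU, fun x hx => (hUs hx).1,
    (hs.toOpenPartialHomeomorph φ).injOn.mono fun x hx => (hUs hx).2⟩
  obtain ⟨k, rfl⟩ := this
  exact mem_iUnion.2 ⟨k, hzU⟩

theorem lintegral_area {R T : Set ℂ} (hR : Rᶜ.Finite) (hT : T.Finite) {φ : ℂ → ℂ}
    (hφ : ∀ z ∈ R, AnalyticAt ℂ φ z) {m : ℕ}
    (hm : ∀ w ∉ T, {z ∈ R | φ z = w}.Finite ∧ {z ∈ R | φ z = w}.ncard = m)
    {g : ℂ → ℝ≥0∞} (hg : Measurable g) :
    ∫⁻ z, ENNReal.ofReal (‖deriv φ z‖ ^ 2) * g (φ z) = m * ∫⁻ w, g w := by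
  classical
  have hRo : IsOpen R := isClosed_compl_iff.1 hR.isClosed
  obtain ⟨s, hs, hd, hi, hu⟩ := exists_inj_cover hRo hφ
  have hsR (k : ℕ) : s k ⊆ {z ∈ R | deriv φ z ≠ 0} := hu ▸ subset_iUnion s k
  have hD (t : Set ℂ) (ht : t ⊆ R) (z : ℂ) (hz : z ∈ t) : HasFDerivWithinAt φ
      ((ContinuousLinearMap.toSpanSingleton ℂ (deriv φ z)).restrictScalars ℝ) t z :=
    ((hφ z (ht hz)).differentiableAt.hasDerivAt.hasFDerivAt.restrictScalars ℝ).hasFDerivWithinAt
  have h1 : ∫⁻ z, ENNReal.ofReal (‖deriv φ z‖ ^ 2) * g (φ z) =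
      ∫⁻ z in ⋃ k, s k, ENNReal.ofReal (‖deriv φ z‖ ^ 2) * g (φ z) := by
    rw [← lintegral_indicator (MeasurableSet.iUnion hs)]
    refine lintegral_congr_ae ?_
    filter_upwards [hR.countable.ae_notMem volume] with z hz
    by_cases e : z ∈ ⋃ k, s k
    · rw [indicator_of_mem e]
    · rw [indicator_of_notMem e]
      rw [hu] at e
      have : deriv φ z = 0 := by
        by_contra e'
        exact e ⟨not_not.1 hz, e'⟩
      simp [this]
  have h2 (k : ℕ) : ∫⁻ z in s k, ENNReal.ofReal (‖deriv φ z‖ ^ 2) * g (φ z) =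
      ∫⁻ w, (φ '' s k).indicator g w := by
    have h := hD (s k) fun z hz => (hsR k hz).1
    rw [lintegral_indicator (measurable_image_of_fderivWithin (hs k) h (hi k)),
      lintegral_image_eq_lintegral_abs_det_fderiv_mul volume (hs k) h (hi k)]
    simp only [det_cmul, abs_pow, abs_norm]
  have h3 : volume (φ '' {z ∈ R | deriv φ z = 0}) = 0 :=
    addHaar_image_eq_zero_of_det_fderivWithin_eq_zero volume (hD _ fun z hz => hz.1)
      fun z hz => by rw [det_cmul, hz.2]; simp
  rw [h1, lintegral_iUnion hs hd, tsum_congr h2, ← lintegral_tsum fun k => (hg.indicator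
    (measurable_image_of_fderivWithin (hs k) (hD _ fun z hz => (hsR k hz).1) (hi k))).aemeasurable,
    ← lintegral_const_mul _ hg]
  refine lintegral_congr_ae ?_
  filter_upwards [hT.countable.ae_notMem volume, measure_eq_zero_iff_ae_notMem.1 h3] with w hw hw'
  obtain ⟨hf, hc⟩ := hm w hw
  have h4 (k : ℕ) : (φ '' s k).indicator g w =
      ∑ z ∈ hf.toFinset, (s k).indicator (fun _ => g w) z := by
    by_cases e : w ∈ φ '' s k
    · obtain ⟨z, hz, rfl⟩ := e
      rw [indicator_of_mem (mem_image_of_mem φ hz), Finset.sum_eq_single z, indicator_of_mem hz]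
      · exact fun y hy hne => indicator_of_notMem
          (fun e => hne (hi k e hz (hf.mem_toFinset.1 hy).2)) _
      · exact fun e => (e (hf.mem_toFinset.2 ⟨(hsR k hz).1, rfl⟩)).elim
    · rw [indicator_of_notMem e, Finset.sum_eq_zero]
      exact fun y hy => indicator_of_notMem (fun e' => e ⟨y, e', (hf.mem_toFinset.1 hy).2⟩) _
  rw [tsum_congr h4, Summable.tsum_finsetSum fun _ _ => ENNReal.summable, ← hc,
    ncard_eq_toFinset_card _ hf, ← nsmul_eq_mul, ← Finset.sum_const]
  refine Finset.sum_congr rfl fun z hz => ?_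
  have hz' := hf.mem_toFinset.1 hz
  obtain ⟨k, hk⟩ := mem_iUnion.1 (hu ▸ ⟨hz'.1, fun e => hw' ⟨z, ⟨hz'.1, e⟩, hz'.2⟩⟩ :
    z ∈ ⋃ k, s k)
  rw [tsum_eq_single k, indicator_of_mem hk]
  exact fun j hj => indicator_of_notMem (fun e => disjoint_left.1 (hd hj) e hk) _

/-- Change of variables for a holomorphic map with `m` points in almost every fibre. -/
theorem area_formula {R T : Set ℂ} (hR : Rᶜ.Finite) (hT : T.Finite) {φ : ℂ → ℂ}
    (hφ : ∀ z ∈ R, AnalyticAt ℂ φ z) {m : ℕ}
    (hm : ∀ w ∉ T, {z ∈ R | φ z = w}.Finite ∧ {z ∈ R | φ z = w}.ncard = m)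
    (hT' : ∀ w ∈ T, {z ∈ R | φ z = w}.Finite)
    {f : ℂ → ℝ} (hf : Integrable f) :
    Integrable (fun z => f (φ z) * ‖deriv φ z‖ ^ 2) ∧
      ∫ z, f (φ z) * ‖deriv φ z‖ ^ 2 = m * ∫ w, f w := by
  have _ := hT'
  let ρ : ℂ → ℝ≥0 := fun z => ‖deriv φ z‖₊ ^ 2
  have hρ : Measurable ρ := (measurable_deriv φ).nnnorm.pow_const 2
  have hRo : IsOpen R := isClosed_compl_iff.1 hR.isClosed
  have h0 : AEMeasurable φ volume := by
    have := ContinuousOn.aemeasurable (μ := volume)
      (fun z hz => (hφ z hz).continuousAt.continuousWithinAt) hRo.measurableSet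
    rwa [Measure.restrict_eq_self_of_ae_mem] at this
    filter_upwards [hR.countable.ae_notMem volume] with z hz using not_not.1 hz
  have h1 : AEMeasurable φ (volume.withDensity fun z => ρ z) :=
    h0.mono_ac (withDensity_absolutelyContinuous _ _)
  have h2 : Measure.map φ (volume.withDensity fun z => ρ z) = (m : ℝ≥0∞) • volume := by
    refine Measure.ext_of_lintegral _ fun g hg => ?_
    rw [lintegral_map' hg.aemeasurable h1, lintegral_withDensity_eq_lintegral_mul₀
      (g := fun a => g (φ a)) hρ.coe_nnreal_ennreal.aemeasurable (hg.comp_aemeasurable h0),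
      lintegral_smul_measure,
      smul_eq_mul, ← lintegral_area hR hT hφ hm hg]
    refine lintegral_congr fun z => ?_
    simp [ρ, ENNReal.ofReal_pow, enorm_eq_nnnorm]
  have h3 : Integrable f (Measure.map φ (volume.withDensity fun z => ρ z)) :=
    h2 ▸ hf.smul_measure (ENNReal.natCast_ne_top m)
  have e (z : ℂ) : ρ z • f (φ z) = f (φ z) * ‖deriv φ z‖ ^ 2 := by
    simp [ρ, NNReal.smul_def, mul_comm]
  constructor
  · have := (integrable_withDensity_iff_integrable_smul hρ).1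
      ((integrable_map_measure h3.aestronglyMeasurable h1).1 h3)
    simpa only [Function.comp, e] using this
  · have := integral_map h1 h3.aestronglyMeasurable
    rw [integral_withDensity_eq_integral_smul hρ, h2, integral_smul_measure] at this
    simpa only [e, ENNReal.toReal_natCast, smul_eq_mul] using this.symm

end Pool.Agent.Lib.MP_1c0d65_gt.B
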