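import Pool.Agent.Lib.MP_1c0d65_gt.B.Sph

/-! The parameters `ch x` on the sphere are open embeddings with analytic transitions. -/

namespace Pool.Agent.Lib.MP_1c0d65_gt.B

open Filter Topology

theorem ch_coe (a z : ℂ) : ch (a : OnePoint ℂ) z = ((a + z : ℂ) : OnePoint ℂ) := rfl

theorem ch_infty (z : ℂ) :
    ch OnePoint.infty z = if z = 0 then OnePoint.infty else ((z⁻¹ : ℂ) : OnePoint ℂ) := rfl

theorem ch_infty_zero : ch OnePoint.infty 0 = OnePoint.infty := by
  rw [ch_infty, if_pos rfl]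

theorem ch_infty_of_ne {z : ℂ} (h : z ≠ 0) :
    ch OnePoint.infty z = ((z⁻¹ : ℂ) : OnePoint ℂ) := by
  rw [ch_infty, if_neg h]

theorem ch_zero (x : OnePoint ℂ) : ch x 0 = x := by
  induction x using OnePoint.rec with
  | infty => exact ch_infty_zero
  | coe a => rw [ch_coe, add_zero]

/-- The inversion of the sphere. -/
noncomputable def sinv (x : OnePoint ℂ) : OnePoint ℂ :=
  x.elim ((0 : ℂ) : OnePoint ℂ) (ch OnePoint.infty)

theorem sinv_infty : sinv OnePoint.infty = ((0 : ℂ) : OnePoint ℂ) := rfl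

theorem sinv_coe (z : ℂ) : sinv (z : OnePoint ℂ) = ch OnePoint.infty z := rfl

theorem sinv_sinv (x : OnePoint ℂ) : sinv (sinv x) = x := by
  induction x using OnePoint.rec with
  | infty => rw [sinv_infty, sinv_coe, ch_infty_zero]
  | coe a =>
    by_cases h : a = 0
    · subst h
      rw [sinv_coe, ch_infty_zero, sinv_infty]
    · rw [sinv_coe, ch_infty_of_ne h, sinv_coe, ch_infty_of_ne (inv_ne_zero h), inv_inv]

theorem coclosed_eq : coclosedCompact ℂ = Bornology.cobounded ℂ := by
  rw [coclosedCompact_eq_cocompact, Metric.cobounded_eq_cocompact]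

theorem continuous_ch_infty : Continuous (ch OnePoint.infty) := by
  rw [continuous_iff_continuousAt]
  intro z
  by_cases h : z = 0
  · subst h
    rw [← continuousWithinAt_compl_self, ContinuousWithinAt, ch_infty_zero]
    have h1 : Tendsto (fun w : ℂ => ((w⁻¹ : ℂ) : OnePoint ℂ)) (𝓝[≠] 0) (𝓝 OnePoint.infty) := by
      refine OnePoint.tendsto_coe_infty.comp ?_
      rw [coclosed_eq]
      exact tendsto_inv₀_nhdsNE_zero
    refine h1.congr' ?_
    filter_upwards [self_mem_nhdsWithin] with w hw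
    exact (ch_infty_of_ne hw).symm
  · have h1 : ContinuousAt (fun w : ℂ => ((w⁻¹ : ℂ) : OnePoint ℂ)) z :=
      OnePoint.continuous_coe.continuousAt.comp (continuousAt_inv₀ h)
    refine h1.congr ?_
    filter_upwards [isOpen_ne.mem_nhds h] with w hw
    exact (ch_infty_of_ne hw).symm

theorem continuous_sinv : Continuous sinv := by
  rw [OnePoint.continuous_iff]
  refine ⟨?_, continuous_ch_infty⟩
  rw [sinv_infty, coclosed_eq]
  have h1 : Tendsto (fun w : ℂ => ((w⁻¹ : ℂ) : OnePoint ℂ)) (Bornology.cobounded ℂ)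
      (𝓝 ((0 : ℂ) : OnePoint ℂ)) :=
    (OnePoint.continuous_coe.tendsto 0).comp tendsto_inv₀_cobounded
  refine h1.congr' ?_
  filter_upwards [Bornology.eventually_ne_cobounded (0 : ℂ)] with w hw
  exact (ch_infty_of_ne hw).symm

/-- The inversion as a homeomorphism of the sphere. -/
noncomputable def sinvH : OnePoint ℂ ≃ₜ OnePoint ℂ where
  toFun := sinv
  invFun := sinv
  left_inv := sinv_sinv
  right_inv := sinv_sinv
  continuous_toFun := continuous_sinv
  continuous_invFun := continuous_sinv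

theorem ch_isOpenEmbedding (x : OnePoint ℂ) : IsOpenEmbedding (ch x) := by
  induction x using OnePoint.rec with
  | infty => exact sinvH.isOpenEmbedding.comp OnePoint.isOpenEmbedding_coe
  | coe a => exact OnePoint.isOpenEmbedding_coe.comp (Homeomorph.addLeft a).isOpenEmbedding

theorem ch_trans (x y : OnePoint ℂ) (z : ℂ) (h : ch x z = y) :
    ∃ t : ℂ → ℂ, AnalyticAt ℂ t 0 ∧ t 0 = z ∧ deriv t 0 ≠ 0 ∧
      ∀ᶠ w in 𝓝 (0 : ℂ), ch x (t w) = ch y w := by
  subst h
  induction x using OnePoint.rec with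
  | coe a =>
    refine ⟨fun w => z + w, by fun_prop, add_zero z, by simp, Eventually.of_forall fun w => ?_⟩
    simp only [ch_coe, add_assoc]
  | infty =>
    by_cases hz : z = 0
    · subst hz
      refine ⟨fun w => w, analyticAt_id, rfl, by simp, Eventually.of_forall fun w => ?_⟩
      rw [ch_infty_zero]
    · have h0 : z⁻¹ + 0 ≠ 0 := by simpa using hz
      have hd : HasDerivAt (fun w : ℂ => (z⁻¹ + w)⁻¹) (-1 / (z⁻¹ + 0) ^ 2) 0 :=
        ((hasDerivAt_id (0 : ℂ)).const_add z⁻¹).inv h0
      refine ⟨fun w => (z⁻¹ + w)⁻¹, ?_, by simp, ?_, ?_⟩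
      · exact (analyticAt_const.add analyticAt_id).inv h0
      · rw [hd.deriv]
        exact div_ne_zero (by norm_num) (pow_ne_zero 2 h0)
      · have hc : ContinuousAt (fun w : ℂ => z⁻¹ + w) 0 := by fun_prop
        filter_upwards [hc.eventually_ne h0] with w hw
        rw [ch_infty_of_ne (inv_ne_zero hw), inv_inv, ch_infty_of_ne hz, ch_coe]

end Pool.Agent.Lib.MP_1c0d65_gt.B
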