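import Pool.Agent.Lib.MP_1c0d65_gt.B.Sph

/-! Complex coordinates on a real four dimensional space with a complex structure. -/

namespace Pool.Agent.Lib.MP_1c0d65_gt.B

/-- Complex coordinates in which finitely many vectors are not vertical. -/
theorem exists_coord {V : Type*} [NormedAddCommGroup V] [NormedSpace ℝ V] [FiniteDimensional ℝ V]
    (hV : Module.finrank ℝ V = 4) (J : V →L[ℝ] V) (hJ : ∀ v, J (J v) = -v) :
    ∃ A : V ≃L[ℝ] ℂ × ℂ, ∀ v, A (J v) = Complex.I • A v := by
  let _ : SMul ℂ V := ⟨fun c v => c.re • v + c.im • J v⟩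
  have hs : ∀ (c : ℂ) (v : V), c • v = c.re • v + c.im • J v := fun _ _ => rfl
  let _ : Module ℂ V := Module.ofMinimalAxioms
    (fun c v w => by simp only [hs, map_add]; module)
    (fun c d v => by simp only [hs, Complex.add_re, Complex.add_im]; module)
    (fun c d v => by
      simp only [hs, Complex.mul_re, Complex.mul_im, map_add, map_smul, hJ]; module)
    (fun v => by simp [hs])
  have : IsScalarTower ℝ ℂ V := ⟨fun r c v => by
    simp only [hs, Complex.smul_re, Complex.smul_im, smul_eq_mul]; module⟩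
  have : Module.Finite ℂ V := Module.Finite.of_restrictScalars_finite ℝ ℂ V
  have h2 : Module.finrank ℂ V = Module.finrank ℂ (ℂ × ℂ) := by
    have := Module.finrank_mul_finrank ℝ ℂ V
    rw [Complex.finrank_real_complex, hV] at this
    rw [Module.finrank_prod, Module.finrank_self]
    omega
  let e : V ≃ₗ[ℂ] ℂ × ℂ := LinearEquiv.ofFinrankEq _ _ h2
  refine ⟨(e.restrictScalars ℝ).toContinuousLinearEquiv, fun v => ?_⟩
  change e (J v) = Complex.I • e v
  rw [← map_smul, hs]
  simp

theorem exists_shear {S : Set (ℂ × ℂ)} (hS : S.Finite) (h0 : (0 : ℂ × ℂ) ∉ S) :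
    ∃ c : ℂ, ∀ v ∈ S, v.1 + c * v.2 ≠ 0 := by
  obtain ⟨c, hc⟩ := (hS.image fun v => -v.1 / v.2).exists_notMem
  refine ⟨c, fun v hv e => ?_⟩
  by_cases h2 : v.2 = 0
  · refine h0 (Eq.subst (motive := (· ∈ S)) (Prod.ext ?_ h2) hv)
    simpa [h2] using e
  · refine hc ⟨v, hv, ?_⟩
    field_simp
    linear_combination -e

end Pool.Agent.Lib.MP_1c0d65_gt.B
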