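import Pool.Agent.Lib.MP_1c0d65_gt.B.Glb
import Pool.Agent.Lib.MP_1c0d65_gt.B.Coord
import Pool.Agent.Lib.MP_1c0d65_gt.PW.Plot

/-! Adapted charts. -/

set_option autoImplicit false
set_option linter.unusedSectionVars false

open scoped Manifold ContDiff Topology
open Set Filter Metric MeasureTheory Pool.Agent.Lib.MP_1c0d65_gt.B

noncomputable section

namespace Pool.Agent.Lib.MP_1c0d65_gt.PW

variable {X : Type} [TopologicalSpace X] [ChartedSpace E X] [IsManifold 𝓘(ℝ, E) ∞ X]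
  [T2Space X] [CompactSpace X] [MeasurableSpace X] [BorelSpace X] {c : Ctx X} {O : Orb c}
  {g g' : ℂ → X} {z z' : ℂ} {p : X}

theorem Cht.isChart (K : Cht O p) : IsChart K.ψ := ⟨K.sm, K.sm'⟩

theorem IsChart.dif_inj {e : OpenPartialHomeomorph X E} (he : IsChart e) {y : E}
    (hy : y ∈ e.target) : Function.Injective (dif e.symm y) := by
  obtain ⟨D, h⟩ := he.exists_equiv hy
  rw [h]; exact D.injective

theorem IsChart.pullJ_sq {e : OpenPartialHomeomorph X E} (he : IsChart e) (sub : e.source ⊆ O.W)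
    {y : E} (hy : y ∈ e.target) (v : E) : pullJ e.symm O.J y (pullJ e.symm O.J y v) = -v :=
  he.dif_inj hy (by
    rw [dif_pullJ (he.inv hy), dif_pullJ (he.inv hy), map_neg]
    exact (O.tame.1 _ (sub (e.map_target hy)) _).1)

/-- An adapted chart from a smooth chart. -/
def IsChart.cht {e : OpenPartialHomeomorph X E} (he : IsChart e) (mem : p ∈ e.source)
    (zero : e p = 0) (sub : e.source ⊆ O.W)
    (h0 : ∀ v, dif e.symm 0 (Complex.I • v) = O.J (e.symm 0) (dif e.symm 0 v)) : Cht O p :=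
  have t0 : (0 : E) ∈ e.target := zero ▸ e.map_source mem
  have cd : ∀ y ∈ e.target, ContDiffAt ℝ ∞ (pullJ e.symm O.J) y := fun _ hy =>
    O.tame.smooth O.isOpen_W (he.smAt hy) (sub (e.map_target hy)) (he.inv hy)
  { ψ := e
    Jt := pullJ e.symm O.J
    mem := mem
    zero := zero
    sub := sub
    acs := ⟨(cd 0 t0).of_le (by simp), ContinuousLinearMap.ext fun v =>
      he.dif_inj t0 ((dif_pullJ (he.inv t0) _ v).trans (h0 v).symm),
      mem_of_superset (e.open_target.mem_nhds t0) fun _ hy => he.pullJ_sq sub hy⟩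
    cd := fun y hy => (cd y hy).contDiffWithinAt
    sq := fun _ hy => he.pullJ_sq sub hy
    sm := he.sm
    sm' := he.sm'
    pull := fun _ hy => dif_pullJ (he.inv hy) _ }

/-- An affine change of a chart. -/
def affCht (e : OpenPartialHomeomorph X E) (A : E ≃L[ℝ] E) (b : E) : OpenPartialHomeomorph X E :=
  e.transHomeomorph ((Homeomorph.subRight b).trans A.toHomeomorph)

theorem IsChart.aff {e : OpenPartialHomeomorph X E} (he : IsChart e) (A : E ≃L[ℝ] E) (b : E) :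
    IsChart (affCht e A b) :=
  ⟨(A.contDiff.comp (contDiff_id.sub contDiff_const)).contMDiff.comp_contMDiffOn he.sm,
    he.sm'.comp (A.symm.contDiff.add (contDiff_const (c := b))).contMDiff.contMDiffOn
      fun _ hy => hy⟩

theorem IsChart.dif_aff {e : OpenPartialHomeomorph X E} (he : IsChart e) (A : E ≃L[ℝ] E) {b : E}
    (hb : b ∈ e.target) : (affCht e A b).symm 0 = e.symm b ∧
      ∀ v, dif (affCht e A b).symm 0 v = dif e.symm b (A.symm v) := by
  have e0 : A.symm 0 + b = b := by simp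
  refine ⟨congrArg e.symm e0, fun v => ?_⟩
  have d : HasFDerivAt (fun y => A.symm y + b) (A.symm : E →L[ℝ] E) 0 :=
    A.symm.hasFDerivAt.add_const b
  have := dif_comp (f := e.symm) (g := fun y => A.symm y + b) (y := 0)
    (by rw [e0]; exact (he.smAt hb).dfAt (by simp)) d.differentiableAt
  rw [d.fderiv, e0] at this
  exact DFunLike.congr_fun this v

theorem Orb.exists_cht (O : Orb c) (hp : p ∈ O.W) : Nonempty (Cht O p) := by
  let e := (chartAt E p).restrOpen O.W O.isOpen_W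
  have he : IsChart e := ⟨(isChart_chartAt p).sm.mono inter_subset_left,
    (isChart_chartAt p).sm'.mono inter_subset_left⟩
  have mem : p ∈ e.source := ⟨mem_chart_source E p, hp⟩
  have sub : e.source ⊆ O.W := inter_subset_right
  have hb := e.map_source mem
  obtain ⟨A, hA⟩ := exists_coord (V := E) (by simp) _ (he.pullJ_sq sub hb)
  obtain ⟨h1, h2⟩ := he.dif_aff A hb
  refine ⟨(he.aff A (e p)).cht mem (show A (e p - e p) = 0 by simp) sub fun v => ?_⟩
  rw [h1, h2, h2, ← dif_pullJ (he.inv hb)]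
  exact congrArg _ (A.injective (by simp [hA]))

theorem Cht.zero_mem (K : Cht O p) : (0 : E) ∈ K.ψ.target := K.zero ▸ K.ψ.map_source K.mem

theorem Cht.exists_lin (K : Cht O p) (A : E ≃L[ℂ] E) :
    ∃ K' : Cht O p, K'.ψ.source = K.ψ.source ∧ ∀ x, K'.ψ x = A (K.ψ x) := by
  let B : E ≃L[ℝ] E := (A.toLinearEquiv.restrictScalars ℝ).toContinuousLinearEquiv
  obtain ⟨h1, h2⟩ := K.isChart.dif_aff B K.zero_mem
  refine ⟨(K.isChart.aff B 0).cht K.mem (show A (K.ψ p - 0) = 0 by simp [K.zero]) K.sub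
    fun v => ?_, rfl, fun x => show A (K.ψ x - 0) = _ by rw [sub_zero]⟩
  rw [h1, h2, h2, ← K.pull 0 K.zero_mem, K.acs.zero]
  exact congrArg _ (map_smul A.symm Complex.I v)

theorem Cht.inj (K : Cht O p) {y : E} (hy : y ∈ K.ψ.target) :
    Function.Injective (dif K.ψ.symm y) := K.isChart.dif_inj hy

theorem Cht.dif_eq {V : Type} [NormedAddCommGroup V] [NormedSpace ℝ V] (K : Cht O p) {f : V → X}
    {y : V} (hy : f y ∈ K.ψ.source) (hf : ContMDiffAt 𝓘(ℝ, V) 𝓘(ℝ, E) ∞ f y) :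
    ContDiffAt ℝ ∞ (K.ψ ∘ f) y ∧
      dif f y = (dif K.ψ.symm (K.ψ (f y))).comp (fderiv ℝ (K.ψ ∘ f) y) :=
  ⟨K.isChart.loc le_rfl hf hy, K.isChart.dif_loc (SmAt.dfAt hf (by simp)) hy⟩

theorem Cht.cr_iff (K : Cht O p) (hz : g z ∈ K.ψ.source)
    (hf : ContMDiffAt 𝓘(ℝ, ℂ) 𝓘(ℝ, E) ∞ g z) :
    dif g z .I = O.J (g z) (dif g z 1) ↔ CR K.Jt (K.ψ ∘ g) z := by
  have ht := K.ψ.map_source hz
  have := K.pull _ ht (fderiv ℝ (K.ψ ∘ g) z 1)
  rw [K.ψ.left_inv hz] at this
  rw [(K.dif_eq hz hf).2, ContinuousLinearMap.comp_apply, ContinuousLinearMap.comp_apply, ← this]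
  exact (K.inj ht).eq_iff

theorem Cht.holG_iff (K : Cht O p) (hz : g z ∈ K.ψ.source) (hc : ContinuousAt g z) :
    HolG O.J g z ↔ ∀ᶠ s in 𝓝 z, ContDiffAt ℝ ∞ (K.ψ ∘ g) s ∧ CR K.Jt (K.ψ ∘ g) s := by
  refine eventually_congr ?_
  filter_upwards [(hc.eventually (K.ψ.open_source.mem_nhds hz)).eventually_nhds] with s hs
  have h0 : g s ∈ K.ψ.source := hs.self_of_nhds
  refine ⟨fun h => ⟨(K.dif_eq h0 h.1).1, (K.cr_iff h0 h.1).1 h.2⟩, fun h => ?_⟩
  have h1 : ContMDiffAt 𝓘(ℝ, ℂ) 𝓘(ℝ, E) ∞ g s :=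
    (SmAt.comp (g := K.ψ ∘ g) (K.isChart.smAt (K.ψ.map_source h0)) h.1).congr_of_eventuallyEq
      (hs.mono fun t ht => (K.ψ.left_inv ht).symm)
  exact ⟨h1, (K.cr_iff h0 h1).2 h.2⟩

end Pool.Agent.Lib.MP_1c0d65_gt.PW
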