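import Pool.Agent.Lib.MP_1c0d65_gt.B.Cht
import Pool.Agent.Lib.MP_1c0d65_gt.A.Reg

/-! Regularity in an adapted chart. -/

set_option autoImplicit false
set_option linter.unusedSectionVars false

open scoped Manifold ContDiff Topology
open Set Filter Metric MeasureTheory Pool.Agent.Lib.MP_1c0d65_gt.B

noncomputable section

namespace Pool.Agent.Lib.MP_1c0d65_gt.PW

variable {X : Type} [TopologicalSpace X] [ChartedSpace E X] [IsManifold 𝓘(ℝ, E) ∞ X]
  [T2Space X] [CompactSpace X] [MeasurableSpace X] [BorelSpace X] {c : Ctx X} {O : Orb c}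
  {g g' : ℂ → X} {z z' : ℂ} {p : X}

/-- A curve of class `C^1` is smooth. -/
theorem Cht.holG_of_one (K : Cht O p) (hz : g z = p) (hc : ContinuousAt g z)
    (h1 : ContDiffAt ℝ 1 (K.ψ ∘ g) z) (h : ∀ᶠ s in 𝓝[≠] z, HolG O.J g s) : HolG O.J g z := by
  have hs : g z ∈ K.ψ.source := hz ▸ K.mem
  have f0 : (K.ψ ∘ g) z = 0 := by rw [Function.comp_apply, hz, K.zero]
  have e1 : ∀ᶠ s in 𝓝[≠] z, ContDiffAt ℝ ∞ (K.ψ ∘ g) s ∧ CR K.Jt (K.ψ ∘ g) s := by
    filter_upwards [h, nhdsWithin_le_nhds (hc.eventually (K.ψ.open_source.mem_nhds hs))]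
      with s h2 h3
    exact ((K.holG_iff h3 h2.cont).1 h2).self_of_nhds
  have cJ : ContDiffAt ℝ ∞ K.Jt ((K.ψ ∘ g) z) := by
    rw [f0]; exact K.cd.contDiffAt (K.ψ.open_target.mem_nhds K.zero_mem)
  have cf : ContinuousAt (fderiv ℝ (K.ψ ∘ g)) z := h1.continuousAt_fderiv one_ne_zero
  have e2 : CR K.Jt (K.ψ ∘ g) z :=
    tendsto_nhds_unique_of_eventuallyEq (l := 𝓝[≠] z)
      ((cf.clm_apply continuousAt_const).mono_left nhdsWithin_le_nhds)
      (((cJ.continuousAt.comp h1.continuousAt).clm_apply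
        (cf.clm_apply continuousAt_const)).mono_left nhdsWithin_le_nhds) (e1.mono fun s hs => hs.2)
  have e3 : ∀ᶠ s in 𝓝 z, CR K.Jt (K.ψ ∘ g) s := by
    rw [← nhdsNE_sup_pure, eventually_sup, eventually_pure]
    exact ⟨e1.mono fun s hs => hs.2, e2⟩
  have e4 : ContDiffAt ℝ ∞ (K.ψ ∘ g) z := by
    refine A.reg (F := E) (Ψ := fun y => ContinuousLinearMap.id ℝ E - (mI E).comp (K.Jt y))
      (contDiffAt_const.sub (contDiffAt_const.clm_comp cJ))
      ((injective_iff_map_eq_zero _).2 fun v hv => ?_) h1 ?_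
    · rw [f0, K.acs.zero] at hv
      have : v - Complex.I • Complex.I • v = 0 := hv
      rw [smul_smul, Complex.I_mul_I, neg_one_smul, sub_neg_eq_add, ← two_smul ℂ] at this
      exact (smul_eq_zero.1 this).resolve_left two_ne_zero
    · filter_upwards [e3, hc.eventually (K.ψ.open_source.mem_nhds hs)] with s h2 h3
      change fderiv ℝ (K.ψ ∘ g) s .I - Complex.I • K.Jt _ (fderiv ℝ (K.ψ ∘ g) s .I) =
        Complex.I • (fderiv ℝ (K.ψ ∘ g) s 1 - Complex.I • K.Jt _ (fderiv ℝ (K.ψ ∘ g) s 1))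
      rw [h2, K.sq ((K.ψ ∘ g) s) (K.ψ.map_source h3), smul_sub, smul_smul, Complex.I_mul_I]
      module
  rw [K.holG_iff hs hc, ← nhdsNE_sup_pure, eventually_sup, eventually_pure]
  exact ⟨e1, e4, e2⟩

end Pool.Agent.Lib.MP_1c0d65_gt.PW
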