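import Mathlib

/-! The degree of a proper holomorphic map of the plane minus a finite set. -/

set_option autoImplicit false

open scoped Topology
open Set Filter

namespace Pool.Agent.Lib.MP_1c0d65_gt.B

/-- Near a regular value of a proper map the number of preimages is constant. -/
theorem ncard_fibre_eventually {R : Set ℂ} (hR : IsOpen R) {φ : ℂ → ℂ}
    (hφ : ∀ z ∈ R, AnalyticAt ℂ φ z) {w : ℂ} (fin : {z ∈ R | φ z = w}.Finite)
    (reg : ∀ z ∈ R, φ z = w → deriv φ z ≠ 0) {K : Set ℂ} (hK : IsCompact K) (hKR : K ⊆ R)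
    (prop : ∀ᶠ w' in 𝓝 w, ∀ z ∈ R, φ z = w' → z ∈ K) :
    ∀ᶠ w' in 𝓝 w, {z ∈ R | φ z = w'}.ncard = {z ∈ R | φ z = w}.ncard := by
  set S := {z ∈ R | φ z = w} with hS
  obtain ⟨U, hU, hd⟩ := fin.t2_separation
  have key : ∀ z, ∃ V, IsOpen V ∧ V ⊆ U z ∧ V ⊆ R ∧ InjOn φ V ∧
      (z ∈ S → z ∈ V ∧ φ '' V ∈ 𝓝 w) := by
    intro z
    by_cases hz : z ∈ S
    · have hs : HasStrictDerivAt φ (deriv φ z) z := (hφ z hz.1).hasStrictDerivAt
      have h0 := reg z hz.1 hz.2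
      have hl := hs.eventually_left_inverse h0
      obtain ⟨V, hV, hVo, hzV⟩ := mem_nhds_iff.1
        (inter_mem hl (inter_mem ((hU z).2.mem_nhds (hU z).1) (hR.mem_nhds hz.1)))
      refine ⟨V, hVo, fun x hx => (hV hx).2.1, fun x hx => (hV hx).2.2, fun x hx y hy e => ?_,
        fun _ => ⟨hzV, ?_⟩⟩
      · have h1 : hs.localInverse φ _ _ h0 (φ x) = x := (hV hx).1
        have h2 : hs.localInverse φ _ _ h0 (φ y) = y := (hV hy).1
        rw [← h1, e, h2]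
      · have := hs.map_nhds_eq h0
        rw [hz.2] at this
        rw [← this]
        exact image_mem_map (hVo.mem_nhds hzV)
    · exact ⟨∅, isOpen_empty, empty_subset _, empty_subset _, injOn_empty _, fun h => (hz h).elim⟩
  choose V hVo hVU hVR hVi hV using key
  have hc : IsCompact (φ '' (K \ ⋃ z ∈ S, V z)) :=
    (hK.diff (isOpen_biUnion fun z _ => hVo z)).image_of_continuousOn fun z hz =>
      (hφ z (hKR hz.1)).continuousAt.continuousWithinAt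
  have hw : w ∉ φ '' (K \ ⋃ z ∈ S, V z) := by
    rintro ⟨z, hz, e⟩
    have hzS : z ∈ S := ⟨hKR hz.1, e⟩
    exact hz.2 (mem_biUnion hzS (hV z hzS).1)
  have h1 : ∀ᶠ w' in 𝓝 w, ∀ z ∈ S, w' ∈ φ '' V z :=
    (eventually_all_finite fin).2 fun z hz => (hV z hz).2
  filter_upwards [prop, h1, hc.isClosed.isOpen_compl.mem_nhds hw] with w' p1 p2 p3
  choose! g hg hg' using p2
  symm
  refine ncard_congr (fun z _ => g z) (fun z hz => ⟨hVR z (hg z hz), hg' z hz⟩) ?_ ?_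
  · intro a b ha hb e
    by_contra hne
    exact disjoint_left.1 (hd ha hb hne) (hVU a (hg a ha)) (hVU b (by rw [e]; exact hg b hb))
  · intro b hb
    have : b ∈ ⋃ z ∈ S, V z := by
      by_contra hn
      exact p3 ⟨b, ⟨p1 b hb.1 hb.2, hn⟩, hb.2⟩
    obtain ⟨z, hz, hbz⟩ := mem_iUnion₂.1 this
    exact ⟨z, hz, hVi z (hg z hz) hbz ((hg' z hz).trans hb.2.symm)⟩

theorem exists_degree {R : Set ℂ} (hR : Rᶜ.Finite) {φ : ℂ → ℂ} (hφ : ∀ z ∈ R, AnalyticAt ℂ φ z)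
    (crit : {z ∈ R | deriv φ z = 0}.Finite) (fin : ∀ w, {z ∈ R | φ z = w}.Finite)
    {A : Set ℂ} (hA : A.Finite)
    (prop : ∀ w ∉ A, ∃ K, IsCompact K ∧ K ⊆ R ∧ ∀ᶠ w' in 𝓝 w, ∀ z ∈ R, φ z = w' → z ∈ K) :
    ∃ (d : ℕ) (T : Set ℂ), 0 < d ∧ T.Finite ∧ ∀ w ∉ T, {z ∈ R | φ z = w}.ncard = d := by
  set T := A ∪ φ '' {z ∈ R | deriv φ z = 0} with hT
  have hTf : T.Finite := hA.union (crit.image φ)
  have hRo : IsOpen R := isClosed_compl_iff.1 hR.isClosed
  have hpre : IsPreconnected Tᶜ :=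
    (hTf.countable.isConnected_compl_of_one_lt_rank (by simp)).isPreconnected
  have hcont : ContinuousOn (fun w => {z ∈ R | φ z = w}.ncard) Tᶜ := by
    intro w hw
    obtain ⟨K, hK, hKR, hp⟩ := prop w fun h => hw (Or.inl h)
    have := ncard_fibre_eventually hRo hφ (fin w)
      (fun z hz e h0 => hw (Or.inr ⟨z, ⟨hz, h0⟩, e⟩)) hK hKR hp
    exact (continuousAt_const.congr (EventuallyEq.symm this)).continuousWithinAt
  have hbad : (Rᶜ ∪ ⋃ w ∈ T, {z ∈ R | φ z = w}).Finite :=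
    hR.union (hTf.biUnion fun w _ => fin w)
  obtain ⟨z, hz⟩ := hbad.infinite_compl.nonempty
  have hzR : z ∈ R := by
    by_contra h
    exact hz (Or.inl h)
  have hzT : φ z ∉ T := fun h => hz (Or.inr (mem_biUnion h ⟨hzR, rfl⟩))
  refine ⟨{x ∈ R | φ x = φ z}.ncard, T, (ncard_pos (fin _)).2 ⟨z, hzR, rfl⟩, hTf, fun w hw => ?_⟩
  exact hpre.constant hcont hw hzT

end Pool.Agent.Lib.MP_1c0d65_gt.B
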