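import Pool.Agent.Lib.MP_1c0d65_gt.B.Sim

/-! The difference of two branches over the same point of the first axis. -/

namespace Pool.Agent.Lib.MP_1c0d65_gt.B

open Filter Topology Asymptotics Complex ContinuousLinearMap

/-- The slope of the tangent plane. -/
noncomputable def slope (u : ℂ → ℂ × ℂ) (v : ℂ) : ℂ →L[ℝ] ℂ :=
  ((snd ℝ ℂ ℂ).comp (fderiv ℝ u v)).comp ((fst ℝ ℂ ℂ).comp (fderiv ℝ u v)).inverse

/-- The projection along the tangent plane. -/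
noncomputable def prj (u : ℂ → ℂ × ℂ) (v : ℂ) : ℂ × ℂ →L[ℝ] ℂ :=
  snd ℝ ℂ ℂ - (slope u v).comp (fst ℝ ℂ ℂ)

/-- The complex structure on the normal space. -/
noncomputable def nj (J : ℂ × ℂ → ℂ × ℂ →L[ℝ] ℂ × ℂ) (u : ℂ → ℂ × ℂ) (v : ℂ) : ℂ →L[ℝ] ℂ :=
  (prj u v).comp ((J (u v)).comp (inr ℝ ℂ ℂ))

theorem CR.mul_I {E : Type*} [NormedAddCommGroup E] [NormedSpace ℝ E] [NormedSpace ℂ E]
    [IsScalarTower ℝ ℂ E] {J : E → E →L[ℝ] E} {u : ℂ → E} {z : ℂ} (h : CR J u z)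
    (hJ : ∀ v, J (u z) (J (u z) v) = -v) (w : ℂ) :
    J (u z) (fderiv ℝ u z w) = fderiv ℝ u z (I * w) := by
  rw [clm_eq _ w, clm_eq _ (I * w), h]
  simp [hJ, add_comm]

theorem norm_le_of_comp {T A : ℂ →L[ℝ] ℂ} {c : ℝ} (hc : 0 < c) (h : ∀ v, c * ‖v‖ ≤ ‖A v‖) :
    c * ‖T‖ ≤ ‖T.comp A‖ := by
  obtain ⟨e, rfl⟩ := equiv_of_lower hc h
  rw [← le_div_iff₀' hc]
  refine opNorm_le_bound _ (by positivity) fun y => ?_
  obtain ⟨v, rfl⟩ := e.surjective y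
  rw [div_mul_eq_mul_div, le_div_iff₀ hc]
  have h1 := (T.comp (e : ℂ →L[ℝ] ℂ)).le_opNorm v
  have h2 := mul_le_mul_of_nonneg_left (h v) (norm_nonneg (T.comp (e : ℂ →L[ℝ] ℂ)))
  have h3 := mul_le_mul_of_nonneg_right h1 hc.le
  simp only [comp_apply, ContinuousLinearEquiv.coe_coe] at h2 h3
  nlinarith

theorem ord_fst {n : WithTop ℕ∞} {u : ℂ → ℂ × ℂ} {l : ℕ} {a : ℂ × ℂ} (h : Ord n u l a)
    (hn : n ≠ 0) : Ord n (fun z => (u z).1) l a.1 := h.clm hn (fst ℝ ℂ ℂ) fun _ _ => rfl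

theorem ord_snd {n : WithTop ℕ∞} {u : ℂ → ℂ × ℂ} {l : ℕ} {a : ℂ × ℂ} (h : Ord n u l a)
    (hn : n ≠ 0) : Ord n (fun z => (u z).2) l a.2 := h.clm hn (snd ℝ ℂ ℂ) fun _ _ => rfl

variable {J : ℂ × ℂ → ℂ × ℂ →L[ℝ] ℂ × ℂ} {u : ℂ → ℂ × ℂ} {l : ℕ} {a : ℂ × ℂ}

theorem slope_spec (hu : ContDiffAt ℝ 2 u 0) (ho : Ord 2 u l a) (ha : a.1 ≠ 0) :
    ∃ K, 0 ≤ K ∧ ∀ᶠ v in 𝓝[≠] (0 : ℂ), ContDiffAt ℝ 1 (slope u) v ∧ ‖slope u v‖ ≤ K ∧
      ‖fderiv ℝ (slope u) v‖ * ‖v‖ ^ l ≤ K ∧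
      (∀ h, slope u v (fderiv ℝ u v h).1 = (fderiv ℝ u v h).2) ∧
      ∀ ξ, ∃ h, (fderiv ℝ u v h).1 = ξ := by
  set A : ℂ → ℂ →L[ℝ] ℂ := fun v => (fst ℝ ℂ ℂ).comp (fderiv ℝ u v) with hA
  set B : ℂ → ℂ →L[ℝ] ℂ := fun v => (snd ℝ ℂ ℂ).comp (fderiv ℝ u v) with hB
  have df : ContDiffAt ℝ 1 (fderiv ℝ u) 0 := hu.fderiv_right (by norm_num)
  have dA : ContDiffAt ℝ 1 A 0 := contDiffAt_const.clm_comp df
  have dB : ContDiffAt ℝ 1 B 0 := contDiffAt_const.clm_comp df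
  obtain ⟨M1, M10, hM1⟩ := exists_fderiv_bound dA
  obtain ⟨M2, M20, hM2⟩ := exists_fderiv_bound dB
  obtain ⟨K1, K10, hK1⟩ := ho.d_bigO.exists_nonneg
  set c := ‖a.1‖ / 2 with hc
  have c0 : 0 < c := half_pos (norm_pos_iff.2 ha)
  have lo : ∀ᶠ v in 𝓝[≠] (0 : ℂ), ∀ h, c * ‖v‖ ^ l * ‖h‖ ≤ ‖A v h‖ := by
    filter_upwards [(ord_fst ho two_ne_zero).lower ha, ho.diff two_ne_zero] with v h1 h2 h
    have := h1 h
    rwa [fderiv.fst h2] at this
  have pos : ∀ v : ℂ, v ≠ 0 → 0 < c * ‖v‖ ^ l := fun v hv => by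
    have := norm_pos_iff.2 hv; positivity
  have cm : ∀ᶠ v in 𝓝[≠] (0 : ℂ), (slope u v).comp (A v) = B v := by
    filter_upwards [lo, self_mem_nhdsWithin] with v h1 v0
    obtain ⟨e, he⟩ := equiv_of_lower (pos v v0) h1
    change ((B v).comp (A v).inverse).comp (A v) = B v
    rw [← he, inverse_equiv]
    ext1 h; simp
  refine ⟨K1 / c + (M2 + K1 / c * M1) / c, by positivity, ?_⟩
  filter_upwards [lo, self_mem_nhdsWithin, eventually_eventually_nhdsWithin.2 cm, hK1.bound,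
    mem_nhdsWithin_of_mem_nhds ((dA.eventually (by simp)).and ((dB.eventually (by simp)).and
      (hM1.and hM2)))] with v h1 v0 h2 h3 ⟨a1, b1, m1, m2⟩
  rw [nhdsWithin_eq_nhds.2 (isOpen_compl_singleton.mem_nhds v0)] at h2
  obtain ⟨e, he⟩ := equiv_of_lower (pos v v0) h1
  have di : ContDiffAt ℝ 1 inverse (A v) := he ▸ contDiffAt_map_inverse e
  have ds : ContDiffAt ℝ 1 (slope u) v := b1.clm_comp (ContDiffAt.comp (g := inverse) v di a1)
  have ns : ‖slope u v‖ ≤ K1 / c := by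
    have h4 := norm_le_of_comp (T := slope u v) (pos v v0) h1
    have h5 : ‖B v‖ ≤ ‖fderiv ℝ u v‖ :=
      (opNorm_comp_le _ _).trans (mul_le_of_le_one_left (norm_nonneg _) (norm_snd_le ..))
    rw [h2.self_of_nhds] at h4
    rw [norm_pow] at h3
    have h6 : 0 < ‖v‖ ^ l := pow_pos (norm_pos_iff.2 v0) l
    rw [le_div_iff₀ c0]
    nlinarith
  refine ⟨ds, ns.trans (le_add_of_nonneg_right (by positivity)), ?_, fun h => ?_, fun ξ => ?_⟩
  · refine le_trans ?_ (le_add_of_nonneg_left (by positivity))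
    have h6 : 0 < ‖v‖ ^ l := pow_pos (norm_pos_iff.2 v0) l
    rw [← le_div_iff₀ h6]
    refine opNorm_le_bound _ (by positivity) fun h => ?_
    have h7 : (fun y => (slope u y).comp (A y)) =ᶠ[𝓝 v] B := h2
    have h8 := congrArg (fun T => T h) (h7.fderiv_eq (𝕜 := ℝ))
    rw [((ds.differentiableAt one_ne_zero).hasFDerivAt.clm_comp
      (a1.differentiableAt one_ne_zero).hasFDerivAt).fderiv] at h8
    have h9 : (fderiv ℝ (slope u) v h).comp (A v) =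
        fderiv ℝ B v h - (slope u v).comp (fderiv ℝ A v h) := by
      rw [← h8]; simp
    have h4 := norm_le_of_comp (T := fderiv ℝ (slope u) v h) (pos v v0) h1
    rw [h9] at h4
    have n1 := ((fderiv ℝ B v).le_opNorm h).trans (mul_le_mul_of_nonneg_right m2 (norm_nonneg _))
    have n2 := ((fderiv ℝ A v).le_opNorm h).trans (mul_le_mul_of_nonneg_right m1 (norm_nonneg _))
    have n3 := (opNorm_comp_le (slope u v) (fderiv ℝ A v h)).trans
      (mul_le_mul ns n2 (norm_nonneg _) (by positivity))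
    have n4 := h4.trans ((norm_sub_le _ _).trans (add_le_add n1 n3))
    rw [div_div, div_mul_eq_mul_div, le_div_iff₀ (pos v v0)]
    nlinarith
  · exact congrArg (fun T : ℂ →L[ℝ] ℂ => T h) h2.self_of_nhds
  · obtain ⟨h, rfl⟩ := e.surjective ξ
    exact ⟨h, (congrArg (fun T : ℂ →L[ℝ] ℂ => T h) he).symm⟩

theorem normal_spec (hJ : Acs J) (hu : ∀ᶠ z in 𝓝 (0 : ℂ), ContDiffAt ℝ 2 u z ∧ CR J u z)
    (ho : Ord 2 u l a) (ha : a.1 ≠ 0) :
    ∃ K, 0 ≤ K ∧ Tendsto (nj J u) (𝓝[≠] 0) (𝓝 (mI ℂ)) ∧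
      ∀ᶠ v in 𝓝[≠] (0 : ℂ), ContDiffAt ℝ 1 (nj J u) v ∧ ‖fderiv ℝ (nj J u) v‖ ≤ K ∧
        (∀ η, nj J u v (nj J u v η) = -η) ∧ (∀ p, prj u v (J (u v) p) = nj J u v (prj u v p)) ∧
        ‖prj u v‖ ≤ K ∧ ∀ h, prj u v (fderiv ℝ u v h) = 0 := by
  have u2 := hu.self_of_nhds.1
  obtain ⟨K, K0, hK⟩ := slope_spec u2 ho ha
  have ut : Tendsto u (𝓝 0) (𝓝 0) := by simpa [ho.zero] using ho.cont.tendsto
  have hJu : ContDiffAt ℝ 1 (fun z => J (u z)) 0 :=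
    ContDiffAt.comp (g := J) 0 (by rw [ho.zero]; exact hJ.cd) (u2.of_le (by norm_num))
  set D : ℂ → ℂ →L[ℝ] ℂ := fun v => (snd ℝ ℂ ℂ).comp ((J (u v)).comp (inr ℝ ℂ ℂ)) with hD
  set C : ℂ → ℂ →L[ℝ] ℂ := fun v => (fst ℝ ℂ ℂ).comp ((J (u v)).comp (inr ℝ ℂ ℂ)) with hC
  have dD : ContDiffAt ℝ 1 D 0 := contDiffAt_const.clm_comp (hJu.clm_comp contDiffAt_const)
  have dC : ContDiffAt ℝ 1 C 0 := contDiffAt_const.clm_comp (hJu.clm_comp contDiffAt_const)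
  obtain ⟨M1, M10, hM1⟩ := exists_fderiv_bound dD
  obtain ⟨M2, M20, hM2⟩ := exists_fderiv_bound dC
  have e0 : nj J u = fun v => D v - (slope u v).comp (C v) := by
    funext v; ext1 η; simp [nj, prj, hD, hC]
  have D0 : D 0 = mI ℂ := by ext1 η; simp [hD, ho.zero, hJ.zero]
  have bC : C =O[𝓝 0] fun z : ℂ => z ^ (l + 1) := by
    have h1 := ((hJ.cd.differentiableAt one_ne_zero).isBigO_sub.comp_tendsto ut)
    have h2 : C =O[𝓝 0] fun z => J (u z) - J 0 :=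
      IsBigO.of_bound 1 (Eventually.of_forall fun z => by
        rw [one_mul]
        refine opNorm_le_bound _ (norm_nonneg _) fun η => ?_
        have : C z η = ((J (u z) - J 0) (0, η)).1 := by simp [hC, hJ.zero]
        rw [this]
        exact (_root_.norm_fst_le _).trans (((J (u z) - J 0).le_opNorm _).trans (by simp)))
    exact (h2.trans (by simpa [Function.comp_def] using h1)).trans (ho.bigO two_ne_zero)
  obtain ⟨K2, K20, hK2⟩ := bC.exists_nonneg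
  refine ⟨M1 + K * M2 + K * K2 + (1 + K), by positivity, ?_, ?_⟩
  · rw [e0, ← D0]
    have h1 : Tendsto (fun v => (slope u v).comp (C v)) (𝓝[≠] 0) (𝓝 0) := by
      have h2 : Tendsto C (𝓝 0) (𝓝 0) := bC.trans_tendsto (by
        simpa using ((continuous_pow (l + 1)).tendsto (0 : ℂ)))
      refine squeeze_zero_norm' (hK.mono fun v hv => (opNorm_comp_le _ _).trans
        (mul_le_mul_of_nonneg_right hv.2.1 (norm_nonneg _))) ?_
      simpa using ((h2.norm.const_mul K).mono_left nhdsWithin_le_nhds)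
    simpa using (dD.continuousAt.tendsto.mono_left nhdsWithin_le_nhds).sub h1
  filter_upwards [hK, mem_nhdsWithin_of_mem_nhds ((dD.eventually (by simp)).and
    ((dC.eventually (by simp)).and (hM1.and (hM2.and (hK2.bound.and (hu.and
      ((ut.eventually hJ.sq).and (Metric.ball_mem_nhds (0 : ℂ) one_pos))))))))]
    with v ⟨s1, s2, s3, s4, s5⟩ ⟨d1, d2, m1, m2, k2, ⟨_, cr⟩, jj, v1⟩
  have p0 : ∀ h, prj u v (fderiv ℝ u v h) = 0 := fun h => by simp [prj, s4]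
  have p1 : ∀ p, prj u v (J (u v) p) = nj J u v (prj u v p) := fun p => by
    obtain ⟨h, hh⟩ := s5 p.1
    have : p = fderiv ℝ u v h + (0, prj u v p) := by
      refine Prod.ext (by simp [hh]) ?_
      simp [prj, ← s4, hh]
    conv_lhs => rw [this]
    rw [map_add, map_add, cr.mul_I jj, p0, zero_add]
    rfl
  refine ⟨by rw [e0]; exact d1.sub (s1.clm_comp d2), ?_, fun η => ?_, p1, ?_, p0⟩
  · refine opNorm_le_bound _ (by positivity) fun h => ?_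
    rw [e0, ((d1.differentiableAt one_ne_zero).hasFDerivAt.fun_sub
      ((s1.differentiableAt one_ne_zero).hasFDerivAt.clm_comp
        (d2.differentiableAt one_ne_zero).hasFDerivAt)).fderiv]
    have n1 := ((fderiv ℝ D v).le_opNorm h).trans (mul_le_mul_of_nonneg_right m1 (norm_nonneg _))
    have n2 := ((fderiv ℝ C v).le_opNorm h).trans (mul_le_mul_of_nonneg_right m2 (norm_nonneg _))
    have n3 := (opNorm_comp_le (slope u v) (fderiv ℝ C v h)).trans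
      (mul_le_mul s2 n2 (norm_nonneg _) K0)
    have v2 : ‖v‖ ≤ 1 := le_of_lt (by simpa using v1)
    have n4 : ‖(fderiv ℝ (slope u) v h).comp (C v)‖ ≤ K * K2 * ‖h‖ := by
      refine (opNorm_comp_le _ _).trans ((mul_le_mul ((fderiv ℝ (slope u) v).le_opNorm h) k2
        (norm_nonneg _) (by positivity)).trans ?_)
      rw [norm_pow, pow_succ]
      have h1 : ‖fderiv ℝ (slope u) v‖ * ‖v‖ ^ l * ‖v‖ ≤ K := by
        have : 0 ≤ ‖fderiv ℝ (slope u) v‖ * ‖v‖ ^ l := by positivity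
        nlinarith
      have := mul_le_mul_of_nonneg_right h1 (mul_nonneg K20 (norm_nonneg h))
      nlinarith
    simp only [sub_apply, add_apply, comp_apply, compL_apply, flip_apply]
    refine (norm_sub_le _ _).trans ((add_le_add n1 ((norm_add_le _ _).trans
      (add_le_add n3 n4))).trans ?_)
    have : 0 ≤ (1 + K) * ‖h‖ := by positivity
    nlinarith
  · have h1 := p1 (J (u v) (0, η))
    rw [jj] at h1
    rw [show nj J u v η = prj u v (J (u v) (0, η)) from rfl, ← h1]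
    simp [prj]
  · refine le_trans ?_ (le_add_of_nonneg_left (by positivity))
    refine (norm_sub_le _ _).trans (add_le_add (norm_snd_le ..) ((opNorm_comp_le _ _).trans ?_))
    exact (mul_le_of_le_one_right (norm_nonneg _) (norm_fst_le ..)).trans s2

/-- The difference of two branches over the same first coordinate. -/
theorem diff_dich (hs : Sim ℂ) (hJ : Acs J) {u₁ : ℂ → ℂ × ℂ} {l₁ : ℕ} {a₁ : ℂ × ℂ}
    (h₁ : Ord 1 u₁ l₁ a₁) (c₁ : ∀ᶠ z in 𝓝[≠] (0 : ℂ), CR J u₁ z)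
    (hu : ∀ᶠ z in 𝓝 (0 : ℂ), ContDiffAt ℝ 2 u z ∧ CR J u z) (ho : Ord 2 u l a) (ha : a.1 ≠ 0)
    {φ : ℂ → ℂ} {m : ℕ} {c : ℂ} (hφ : Ord 1 φ m c) (hc : c ≠ 0)
    (hx : ∀ᶠ z in 𝓝[≠] (0 : ℂ), (u₁ z).1 = (u (φ z)).1) :
    Dich fun z => (u₁ z).2 - (u (φ z)).2 := by
  obtain ⟨K, K0, ht, hK⟩ := normal_spec hJ hu ho ha
  have tφ := hφ.tendsto_pn one_ne_zero hc
  have h₂ := (ho.mono (m := 1) (by norm_num)).comp hφ one_ne_zero hc
  obtain ⟨K1, K10, hK1⟩ := h₁.d_bound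
  obtain ⟨K2, K20, hK2⟩ := hφ.d_bound
  obtain ⟨L, S, hS, hL⟩ := hJ.cd.exists_lipschitzOnWith
  have t1 : Tendsto u₁ (𝓝[≠] 0) (𝓝 0) := by
    simpa [h₁.zero] using h₁.cont.tendsto.mono_left nhdsWithin_le_nhds
  have t2 : Tendsto (fun z => u (φ z)) (𝓝[≠] 0) (𝓝 0) := by
    have := h₂.cont.tendsto.mono_left (nhdsWithin_le_nhds (s := {0}ᶜ))
    rwa [h₂.zero] at this
  refine sim_var hs (j := fun z => nj J u (φ z)) (K := K * L * K1) (K' := K * K2)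
    (h₁.cont.snd.sub h₂.cont.snd) (ht.comp tφ) ?_
  filter_upwards [tφ.eventually hK, h₁.cd, h₂.cd, hφ.cd, hK1, hK2, c₁, t1.eventually hS,
    t2.eventually hS, tφ.eventually (ho.diff two_ne_zero), eventually_eventually_nhdsWithin.2 hx,
    self_mem_nhdsWithin] with z ⟨n1, n2, n3, n4, n5, n6⟩ d1 d2 d3 k1 k2 cr s1 s2 d4 x1 z0
  rw [nhdsWithin_eq_nhds.2 (isOpen_compl_singleton.mem_nhds z0)] at x1
  have f1 := d1.differentiableAt one_ne_zero
  have f2 := d2.differentiableAt one_ne_zero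
  have f3 := d3.differentiableAt one_ne_zero
  refine ⟨d1.snd.sub d2.snd, n1.comp z d3, ?_, n3, ?_⟩
  · rw [show (fun z => nj J u (φ z)) = nj J u ∘ φ from rfl,
      fderiv_comp z (n1.differentiableAt one_ne_zero) f3]
    exact (opNorm_comp_le _ _).trans (mul_le_mul n2 k2 (norm_nonneg _) K0)
  have e1 : ∀ h, fderiv ℝ (fun z => (u₁ z).2 - (u (φ z)).2) z h =
      prj u (φ z) (fderiv ℝ u₁ z h) := fun h => by
    have x2 : (fun z => (u₁ z).1) =ᶠ[𝓝 z] fun z => (u (φ z)).1 := x1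
    have x3 := congrArg (fun T : ℂ →L[ℝ] ℂ => T h) (x2.fderiv_eq (𝕜 := ℝ))
    rw [fderiv.fst f1, fderiv.fst f2] at x3
    have x4 : prj u (φ z) (fderiv ℝ (fun z => u (φ z)) z h) = 0 := by
      rw [show (fun z => u (φ z)) = u ∘ φ from rfl, fderiv_comp z d4 f3]
      exact n6 _
    rw [fderiv_fun_sub f1.snd f2.snd, fderiv.snd f1, fderiv.snd f2]
    simp only [prj, sub_apply, comp_apply, coe_fst', coe_snd'] at x3 x4 ⊢
    rw [x3]
    linear_combination -x4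
  rw [e1, e1, cr, ← n4, ← map_sub, ← sub_apply]
  have b1 : ‖J (u₁ z) - J (u (φ z))‖ ≤ L * ‖(u₁ z).2 - (u (φ z)).2‖ := by
    have := hL.norm_sub_le s1 s2
    rwa [Prod.norm_def, Prod.fst_sub, x1.self_of_nhds, sub_self, norm_zero, Prod.snd_sub,
      max_eq_right (norm_nonneg _)] at this
  have b2 : ‖fderiv ℝ u₁ z 1‖ ≤ K1 := ((fderiv ℝ u₁ z).le_opNorm 1).trans (by simpa using k1)
  refine ((prj u (φ z)).le_opNorm _).trans ((mul_le_mul n5 ((le_opNorm _ _).trans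
    (mul_le_mul b1 b2 (norm_nonneg _) (by positivity))) (norm_nonneg _) K0).trans (le_of_eq ?_))
  ring

end Pool.Agent.Lib.MP_1c0d65_gt.B
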