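import Pool.Agent.Lib.MP_1c0d65_gt.B.Cht
import Pool.Agent.Lib.MP_1c0d65_gt.B.Diff
import Pool.Agent.Lib.MP_1c0d65_gt.A.Sim

/-! Germs of curves: finite order, local injectivity, factorisation through an immersed germ. -/

set_option autoImplicit false
set_option linter.unusedSectionVars false

open scoped Manifold ContDiff Topology
open Set Filter Metric Pool.Agent.Lib.MP_1c0d65_gt.B

noncomputable section

namespace Pool.Agent.Lib.MP_1c0d65_gt.B

variable {E : Type*} [NormedAddCommGroup E] [NormedSpace ℝ E] [NormedSpace ℂ E]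
  [IsScalarTower ℝ ℂ E]

/-- The derivative of a map of finite order does not vanish near the centre. -/
theorem Ord.d_ne {n : WithTop ℕ∞} {u : ℂ → E} {l : ℕ} {a : E} (h : Ord n u l a) (ha : a ≠ 0) :
    ∀ᶠ z in 𝓝[≠] (0 : ℂ), fderiv ℝ u z 1 ≠ 0 := by
  have ha' : 0 < ‖a‖ / 2 := by have := norm_pos_iff.2 ha; positivity
  filter_upwards [h.d.def ha', self_mem_nhdsWithin] with z hz h0 h1
  have h2 := (fderiv ℝ u z - sm (((l + 1 : ℂ) * z ^ l) • a)).le_opNorm 1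
  rw [sub_apply, h1, sm_apply, one_smul, zero_sub, norm_neg, norm_one, mul_one,
    norm_smul, norm_mul] at h2
  have h3 : (1 : ℝ) ≤ ‖(l + 1 : ℂ)‖ := by
    rw [show (l + 1 : ℂ) = ((l + 1 : ℕ) : ℂ) by push_cast; rfl, Complex.norm_natCast]
    exact_mod_cast Nat.succ_pos l
  have h4 : 0 < ‖z ^ l‖ := norm_pos_iff.2 (pow_ne_zero _ h0)
  have h5 : 0 < ‖z ^ l‖ * ‖a‖ := mul_pos h4 (norm_pos_iff.2 ha)
  nlinarith

/-- The derivative of a holomorphic curve is zero or injective. -/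
theorem CR.inj {J : E → E →L[ℝ] E} {u : ℂ → E} {z : ℂ} (h : CR J u z)
    (hJ : ∀ v, J (u z) (J (u z) v) = -v) (h1 : fderiv ℝ u z 1 ≠ 0) :
    Function.Injective (fderiv ℝ u z) := by
  refine (injective_iff_map_eq_zero _).2 fun w hw => ?_
  have h2 : fderiv ℝ u z (Complex.I * w) = 0 := by rw [← h.mul_I hJ, hw, map_zero]
  by_contra h0
  apply h1
  have : (1 : ℂ) = (w⁻¹).re • w + (w⁻¹).im • (Complex.I * w) := by
    rw [Complex.real_smul, Complex.real_smul, ← mul_assoc, ← add_mul, Complex.re_add_im,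
      inv_mul_cancel₀ h0]
  rw [this, map_add, map_smul, map_smul, hw, h2, smul_zero, smul_zero, add_zero]

/-- An immersed curve has a local left inverse. -/
theorem exists_left_inv {w : ℂ → ℂ × ℂ} {z : ℂ} {n : WithTop ℕ∞} (hn : n ≠ 0)
    (hw : ContDiffAt ℝ n w z) (hi : Function.Injective (fderiv ℝ w z)) :
    ∃ σ : ℂ × ℂ → ℂ, ContDiffAt ℝ n σ (w z) ∧ ∀ᶠ s in 𝓝 z, σ (w s) = s := by
  obtain ⟨π, hπ⟩ := (fderiv ℝ w z).toLinearMap.exists_leftInverse_of_injective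
    (LinearMap.ker_eq_bot.2 hi)
  let π' : ℂ × ℂ →L[ℝ] ℂ := LinearMap.toContinuousLinearMap π
  have h1 : ContDiffAt ℝ n (π' ∘ w) z := π'.contDiff.contDiffAt.comp z hw
  have h2 : HasFDerivAt (π' ∘ w) (ContinuousLinearEquiv.refl ℝ ℂ : ℂ →L[ℝ] ℂ) z := by
    refine (π'.hasFDerivAt.comp z (hw.differentiableAt hn).hasFDerivAt).congr_fderiv ?_
    exact ContinuousLinearMap.ext fun v => LinearMap.congr_fun hπ v
  refine ⟨h1.localInverse h2 hn ∘ π', ?_, ?_⟩
  · exact (h1.to_localInverse h2 hn).comp (w z) π'.contDiff.contDiffAt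
  · exact (h1.hasStrictFDerivAt' h2 hn).eventually_left_inverse

end Pool.Agent.Lib.MP_1c0d65_gt.B

namespace Pool.Agent.Lib.MP_1c0d65_gt.PW

variable {X : Type} [TopologicalSpace X] [ChartedSpace E X] [IsManifold 𝓘(ℝ, E) ∞ X]
  [T2Space X] [CompactSpace X] [MeasurableSpace X] [BorelSpace X] {c : Ctx X} {O : Orb c}
  {g g' : ℂ → X} {z z' : ℂ} {p : X}

theorem Cht.dif_ne_iff (K : Cht O p) (hz : g z ∈ K.ψ.source)
    (hf : ContMDiffAt 𝓘(ℝ, ℂ) 𝓘(ℝ, E) ∞ g z) :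
    dif g z 1 ≠ 0 ↔ fderiv ℝ (K.ψ ∘ g) z 1 ≠ 0 := by
  rw [(K.dif_eq hz hf).2, ContinuousLinearMap.comp_apply, Ne,
    map_eq_zero_iff _ (K.inj (K.ψ.map_source hz))]

/-- A curve read in an adapted chart, centred at `0`, is constant or has an order. -/
theorem HolG.ord (h : HolG O.J g z) (K : Cht O (g z)) :
    (∀ᶠ s in 𝓝 z, g s = g z) ∨ ∃ l a, a ≠ 0 ∧ Ord ∞ (fun s => K.ψ (g (z + s))) l a := by
  have t : Tendsto (fun s : ℂ => z + s) (𝓝 0) (𝓝 z) := by
    simpa using (continuous_const_add z).tendsto 0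
  have h1 := (K.holG_iff K.mem h.cont).1 h
  have h2 : ∀ᶠ s in 𝓝 (0 : ℂ), ContDiffAt ℝ ∞ (fun s => K.ψ (g (z + s))) s ∧
      CR K.Jt (fun s => K.ψ (g (z + s))) s := by
    filter_upwards [t.eventually h1] with s hs
    refine ⟨hs.1.comp s (contDiffAt_const.add contDiffAt_id), ?_⟩
    have := fderiv_comp_add_left (𝕜 := ℝ) (f := K.ψ ∘ g) (x := s) z
    simp only [Function.comp_def] at this
    unfold CR
    rw [this]
    exact hs.2
  rcases order (fun _ _ h1 h2 => A.sim h1 h2) K.acs (WithTop.coe_le_coe.2 le_top) h2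
    (by simpa using K.zero) with h3 | h3
  · left
    have t' : Tendsto (fun s : ℂ => s - z) (𝓝 z) (𝓝 0) := by
      simpa using (continuous_sub_right z).tendsto z
    filter_upwards [t'.eventually h3, h.cont.eventually (K.ψ.open_source.mem_nhds K.mem)]
      with s hs hm
    refine K.ψ.injOn hm K.mem ?_
    simpa [K.zero] using hs
  · exact Or.inr h3

theorem HolG.order (h : HolG O.J g z) (hp : g z ∈ O.W) :
    (∀ᶠ s in 𝓝 z, g s = g z) ∨ ∀ᶠ s in 𝓝[≠] z, g s ≠ g z ∧ dif g s 1 ≠ 0 := by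
  obtain ⟨K⟩ := O.exists_cht hp
  refine (h.ord K).imp id fun ⟨l, a, ha, ho⟩ => ?_
  have t' : Tendsto (fun s : ℂ => s - z) (𝓝[≠] z) (𝓝[≠] 0) := by
    refine tendsto_nhdsWithin_iff.2 ⟨?_, ?_⟩
    · exact Tendsto.mono_left (by simpa using (continuous_sub_right z).tendsto z) nhdsWithin_le_nhds
    · filter_upwards [self_mem_nhdsWithin] with s hs using sub_ne_zero.2 hs
  filter_upwards [t'.eventually (ho.ne_zero (by simp) ha), t'.eventually (ho.d_ne ha),
    nhdsWithin_le_nhds (h.cont.eventually (K.ψ.open_source.mem_nhds K.mem)),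
    nhdsWithin_le_nhds h] with s h1 h2 hm hs
  refine ⟨fun e => h1 (by simp [e, K.zero]), (K.dif_ne_iff hm hs.1).2 ?_⟩
  have := fderiv_comp_add_left (𝕜 := ℝ) (f := K.ψ ∘ g) (x := s - z) z
  simp only [Function.comp_def, add_sub_cancel] at this
  rwa [this] at h2

/-- An immersed curve has a smooth local left inverse in every adapted chart. -/
theorem HolG.left_inv (h : HolG O.J g z) (K : Cht O p) (hz : g z ∈ K.ψ.source)
    (hd : dif g z 1 ≠ 0) :
    ∃ σ : E → ℂ, ContDiffAt ℝ ∞ σ (K.ψ (g z)) ∧ ∀ᶠ s in 𝓝 z, σ (K.ψ (g s)) = s := by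
  have h1 := ((K.holG_iff hz h.cont).1 h).self_of_nhds
  exact exists_left_inv (by simp) h1.1
    (h1.2.inj (K.sq _ (K.ψ.map_source hz)) ((K.dif_ne_iff hz h.cm).1 hd))

theorem HolG.injOn (h : HolG O.J g z) (hp : g z ∈ O.W) (hd : dif g z 1 ≠ 0) :
    ∃ V ∈ 𝓝 z, InjOn g V := by
  obtain ⟨K⟩ := O.exists_cht hp
  obtain ⟨σ, -, hσ⟩ := h.left_inv K K.mem hd
  exact ⟨_, hσ, fun a ha b hb e => by rw [← ha.out, e, hb.out]⟩

theorem HolG.dif_ne (h : HolG O.J g z) (hp : g z ∈ O.W) (hd : dif g z 1 ≠ 0) :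
    ∀ᶠ s in 𝓝 z, dif g s 1 ≠ 0 := by
  obtain ⟨K⟩ := O.exists_cht hp
  have h1 := ((K.holG_iff K.mem h.cont).1 h).self_of_nhds.1
  have h2 : ContinuousAt (fun s => fderiv ℝ (K.ψ ∘ g) s 1) z :=
    ((h1.fderiv_right (m := 0) (by simp)).continuousAt).clm_apply continuousAt_const
  filter_upwards [h2.eventually_ne ((K.dif_ne_iff K.mem h.cm).1 hd),
    h.cont.eventually (K.ψ.open_source.mem_nhds K.mem), h] with s h3 hm hs
  exact (K.dif_ne_iff hm hs.1).2 h3

theorem HolG.factor (h : HolG O.J g z) (h' : HolG O.J g' z') (hp : g z ∈ O.W) (he : g' z' = g z)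
    (hd : dif g' z' 1 ≠ 0) (hle : map g (𝓝 z) ≤ map g' (𝓝 z')) :
    ∃ t : ℂ → ℂ, AnalyticAt ℂ t z ∧ t z = z' ∧ ∀ᶠ s in 𝓝 z, g' (t s) = g s := by
  obtain ⟨K⟩ := O.exists_cht hp
  have hm' : g' z' ∈ K.ψ.source := by rw [he]; exact K.mem
  obtain ⟨σ, hσ, hs⟩ := h'.left_inv K hm' hd
  have h1 := (K.holG_iff K.mem h.cont).1 h
  have h1' := (K.holG_iff hm' h'.cont).1 h'
  have tz : σ (K.ψ (g z)) = z' := by have := hs.self_of_nhds; rwa [he] at this
  have e : ∀ᶠ s in 𝓝 z, g' (σ (K.ψ (g s))) = g s := by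
    have : g' '' {s | σ (K.ψ (g' s)) = s} ∈ map g (𝓝 z) := hle (image_mem_map hs)
    filter_upwards [mem_map.1 this] with s hs
    obtain ⟨v, hv, e⟩ := hs
    rw [← e, hv.out]
  refine ⟨fun s => σ (K.ψ (g s)), ?_, tz, e⟩
  have ct : ContDiffAt ℝ 1 (fun s => σ (K.ψ (g s))) z := by
    rw [he] at hσ
    exact (hσ.comp z h1.self_of_nhds.1).of_le (by exact_mod_cast le_top)
  have tt : Tendsto (fun s => σ (K.ψ (g s))) (𝓝 z) (𝓝 z') := tz ▸ ct.continuousAt.tendsto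
  refine Complex.analyticAt_iff_eventually_differentiableAt.2 ?_
  filter_upwards [ct.eventually (by simp), e.eventually_nhds, h1, tt.eventually h1',
    tt.eventually (h'.dif_ne (he ▸ hp) hd), tt.eventually h',
    tt.eventually (h'.cont.eventually (K.ψ.open_source.mem_nhds hm'))] with s a1 a2 a3 a4 a5 a6 a7
  have d1 := a1.differentiableAt one_ne_zero
  refine differentiableAt_complex_iff_differentiableAt_real.2 ⟨d1, ?_⟩
  have sq := K.sq _ (K.ψ.map_source a7)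
  have d2 : fderiv ℝ (K.ψ ∘ g) s = (fderiv ℝ (K.ψ ∘ g') (σ (K.ψ (g s)))).comp
      (fderiv ℝ (fun s => σ (K.ψ (g s))) s) := by
    rw [← fderiv_comp s (a4.1.differentiableAt (by simp)) d1]
    exact Filter.EventuallyEq.fderiv_eq (a2.mono fun x hx => by simp [hx])
  apply a4.2.inj sq ((K.dif_ne_iff a7 a6.1).1 a5)
  have d3 := a3.2
  unfold CR at d3
  rw [d2, ContinuousLinearMap.comp_apply, ContinuousLinearMap.comp_apply] at d3
  rw [d3, smul_eq_mul, ← a4.2.mul_I sq]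
  simp only [Function.comp_apply, a2.self_of_nhds]

end Pool.Agent.Lib.MP_1c0d65_gt.PW
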