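import Pool.Agent.Lib.MP_1c0d65_gt.B.SphereA
import Pool.Agent.Lib.MP_1c0d65_gt.B.GermA

/-! An orbifold curve is nowhere locally constant and has finite fibres. -/

set_option autoImplicit false

open scoped Manifold ContDiff Topology
open Set Filter Metric Pool.Agent.Lib.MP_1c0d65_gt.B

noncomputable section

namespace Pool.Agent.Lib.MP_1c0d65_gt.PW

variable {X : Type} [TopologicalSpace X] [ChartedSpace E X] [IsManifold 𝓘(ℝ, E) ∞ X]
  [T2Space X] [CompactSpace X] [MeasurableSpace X] [BorelSpace X] {c : Ctx X} {O : Orb c} {p : X}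

theorem OC.nconst (C : OC O) {x : OnePoint ℂ} (hx : x ∈ C.D) :
    ¬∀ᶠ s in 𝓝 (0 : ℂ), C.U (ch x s) = C.U (ch x 0) :=
  C.nconst_of (fun y hy => ((C.holG hy).order (C.U_mem (by rwa [ch_zero]))).imp id
    fun h => h.mono fun _ hs => hs.2) hx

theorem OC.isolated (C : OC O) {x : OnePoint ℂ} (hx : x ∈ C.D) :
    ∀ᶠ s in 𝓝[≠] (0 : ℂ), C.U (ch x s) ≠ C.U (ch x 0) ∧ dif (fun s => C.U (ch x s)) s 1 ≠ 0 :=
  ((C.holG hx).order (C.U_mem (by rwa [ch_zero]))).resolve_left (C.nconst hx)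

theorem OC.fibre_finite (C : OC O) (hp : p ∈ O.W) : {x ∈ C.D | C.U x = p}.Finite :=
  C.fibre_finite_of (fun _ hx => (C.isolated hx).mono fun _ hs => hs.1) hp

end Pool.Agent.Lib.MP_1c0d65_gt.PW
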