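import Pool.Agent.Lib.MP_1c0d65_gt.B.PunctA
import Pool.Agent.Lib.MP_1c0d65_gt.B.GermA
import Pool.Agent.Lib.MP_1c0d65_gt.B.Sphere

/-! An orbifold curve has finitely many critical points. -/

set_option autoImplicit false
set_option linter.unusedSectionVars false

open scoped Manifold ContDiff Topology
open Set Filter Metric Pool.Agent.Lib.MP_1c0d65_gt.B

noncomputable section

namespace Pool.Agent.Lib.MP_1c0d65_gt.PW

variable {X : Type} [TopologicalSpace X] [ChartedSpace E X] [IsManifold 𝓘(ℝ, E) ∞ X]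
  [T2Space X] [CompactSpace X] [MeasurableSpace X] [BorelSpace X] {c : Ctx X} {O : Orb c}

theorem OC.crit_finite (C : OC O) : {s | s ∉ C.F ∧ dif C.u s 1 = 0}.Finite := by
  refine punct_finite (fun a => ?_) ?_
  · by_cases ha : a ∈ C.F
    · obtain ⟨i, hi⟩ := C.pu a ha
      obtain ⟨j, -, z, h⟩ := C.exists_br hi
      exact h.dif_ne.mono fun s hs e => hs e.2
    · refine (((C.hu.holG (C.isOpen_F.mem_nhds ha)).order (C.mu ha)).resolve_left fun e =>
        C.nconst ((C.coe_mem_D a).2 ha) ?_).mono fun s hs e => hs.2 e.2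
      have h1 : Tendsto (fun s : ℂ => a + s) (𝓝 0) (𝓝 a) := by
        simpa using (continuous_const_add a).tendsto 0
      simpa [ch_coe] using h1.eventually e
  · obtain ⟨r, hr, hv⟩ := C.hv
    have h0 := hv.holG (ball_mem_nhds 0 hr)
    have h1 := (h0.order C.v0).resolve_left fun e => C.nconst C.infty_mem_D <| by
      filter_upwards [e] with s hs
      by_cases s0 : s = 0
      · rw [s0]
      · rw [ch_infty_of_ne s0, ch_infty_zero, C.U_coe, C.U_infty, ← C.uv s s0, hs]
    have h2 := Filter.tendsto_inv₀_cobounded' (α := ℂ)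
    filter_upwards [h2.eventually h1, h2.eventually (nhdsWithin_le_nhds h0),
      h2.eventually (nhdsWithin_le_nhds (h0.ev_W C.v0)), h2.eventually self_mem_nhdsWithin]
      with s h3 h4 h5 h6 e
    have s0 : s ≠ 0 := fun e => h6 (by simp [e])
    have e1 : C.u =ᶠ[𝓝 s] C.v ∘ fun t => t⁻¹ := by
      filter_upwards [isOpen_compl_singleton.mem_nhds s0] with t ht
      rw [Function.comp_apply, C.uv _ (inv_ne_zero ht), inv_inv]
    have e2 := e.2
    rw [brk_dif_congr e1, brk_dif_hol h4.1 (hasDerivAt_inv s0)] at e2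
    exact brk_ne (O.JJ h5) h4.2 h3.2 (by simpa using s0) e2

end Pool.Agent.Lib.MP_1c0d65_gt.PW
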