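import Pool.Agent.Lib.MP_1c0d65_gt.B.Sphere
import Pool.Agent.Lib.MP_1c0d65_gt.B.Punct
import Pool.Agent.Lib.MP_1c0d65_gt.B.GermA
import Pool.Agent.Lib.MP_1c0d65_gt.B.Deg
import Pool.Agent.Lib.MP_1c0d65_gt.B.Area
import Pool.Agent.Lib.MP_1c0d65_gt.PW.OCi

/-! A curve whose image lies in a simple curve is a branched cover of it. -/

set_option autoImplicit false
set_option linter.unusedSectionVars false

open scoped Manifold ContDiff Topology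
open Set Filter Metric MeasureTheory Pool.Agent.Lib.MP_1c0d65_gt.B

noncomputable section

namespace Pool.Agent.Lib.MP_1c0d65_gt.PW

variable {X : Type} [TopologicalSpace X] [ChartedSpace E X] [IsManifold 𝓘(ℝ, E) ∞ X]
  [T2Space X] [CompactSpace X] [MeasurableSpace X] [BorelSpace X] {c : Ctx X} {O : Orb c}

theorem OC.cov_fin (C : OC O) {Z : Set X} (hZ : Z.Finite) (hW : Z ⊆ O.W) :
    {s | s ∉ C.F ∧ C.u s ∈ Z}.Finite := by
  refine (hZ.biUnion fun p hp => (C.fibre_finite (hW hp)).preimage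
    (f := ((↑) : ℂ → OnePoint ℂ)) OnePoint.coe_injective.injOn).subset fun s hs => ?_
  exact mem_biUnion hs.2 ⟨(C.coe_mem_D s).2 hs.1, rfl⟩

theorem OC.cov_hol (C : OC O) {s : ℂ} (hs : s ∉ C.F) : HolG O.J C.u s :=
  C.hu.holG (C.isOpen_F.mem_nhds hs)

/-- The factorisation off a finite set. -/
theorem OC.cov_map (C C' : OC O) (h : C'.Simple) (hs : C.img ⊆ C'.img) :
    ∃ (Z : Set X) (φ : ℂ → ℂ), Z.Finite ∧ Z ⊆ O.W ∧ ∀ s ∉ C.F, C.u s ∉ Z →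
      φ s ∉ C'.F ∧ AnalyticAt ℂ φ s ∧ C.u =ᶠ[𝓝 s] C'.u ∘ φ ∧
        ∀ w ∉ C'.F, C'.u w = C.u s → w = φ s := by
  obtain ⟨B, hB, hi⟩ := h
  set Z : Set X := insert (C'.v 0) (C'.u '' ((B \ C'.F : Set ℂ) ∪
    {s | s ∉ C'.F ∧ dif C'.u s 1 = 0})) with hZd
  have hZ : Z.Finite := (((B.finite_toSet.sdiff).union C'.crit_finite).image _).insert _
  have hW : Z ⊆ O.W := by
    rintro _ (rfl | ⟨s, h1 | h1, rfl⟩)
    exacts [C'.v0, C'.mu h1.2, C'.mu h1.1]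
  have ex : ∀ s, ∃ w, s ∉ C.F → C.u s ∉ Z → w ∉ C'.F ∧ C'.u w = C.u s := fun s => by
    by_cases h1 : s ∈ C.F
    · exact ⟨0, fun h2 => absurd h1 h2⟩
    rcases hs (Or.inl ⟨s, h1, rfl⟩) with ⟨w, h2, h3⟩ | h2
    · exact ⟨w, fun _ _ => ⟨h2, h3⟩⟩
    · exact ⟨0, fun _ h3 => absurd (Or.inl h2) h3⟩
  choose φ hφ using ex
  have nb : ∀ s, C.u s ∉ Z → ∀ w ∉ C'.F, C'.u w = C.u s → w ∉ B ∧ dif C'.u w 1 ≠ 0 :=
    fun s h1 w h2 h3 => ⟨fun h4 => h1 (Or.inr ⟨w, Or.inl ⟨h4, h2⟩, h3⟩),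
      fun h4 => h1 (Or.inr ⟨w, Or.inr ⟨h2, h4⟩, h3⟩)⟩
  have uq : ∀ s ∉ C.F, C.u s ∉ Z → ∀ w ∉ C'.F, C'.u w = C.u s → w = φ s := fun s h1 h2 w h3 h4 =>
    hi (nb s h2 w h3 h4).1 (nb s h2 _ (hφ s h1 h2).1 (hφ s h1 h2).2).1
      (h4.trans (hφ s h1 h2).2.symm)
  refine ⟨Z, φ, hZ, hW, fun s h1 h2 => ?_⟩
  have hc := (C.cov_hol h1).cont
  have ev : ∀ᶠ y in 𝓝 s, y ∉ C.F ∧ C.u y ∉ Z :=
    (C.isOpen_F.eventually_mem h1).and (hc.eventually (hZ.isClosed.isOpen_compl.eventually_mem h2))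
  have e1 : C.u =ᶠ[𝓝 s] C'.u ∘ φ := ev.mono fun y hy => (hφ y hy.1 hy.2).2.symm
  have ct : Tendsto φ (𝓝 s) (𝓝 (φ s)) := fun A hA => by
    have hV : ((↑) : ℂ → OnePoint ℂ) '' A ∈ 𝓝ˢ {x ∈ C'.D | C'.U x = C.u s} := by
      refine mem_nhdsSet_iff_forall.2 fun x hx => ?_
      induction x using OnePoint.rec with
      | infty => exact absurd (Or.inl hx.2.symm) h2
      | coe w =>
        rw [uq s h1 h2 w ((C'.coe_mem_D w).1 hx.1) hx.2]
        exact OnePoint.isOpenEmbedding_coe.image_mem_nhds.2 hA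
    rw [mem_map]
    filter_upwards [hc.eventually (C'.nbhd (C.mu h1) hV), ev] with y a1 a2
    obtain ⟨w, hw, e⟩ := a1 (φ y) ((C'.coe_mem_D _).2 (hφ y a2.1 a2.2).1) (hφ y a2.1 a2.2).2
    rwa [OnePoint.coe_injective e] at hw
  obtain ⟨t, t1, t2, t3⟩ := (C.cov_hol h1).factor (C'.cov_hol (hφ s h1 h2).1) (C.mu h1)
    (hφ s h1 h2).2 (nb s h2 _ (hφ s h1 h2).1 (hφ s h1 h2).2).2
    (by rw [map_congr e1, ← map_map]; exact map_mono ct)
  refine ⟨(hφ s h1 h2).1, t1.congr ?_, e1, uq s h1 h2⟩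
  filter_upwards [t3, ev, t1.continuousAt.eventually
    (C'.isOpen_F.eventually_mem (t2 ▸ (hφ s h1 h2).1 : t s ∈ (C'.F : Set ℂ)ᶜ))] with y a1 a2 a3
  exact uq y a2.1 a2.2 _ a3 a1

theorem OC.cover (C C' : OC O) (h : C'.Simple) (hs : C.img ⊆ C'.img) : C.img = C'.img ∧
    ∃ d : ℕ, 0 < d ∧ (C.Simple → d = 1) ∧
      ∀ α, Form univ α → (O.Test α ∨ α = c.om) → per C.u α = d * per C'.u α := by
  obtain ⟨Z, φ, hZ, hW, H⟩ := C.cov_map C' h hs
  set R : Set ℂ := {s | s ∉ C.F ∧ C.u s ∉ Z} with hRd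
  have hR : Rᶜ.Finite := (C.F.finite_toSet.union (C.cov_fin hZ hW)).subset fun s h1 => by
    by_contra h2
    exact h1 ⟨fun h3 => h2 (Or.inl h3), fun h3 => h2 (Or.inr ⟨fun h4 => h2 (Or.inl h4), h3⟩)⟩
  have an : ∀ s ∈ R, AnalyticAt ℂ φ s := fun s h1 => (H s h1.1 h1.2).2.1
  have eq : ∀ s ∈ R, C.u s = C'.u (φ s) := fun s h1 => (H s h1.1 h1.2).2.2.1.eq_of_nhds
  have uq : ∀ s ∈ R, ∀ w ∉ C'.F, C.u s = C'.u w → φ s = w := fun s h1 w h2 h3 =>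
    ((H s h1.1 h1.2).2.2.2 w h2 h3.symm).symm
  have fin : ∀ w, {z ∈ R | φ z = w}.Finite := fun w => by
    by_cases hw : w ∈ C'.F
    · exact finite_empty.subset fun z hz => (H z hz.1.1 hz.1.2).1 (hz.2 ▸ hw)
    · exact (C.cov_fin (finite_singleton (C'.u w)) (singleton_subset_iff.2 (C'.mu hw))).subset
        fun z hz => ⟨hz.1.1, (eq z hz.1).trans (congrArg _ hz.2)⟩
  have hW' : insert (C.v 0) Z ⊆ O.W := insert_subset C.v0 hW
  obtain ⟨d, T, d0, hT, hd⟩ := exists_degree hR an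
    (C.crit_finite.subset fun z hz => ⟨hz.1.1, by
      rw [brk_dif_congr (H z hz.1.1 hz.1.2).2.2.1, brk_dif_hol (C'.cm (H z hz.1.1 hz.1.2).1)
        (an z hz.1).differentiableAt.hasDerivAt, hz.2, zero_mul, map_zero]⟩) fin
    (C'.F.finite_toSet.union (C'.cov_fin (hZ.insert (C.v 0)) hW')) fun w hw => by
      have w1 : w ∉ C'.F := fun h1 => hw (Or.inl h1)
      have w2 : C'.u w ∉ insert (C.v 0) Z := fun h1 => hw (Or.inr ⟨w1, h1⟩)
      obtain ⟨K, k1, k2, k3⟩ := exists_compact_between (fin w).isCompact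
        (isClosed_compl_iff.1 hR.isClosed) (sep_subset _ _)
      refine ⟨K, k1, k3, ?_⟩
      have hV : ((↑) : ℂ → OnePoint ℂ) '' K ∈ 𝓝ˢ {x ∈ C.D | C.U x = C'.u w} := by
        refine mem_nhdsSet_iff_forall.2 fun x hx => ?_
        induction x using OnePoint.rec with
        | infty => exact absurd (Or.inl hx.2.symm) w2
        | coe s =>
          have s1 : s ∈ R := ⟨(C.coe_mem_D s).1 hx.1, fun h3 => w2 (Or.inr (hx.2 ▸ h3))⟩
          exact OnePoint.isOpenEmbedding_coe.image_mem_nhds.2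
            (mem_interior_iff_mem_nhds.1 (k2 ⟨s1, uq s s1 w w1 hx.2⟩))
      filter_upwards [(C'.cov_hol w1).cont.eventually (C.nbhd (C'.mu w1) hV)] with y a1 z z1 z2
      obtain ⟨s, s1, e⟩ := a1 z ((C.coe_mem_D z).2 z1.1) ((eq z z1).trans (congrArg _ z2))
      exact OnePoint.coe_injective e ▸ s1
  have sur : ∀ w ∉ T, ∃ z ∈ R, φ z = w := fun w hw =>
    nonempty_of_ncard_ne_zero (s := {z ∈ R | φ z = w}) (by rw [hd w hw]; exact d0.ne')
  refine ⟨hs.antisymm fun p hp => ?_, d, d0, fun ⟨B, _, hi⟩ => ?_, fun α h1 h2 => ?_⟩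
  · rw [C'.img_eq] at hp
    obtain ⟨x, hx, rfl⟩ := hp
    refine C.img_closed (C'.U_mem hx) (closure_mono ?_
      ((C'.contAt hx).continuousWithinAt.mem_closure_image ((preconn_compl
        ((hT.image ((↑) : ℂ → OnePoint ℂ)).insert OnePoint.infty)).2 x)))
    rintro _ ⟨y, hy, rfl⟩
    induction y using OnePoint.rec with
    | infty => exact absurd (Or.inl rfl) hy
    | coe w =>
      obtain ⟨z, z1, rfl⟩ := sur w fun h3 => hy (Or.inr ⟨w, h3, rfl⟩)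
      exact Or.inl ⟨z, z1.1, eq z z1⟩
  · obtain ⟨w, hw⟩ := (hT.union (B.finite_toSet.image φ)).exists_notMem
    have := (ncard_le_one (fin w)).2 fun a ha b hb =>
      hi (fun h3 => hw (Or.inr ⟨a, h3, ha.2⟩)) (fun h3 => hw (Or.inr ⟨b, h3, hb.2⟩))
        (by rw [eq a ha.1, eq b hb.1, ha.2, hb.2])
    rw [hd w fun h3 => hw (Or.inl h3)] at this
    omega
  · refine Eq.trans (integral_congr_ae ?_) (area_formula hR hT an (fun w hw => ⟨fin w, hd w hw⟩)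
      (fun w _ => fin w) (C'.integrable h1 h2)).2
    filter_upwards [compl_mem_ae_iff.2 (hR.measure_zero volume)] with s h3
    rw [compl_compl] at h3
    rw [brk_pull2_congr (H s h3.1 h3.2).2.2.1, brk_dens (C'.cm (H s h3.1 h3.2).1)
      (an s h3).differentiableAt.hasDerivAt h1, mul_comm]

end Pool.Agent.Lib.MP_1c0d65_gt.PW
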