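import Pool.Agent.Lib.MP_1c0d65_gt.B.Sph

/-! Leading terms of holomorphic germs and division of leading terms. -/

namespace Pool.Agent.Lib.MP_1c0d65_gt.B

open Filter Topology Asymptotics

variable {E : Type*} [NormedAddCommGroup E] [NormedSpace ℝ E] [NormedSpace ℂ E]
  [IsScalarTower ℝ ℂ E] {n : WithTop ℕ∞}

theorem ord_of_analytic {f : ℂ → ℂ} (hf : AnalyticAt ℂ f 0) (h0 : f 0 = 0) (h1 : ¬f =ᶠ[𝓝 0] 0) :
    ∃ e c, c ≠ 0 ∧ Ord n f e c := by
  obtain ⟨k, g, hg, g0, hfg⟩ := hf.exists_eventuallyEq_pow_smul_nonzero_iff.2 h1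
  obtain rfl | ⟨e, rfl⟩ : k = 0 ∨ ∃ e, k = e + 1 := by
    cases k with
    | zero => exact .inl rfl
    | succ e => exact .inr ⟨e, rfl⟩
  · exact (g0 (by simpa [h0] using hfg.self_of_nhds.symm)).elim
  refine ⟨e, g 0, g0, h0, hf.continuousAt, (hf.eventually_analyticAt.filter_mono
    nhdsWithin_le_nhds).mono fun z hz => hz.contDiffAt.restrict_scalars ℝ, ?_⟩
  have t : Tendsto (fun z => (e + 1 : ℂ) * (g z - g 0) + z * deriv g z) (𝓝 0) (𝓝 0) := by
    have : ContinuousAt (fun z => (e + 1 : ℂ) * (g z - g 0) + z * deriv g z) 0 :=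
      (continuousAt_const.mul (hg.continuousAt.sub continuousAt_const)).add
        (continuousAt_id.mul hg.deriv.continuousAt)
    simpa using this.tendsto
  have o : (fun z : ℂ => z ^ e * ((e + 1 : ℂ) * (g z - g 0) + z * deriv g z)) =o[𝓝 0]
      fun z : ℂ => z ^ e := by
    simpa using (isBigO_refl (fun z : ℂ => z ^ e) (𝓝 0)).mul_isLittleO ((isLittleO_one_iff ℂ).2 t)
  refine ((IsBigO.of_bound 1 ?_).trans_isLittleO o).mono nhdsWithin_le_nhds
  filter_upwards [hfg.eventually_nhds, hg.eventually_analyticAt] with z hz hgz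
  have d : HasDerivAt f (((e + 1 : ℕ) : ℂ) * z ^ e * g z + z ^ (e + 1) * deriv g z) z := by
    refine HasDerivAt.congr_of_eventuallyEq
      ((hasDerivAt_pow (e + 1) z).mul hgz.differentiableAt.hasDerivAt) (hz.mono fun w hw => ?_)
    simpa using hw
  have d' : fderiv ℝ f z = sm (((e + 1 : ℕ) : ℂ) * z ^ e * g z + z ^ (e + 1) * deriv g z) :=
    (d.hasFDerivAt.restrictScalars ℝ).fderiv
  rw [d', sm_sub, one_mul]
  refine (norm_sm_le _).trans (le_of_eq (congrArg _ ?_))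
  push_cast
  rw [smul_eq_mul]; ring

theorem map_nhds_of_analytic {f : ℂ → ℂ} (hf : AnalyticAt ℂ f 0) (h0 : f 0 = 0)
    (h1 : ¬f =ᶠ[𝓝 0] 0) : map f (𝓝 0) = 𝓝 0 ∧ map f (𝓝[≠] 0) = 𝓝[≠] 0 := by
  have a : 𝓝 0 ≤ map f (𝓝 0) := by
    have := hf.eventually_constant_or_nhds_le_map_nhds.resolve_left fun h =>
      h1 (h.mono fun z hz => hz.trans h0)
    rwa [h0] at this
  have b : Tendsto f (𝓝 0) (𝓝 0) := by simpa [h0] using hf.continuousAt.tendsto
  obtain ⟨e, c, hc, ho⟩ := ord_of_analytic (n := 1) hf h0 h1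
  refine ⟨le_antisymm b a, le_antisymm (ho.tendsto_pn one_ne_zero hc) fun s hs => ?_⟩
  rw [mem_map, mem_nhdsWithin_iff_eventually] at hs
  rw [mem_nhdsWithin_iff_eventually]
  refine a (mem_map.2 (hs.mono fun z hz hne => hz fun e => hne ?_))
  rw [Set.mem_singleton_iff.1 e, h0]
  rfl

theorem tendsto_pow_pn (k : ℕ) : map (fun z : ℂ => z ^ (k + 1)) (𝓝[≠] 0) = 𝓝[≠] 0 :=
  (map_nhds_of_analytic (f := fun z : ℂ => z ^ (k + 1)) (by fun_prop) (by simp) fun h => by
    obtain ⟨z, hz, h0⟩ := ((h.filter_mono nhdsWithin_le_nhds).and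
      (self_mem_nhdsWithin (a := (0 : ℂ)) (s := {0}ᶜ))).exists
    exact h0 (pow_eq_zero_iff (Nat.succ_ne_zero k) |>.1 hz)).2

/-- A germ that is smooth after the substitution of a power is smooth off the origin. -/
theorem contDiffAt_of_pow {V : ℂ → E} {k : ℕ} {z : ℂ} (hz : z ≠ 0)
    (h : ContDiffAt ℝ n (fun w => V (w ^ (k + 1))) z) : ContDiffAt ℝ n V (z ^ (k + 1)) := by
  have hk : (k + 1 : ℂ) ≠ 0 := by exact_mod_cast Nat.succ_ne_zero k
  have hp : z ^ (k + 1) ≠ 0 := pow_ne_zero _ hz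
  set σ : ℂ → ℂ := fun τ => z * Complex.exp (Complex.log (τ / z ^ (k + 1)) / (k + 1)) with hσ
  have s0 : σ (z ^ (k + 1)) = z := by simp [hσ, div_self hp]
  have sa : AnalyticAt ℂ σ (z ^ (k + 1)) := by
    refine analyticAt_const.mul (AnalyticAt.cexp' (AnalyticAt.div_const ?_))
    refine AnalyticAt.clog (analyticAt_id.div_const) ?_
    simp [div_self hp]
  refine ((s0.symm ▸ h).comp _ (sa.contDiffAt.restrict_scalars ℝ)).congr_of_eventuallyEq ?_
  filter_upwards [isOpen_ne.mem_nhds hp] with τ hτ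
  simp only [Function.comp, hσ]
  rw [mul_pow, ← Complex.exp_nat_mul]
  push_cast
  rw [mul_div_cancel₀ _ hk, Complex.exp_log (div_ne_zero hτ hp), mul_div_cancel₀ _ hp]

/-- Division of leading terms by a power. -/
theorem Ord.div_pow {V : ℂ → E} {k l : ℕ} {a : E} (hu : Ord n (fun z => V (z ^ (k + 1))) l a)
    (hn : n ≠ 0) (ha : a ≠ 0) : ∃ m, Ord n V m a := by
  have hk : (k + 1 : ℂ) ≠ 0 := by exact_mod_cast Nat.succ_ne_zero k
  have hd : k + 1 ∣ l + 1 := by
    have hζ := Complex.isPrimitiveRoot_exp (k + 1) (Nat.succ_ne_zero k)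
    set ζ := Complex.exp (2 * Real.pi * Complex.I / (k + 1 : ℕ))
    have ζ0 : ζ ≠ 0 := Complex.exp_ne_zero _
    have h1 := (hu.comp (ord_pow n 0 ζ) hn ζ0).tendsto hn
    simp only [zero_add, pow_one, smul_eq_mul, mul_pow, hζ.pow_eq_one, mul_one, mul_zero,
      add_zero] at h1
    have h2 := tendsto_nhds_unique h1 (hu.tendsto hn)
    refine hζ.dvd_of_pow_eq_one _ (smul_left_injective ℂ ha ?_)
    simpa using h2
  obtain ⟨m, hm⟩ := hd
  obtain rfl | ⟨m, rfl⟩ : m = 0 ∨ ∃ e, m = e + 1 := by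
    cases m with
    | zero => exact .inl rfl
    | succ e => exact .inr ⟨e, rfl⟩
  · omega
  have hl : l = (k + 1) * m + k := by rw [mul_add, mul_one] at hm; omega
  have V0 : V 0 = 0 := by simpa using hu.zero
  have cd : ∀ᶠ z in 𝓝[≠] (0 : ℂ), ContDiffAt ℝ n V (z ^ (k + 1)) := by
    filter_upwards [hu.cd, self_mem_nhdsWithin] with z h1 h2 using contDiffAt_of_pow h2 h1
  refine ⟨m, V0, ?_, by rw [← tendsto_pow_pn k]; exact cd, ?_⟩
  · rw [← continuousWithinAt_compl_self, ContinuousWithinAt, ← tendsto_pow_pn k, tendsto_map'_iff]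
    have := hu.cont.tendsto.mono_left (nhdsWithin_le_nhds (s := {0}ᶜ))
    simpa [Function.comp_def] using this
  · rw [← tendsto_pow_pn k, isLittleO_map, isLittleO_iff]
    intro ε hε
    filter_upwards [isLittleO_iff.1 hu.d hε, cd, self_mem_nhdsWithin] with z h1 h2 h3
    have z0 : z ≠ 0 := h3
    have d := ((h2.differentiableAt hn).hasFDerivAt.comp z (f := fun w : ℂ => w ^ (k + 1))
      (((hasDerivAt_pow (k + 1) z).hasFDerivAt.restrictScalars ℝ))).fderiv
    have zk : ((k + 1 : ℂ) * z ^ k) ≠ 0 := mul_ne_zero hk (pow_ne_zero _ z0)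
    refine ContinuousLinearMap.opNorm_le_bound _ (by positivity) fun v => ?_
    have e : (fderiv ℝ V (z ^ (k + 1)) - sm (((m + 1 : ℂ) * (z ^ (k + 1)) ^ m) • a)) v =
        (fderiv ℝ (fun z => V (z ^ (k + 1))) z - sm (((l + 1 : ℂ) * z ^ l) • a))
          (v / ((k + 1 : ℂ) * z ^ k)) := by
      have hm' : (l + 1 : ℂ) = (k + 1) * (m + 1) := by exact_mod_cast hm
      rw [show (fun z => V (z ^ (k + 1))) = V ∘ fun w : ℂ => w ^ (k + 1) from rfl, d]
      simp only [sub_apply, ContinuousLinearMap.comp_apply, sm_apply, smul_smul,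
        ContinuousLinearMap.coe_restrictScalars', ContinuousLinearMap.toSpanSingleton_apply,
        smul_eq_mul, Nat.add_sub_cancel]
      push_cast
      rw [div_mul_cancel₀ _ zk, hm', hl]
      congr 2
      field_simp
      ring
    have h4 : (1 : ℝ) ≤ ‖(k + 1 : ℂ)‖ := by
      rw [show (k + 1 : ℂ) = ((k + 1 : ℕ) : ℂ) by simp, Complex.norm_natCast]
      exact_mod_cast Nat.le_add_left 1 k
    simp only [Function.comp]
    rw [e]
    refine (ContinuousLinearMap.le_opNorm _ _).trans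
      ((mul_le_mul_of_nonneg_right h1 (norm_nonneg _)).trans ?_)
    have zp : 0 < ‖z‖ ^ k := pow_pos (norm_pos_iff.2 z0) _
    rw [norm_div, norm_mul, hl, pow_add, pow_mul, norm_mul, norm_pow z k, mul_assoc, mul_assoc,
      mul_assoc]
    gcongr
    rw [mul_div_assoc', div_le_iff₀ (by positivity)]
    nlinarith [mul_nonneg zp.le (norm_nonneg v)]

theorem Ord.congr {u v : ℂ → E} {l : ℕ} {a : E} (hu : Ord n u l a) (h : v =ᶠ[𝓝 0] u) :
    Ord n v l a := by
  have h' := h.eventuallyEq_nhds.filter_mono (nhdsWithin_le_nhds (s := {0}ᶜ))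
  refine ⟨h.self_of_nhds.trans hu.zero, hu.cont.congr h.symm, ?_, hu.d.congr' ?_ EventuallyEq.rfl⟩
  · filter_upwards [hu.cd, h'] with z h1 h2 using h1.congr_of_eventuallyEq h2
  · filter_upwards [h'] with z h2
    rw [h2.fderiv_eq]

/-- Division of leading terms: `u = V ∘ f`. -/
theorem Ord.div {u V : ℂ → E} {f : ℂ → ℂ} {l : ℕ} {a : E} (hu : Ord n u l a) (hn : n ≠ 0)
    (ha : a ≠ 0) (hf : AnalyticAt ℂ f 0) (h0 : f 0 = 0) (h1 : ¬f =ᶠ[𝓝 0] 0)
    (h : ∀ᶠ z in 𝓝 (0 : ℂ), V (f z) = u z) : ∃ m b, b ≠ 0 ∧ Ord n V m b := by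
  obtain ⟨e, c, hc, ho⟩ := ord_of_analytic (n := n) hf h0 h1
  obtain ⟨d, hd⟩ := IsAlgClosed.exists_pow_nat_eq c (Nat.succ_pos e)
  have d0 : d ≠ 0 := by rintro rfl; exact hc (by simpa using hd.symm)
  obtain ⟨ξ, hξ, h2⟩ := ho.root hn hc hd
  obtain ⟨σ, hσ, -, h3⟩ := hξ.inverse hn d0
  have t : Tendsto σ (𝓝 0) (𝓝 0) := by simpa [hσ.zero] using hσ.cont.tendsto
  have h4 := (hu.comp hσ hn (inv_ne_zero d0)).congr (v := fun z => V (z ^ (e + 1))) (by
    filter_upwards [t.eventually h, t.eventually h2, h3] with z a b c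
    rw [← a, ← b, c])
  have b0 := smul_ne_zero (pow_ne_zero (l + 1) (inv_ne_zero d0)) ha
  obtain ⟨m, hm⟩ := h4.div_pow hn b0
  exact ⟨m, _, b0, hm⟩

/-- A germ with a leading term is continuously differentiable at the origin. -/
theorem Ord.contDiffAt_one {u : ℂ → E} {l : ℕ} {a : E} (hu : Ord n u l a) (hn : n ≠ 0) :
    ContDiffAt ℝ 1 u 0 := by
  set A : ℂ → ℂ →L[ℝ] E := fun z => sm (((l + 1 : ℂ) * z ^ l) • a) with hA
  have h0 : HasFDerivAt u (A 0) 0 := by
    have o : (fun z : ℂ => z ^ (l + 1)) =O[𝓝 0] fun z : ℂ => z := by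
      refine IsBigO.of_bound 1 ?_
      filter_upwards [Metric.ball_mem_nhds (0 : ℂ) one_pos] with z hz
      rw [pow_succ, norm_mul, norm_pow]
      exact mul_le_mul_of_nonneg_right
        (pow_le_one₀ (norm_nonneg _) (le_of_lt (by simpa using hz))) (norm_nonneg _)
    have r : HasFDerivAt (fun z => u z - z ^ (l + 1) • a) (0 : ℂ →L[ℝ] E) 0 := by
      rw [hasFDerivAt_iff_isLittleO]
      simpa [hu.zero] using (hu.val hn).trans_isBigO o
    have := r.fun_add (hasFDerivAt_pow_smul l a 0)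
    simpa using this
  have cA : Continuous A := by
    have : A = fun z => ((ContinuousLinearMap.restrictScalarsL ℂ ℂ E ℝ ℝ).comp
      ((ContinuousLinearMap.smulRightL ℂ ℂ E (1 : ℂ →L[ℂ] ℂ)).restrictScalars ℝ))
        (((l + 1 : ℂ) * z ^ l) • a) := by
      funext z; ext1 v; simp [hA, smul_comm v]
    rw [this]; fun_prop
  have t : Tendsto (fderiv ℝ u) (𝓝[≠] 0) (𝓝 (A 0)) := by
    have o : (fun z : ℂ => z ^ l) =O[𝓝[≠] 0] fun _ => (1 : ℝ) :=
      ((continuous_pow l).tendsto (0 : ℂ)).isBigO_one ℝ |>.mono nhdsWithin_le_nhds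
    have := ((isLittleO_one_iff ℝ).1 (hu.d.trans_isBigO o)).add
      ((cA.tendsto 0).mono_left nhdsWithin_le_nhds)
    simpa [hA] using this
  have h1 : (1 : WithTop ℕ∞) ≤ n := ENat.one_le_iff_ne_zero_withTop.2 hn
  have h2 := hu.cd.mono fun z hz => hz.of_le h1
  rw [eventually_nhdsWithin_iff] at h2
  obtain ⟨s, hs, so, s0⟩ := eventually_nhds_iff.1 h2
  refine contDiffAt_one_iff.2 ⟨fderiv ℝ u, s, so.mem_nhds s0, fun z hz => ?_, fun z hz => ?_⟩
  · refine ContinuousAt.continuousWithinAt ?_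
    by_cases z0 : z = 0
    · rw [z0, ← continuousWithinAt_compl_self, ContinuousWithinAt, h0.fderiv]
      exact t
    · exact ((hs z hz z0).fderiv_right (m := 0) le_rfl).continuousAt
  · by_cases z0 : z = 0
    · rw [z0]; exact h0.differentiableAt.hasFDerivAt
    · exact ((hs z hz z0).differentiableAt one_ne_zero).hasFDerivAt

end Pool.Agent.Lib.MP_1c0d65_gt.B
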