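import Pool.Agent.Lib.MP_1c0d65_gt.B.Sph

/-! Partial fractions by the theorems of Riemann and Liouville. -/

namespace Pool.Agent.Lib.MP_1c0d65_gt.B

open Filter Topology MeasureTheory

/-- A function analytic off a finite set, bounded near that set and near infinity, is constant. -/
theorem const_of_bdd {Z : Set ℂ} (hZ : Z.Finite) {ψ : ℂ → ℂ} (h1 : ∀ z ∉ Z, AnalyticAt ℂ ψ z)
    (h3 : ∀ b ∈ Z, ∃ K : ℝ, ∀ᶠ z in 𝓝[≠] b, ‖ψ z‖ ≤ K)
    (h4 : ∃ K : ℝ, ∀ᶠ z in Bornology.cobounded ℂ, ‖ψ z‖ ≤ K) :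
    ∃ k : ℂ, ∀ z ∉ Z, ψ z = k := by
  classical
  set g : ℂ → ℂ := fun z => if z ∈ Z then limUnder (𝓝[≠] z) ψ else ψ z with hg
  have hoff : ∀ b : ℂ, ∀ᶠ z in 𝓝 b, z ≠ b → z ∉ Z := by
    intro b
    have h := (hZ.subset (Set.sdiff_subset (t := {b}))).isClosed.isOpen_compl.mem_nhds
      (x := b) (by simp)
    filter_upwards [h] with z hz hzb hzZ
    exact hz ⟨hzZ, hzb⟩
  have hd : Differentiable ℂ g := by
    intro b
    by_cases hb : b ∈ Z
    · obtain ⟨K, hK⟩ := h3 b hb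
      have h5 : {z | z ≠ b → z ∉ Z ∧ ‖ψ z‖ ≤ K} ∈ 𝓝 b := by
        filter_upwards [hoff b, eventually_nhdsWithin_iff.1 hK] with z h h' hz
        exact ⟨h hz, h' hz⟩
      have h6 := Complex.differentiableOn_update_limUnder_of_bddAbove (f := ψ) h5
        (fun z hz => (h1 z (hz.1 hz.2).1).differentiableAt.differentiableWithinAt)
        ⟨K, by rintro _ ⟨z, hz, rfl⟩; exact (hz.1 hz.2).2⟩
      refine (h6.differentiableAt h5).congr_of_eventuallyEq ?_
      filter_upwards [hoff b] with z hz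
      by_cases e : z = b
      · subst e
        simp [hg, hb]
      · simp [hg, hz e, Function.update_of_ne e]
    · refine (h1 b hb).differentiableAt.congr_of_eventuallyEq ?_
      filter_upwards [hZ.isClosed.isOpen_compl.mem_nhds hb] with z hz
      exact if_neg hz
  have hb : Bornology.IsBounded (Set.range g) := by
    obtain ⟨K, hK⟩ := h4
    have h5 : ∀ᶠ z in Bornology.cobounded ℂ, ‖g z‖ ≤ K := by
      filter_upwards [hK, hZ.isBounded] with z h h'
      have h'' : z ∉ Z := by simpa using h'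
      simpa [hg, h''] using h
    have h6 : Bornology.IsBounded {z | ‖g z‖ ≤ K}ᶜ := by
      rw [Bornology.isBounded_def, compl_compl]
      exact h5
    have h7 := (h6.isCompact_closure.image hd.continuous).isBounded
    refine (h7.union (Metric.isBounded_closedBall (x := 0) (r := K))).subset ?_
    rintro _ ⟨z, rfl⟩
    by_cases h : ‖g z‖ ≤ K
    · exact Or.inr (by simpa using h)
    · exact Or.inl ⟨z, subset_closure h, rfl⟩
  obtain ⟨k, hk⟩ := hd.exists_const_forall_eq_of_bounded hb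
  exact ⟨k, fun z hz => by simpa [hg, hz] using hk z⟩

/-- A function with simple poles on `P`, bounded near the bad set and near infinity. -/
theorem partial_fractions {Bad : Set ℂ} (hB : Bad.Finite) (P : Finset ℂ) (hP : ∀ c ∈ P, c ∉ Bad)
    {φ : ℂ → ℂ} (h1 : ∀ z, z ∉ Bad → z ∉ P → AnalyticAt ℂ φ z) (r : ℂ → ℂ)
    (h2 : ∀ c ∈ P, ∃ K : ℝ, ∀ᶠ z in 𝓝[≠] c, ‖φ z - r c / (z - c)‖ ≤ K)
    (h3 : ∀ b ∈ Bad, ∃ K : ℝ, ∀ᶠ z in 𝓝[≠] b, ‖φ z‖ ≤ K)
    (h4 : ∃ K : ℝ, ∀ᶠ z in Bornology.cobounded ℂ, ‖φ z‖ ≤ K) :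
    ∃ k : ℂ, ∀ z, z ∉ Bad → z ∉ P → φ z = k + ∑ c ∈ P, r c / (z - c) := by
  classical
  have han : ∀ (T : Finset ℂ) (z : ℂ), z ∉ T →
      AnalyticAt ℂ (fun z => ∑ c ∈ T, r c / (z - c)) z := by
    intro T z hz
    refine Finset.analyticAt_fun_sum _ fun c hc => ?_
    exact analyticAt_const.div (analyticAt_id.sub analyticAt_const)
      (sub_ne_zero.2 fun e => hz (e ▸ hc))
  have hbd : ∀ (T : Finset ℂ) (z : ℂ), z ∉ T →
      ∃ K : ℝ, ∀ᶠ w in 𝓝[≠] z, ‖∑ c ∈ T, r c / (w - c)‖ ≤ K := by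
    intro T z hz
    refine ⟨‖∑ c ∈ T, r c / (z - c)‖ + 1, eventually_nhdsWithin_of_eventually_nhds ?_⟩
    exact (han T z hz).continuousAt.norm.eventually (eventually_le_nhds (lt_add_one _))
  obtain ⟨k, hk⟩ := const_of_bdd (hB.union P.finite_toSet)
    (ψ := fun z => φ z - ∑ c ∈ P, r c / (z - c))
    (fun z hz => (h1 z (fun h => hz (Or.inl h)) fun h => hz (Or.inr h)).sub
      (han P z fun h => hz (Or.inr h)))
    (by
      intro b hb
      by_cases hbP : b ∈ P
      · obtain ⟨K, hK⟩ := h2 b hbP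
        obtain ⟨K', hK'⟩ := hbd (P.erase b) b (by simp)
        refine ⟨K + K', ?_⟩
        filter_upwards [hK, hK'] with z e e'
        rw [← Finset.add_sum_erase P _ hbP, ← sub_sub]
        exact (norm_sub_le _ _).trans (add_le_add e e')
      · obtain ⟨K, hK⟩ := h3 b (hb.resolve_right hbP)
        obtain ⟨K', hK'⟩ := hbd P b hbP
        refine ⟨K + K', ?_⟩
        filter_upwards [hK, hK'] with z e e'
        exact (norm_sub_le _ _).trans (add_le_add e e'))
    (by
      obtain ⟨K, hK⟩ := h4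
      have h5 : Tendsto (fun z : ℂ => ∑ c ∈ P, r c / (z - c)) (Bornology.cobounded ℂ)
          (𝓝 (∑ c ∈ P, (0 : ℂ))) := by
        refine tendsto_finsetSum _ fun c _ => ?_
        have h6 := (tendsto_inv₀_cobounded.comp (tendsto_sub_const_cobounded c)).const_mul (r c)
        simpa [div_eq_mul_inv] using h6
      refine ⟨K + 1, ?_⟩
      filter_upwards [hK, h5.norm.eventually (eventually_le_nhds (by simp : _ < (1 : ℝ)))]
        with z e e'
      exact (norm_sub_le _ _).trans (add_le_add e e'))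
  refine ⟨k, fun z hz hz' => ?_⟩
  have := hk z (by rintro (h | h); exacts [hz h, hz' h])
  rw [← this]
  ring

end Pool.Agent.Lib.MP_1c0d65_gt.B
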