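import Pool.Agent.Lib.MP_1c0d65_gt.B.Rat
import Pool.Agent.Lib.MP_1c0d65_gt.B.Liou

/-! A finite, locally analytic and proper equivalence relation on the plane minus a finite set is the
fibre relation of a rational map. -/

namespace Pool.Agent.Lib.MP_1c0d65_gt.B

open Filter Topology Set

/-- The partners of `s`. -/
def cls {Y : Type*} (u : ℂ → Y) (Bad : Set ℂ) (s : ℂ) : Set ℂ := {s' | s' ∉ Bad ∧ u s' = u s}

theorem cls_eq {Y : Type*} {u : ℂ → Y} {Bad : Set ℂ} {s s' : ℂ} (h : u s' = u s) :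
    cls u Bad s' = cls u Bad s := by
  unfold cls
  rw [h]

/-- Near a good point the class is given by analytic local diffeomorphisms. -/
theorem cls_loc {Y : Type*} (u : ℂ → Y) {Bad : Set ℂ} (hB : Bad.Finite)
    (fin : ∀ s ∉ Bad, {s' | s' ∉ Bad ∧ u s' = u s}.Finite)
    (loc : ∀ s ∉ Bad, ∀ s' ∉ Bad, u s' = u s →
      ∃ t : ℂ → ℂ, AnalyticAt ℂ t s ∧ t s = s' ∧ ∀ᶠ z in 𝓝 s, u (t z) = u z)
    (inj : ∀ s ∉ Bad, ∃ V ∈ 𝓝 s, InjOn u V)
    (prop : ∀ s ∉ Bad, ∀ V ∈ 𝓝ˢ {s' | s' ∉ Bad ∧ u s' = u s},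
      ∀ᶠ z in 𝓝 s, ∀ z' ∉ Bad, u z' = u z → z' ∈ V) {s : ℂ} (hs : s ∉ Bad) :
    ∃ t : ℂ → ℂ → ℂ, (∀ a ∈ cls u Bad s, AnalyticAt ℂ (t a) s ∧ t a s = a ∧ deriv (t a) s ≠ 0) ∧
      ∀ᶠ z in 𝓝 s, BijOn (fun a => t a z) (cls u Bad s) (cls u Bad z) := by
  have h0 : ∀ a ∈ cls u Bad s, ∃ t : ℂ → ℂ, AnalyticAt ℂ t s ∧ t s = a ∧
      ∀ᶠ z in 𝓝 s, u (t z) = u z := fun a ha => loc s hs a ha.1 ha.2
  choose! t t1 t2 t3 using h0
  choose! V V1 V2 using inj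
  have tt : ∀ a ∈ cls u Bad s, Tendsto (t a) (𝓝 s) (𝓝 a) := fun a ha => by
    have := (t1 a ha).continuousAt.tendsto
    rwa [t2 a ha] at this
  have hf : (cls u Bad s).Finite := fin s hs
  refine ⟨t, fun a ha => ⟨t1 a ha, t2 a ha, fun hd => ?_⟩, ?_⟩
  · obtain ⟨t', p1, p2, p3⟩ := loc a ha.1 s hs ha.2.symm
    have tt' : Tendsto t' (𝓝 a) (𝓝 s) := by
      have := p1.continuousAt.tendsto
      rwa [p2] at this
    have e : (t' ∘ t a) =ᶠ[𝓝 s] id := by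
      filter_upwards [(tt a ha).eventually p3, t3 a ha, V1 s hs,
        (tt'.comp (tt a ha)).eventually (V1 s hs)] with z e1 e2 e3 e4
      exact V2 s hs e4 e3 (e1.trans e2)
    have d1 : DifferentiableAt ℂ t' (t a s) := by
      rw [t2 a ha]
      exact p1.differentiableAt
    have d2 := e.deriv_eq
    rw [deriv_comp s d1 (t1 a ha).differentiableAt, hd] at d2
    simp at d2
  · have hV : (⋃ a ∈ cls u Bad s, V a) ∈ 𝓝ˢ (cls u Bad s) :=
      mem_nhdsSet_iff_forall.2 fun a ha =>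
        mem_of_superset (V1 a ha.1) (subset_biUnion_of_mem (u := V) ha)
    have e1 : ∀ᶠ z in 𝓝 s, ∀ a ∈ cls u Bad s, t a z ∉ Bad ∧ u (t a z) = u z ∧ t a z ∈ V a :=
      (eventually_all_finite hf).2 fun a ha =>
        ((tt a ha).eventually (hB.isClosed.isOpen_compl.mem_nhds ha.1)).and
          ((t3 a ha).and ((tt a ha).eventually (V1 a ha.1)))
    have e2 : ∀ᶠ z in 𝓝 s, ∀ a ∈ cls u Bad s, ∀ b ∈ cls u Bad s, t a z = t b z → a = b :=
      (eventually_all_finite hf).2 fun a ha => (eventually_all_finite hf).2 fun b hb => by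
        by_cases e : a = b
        · exact Eventually.of_forall fun _ _ => e
        · filter_upwards [((tt a ha).sub (tt b hb)).eventually_ne (sub_ne_zero.2 e)] with z hz hz'
          exact absurd (sub_eq_zero.2 hz') hz
    filter_upwards [e1, e2, prop s hs _ hV] with z h1 h2 h3
    refine ⟨fun a ha => ⟨(h1 a ha).1, (h1 a ha).2.1⟩, fun a ha b hb => h2 a ha b hb,
      fun w hw => ?_⟩
    obtain ⟨a, ha, hw'⟩ := mem_iUnion₂.1 (h3 w hw.1 hw.2)
    exact ⟨a, ha, V2 a ha.1 (h1 a ha).2.2 hw' ((h1 a ha).2.1.trans hw.2.symm)⟩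

/-- The reciprocal of a function with a simple zero has a simple pole. -/
theorem inv_pole {t : ℂ → ℂ} {s : ℂ} (h : AnalyticAt ℂ t s) (hd : deriv t s ≠ 0) :
    ∃ g : ℂ → ℂ, ContinuousAt g s ∧
      ∀ᶠ z in 𝓝[≠] s, (t z - t s)⁻¹ - (deriv t s)⁻¹ / (z - s) = g z := by
  obtain ⟨p, hp⟩ := h
  have h1 : AnalyticAt ℂ (dslope t s) s := ⟨_, hp.has_fpower_series_dslope_fslope⟩
  have h2 : AnalyticAt ℂ (fun z => (dslope t s z)⁻¹) s := h1.inv (by rwa [dslope_same])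
  refine ⟨dslope (fun z => (dslope t s z)⁻¹) s, continuousAt_dslope_same.2 h2.differentiableAt, ?_⟩
  filter_upwards [self_mem_nhdsWithin] with z hz
  have hz' : z ≠ s := hz
  rw [dslope_of_ne _ hz', slope_def_field, dslope_same, dslope_of_ne _ hz', slope_def_field,
    sub_div, inv_div, div_div, mul_comm, ← div_div, div_self (sub_ne_zero.2 hz'), one_div]

theorem exists_rat {Y : Type*} (u : ℂ → Y) {Bad : Set ℂ} (hB : Bad.Finite)
    (fin : ∀ s ∉ Bad, {s' | s' ∉ Bad ∧ u s' = u s}.Finite)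
    (loc : ∀ s ∉ Bad, ∀ s' ∉ Bad, u s' = u s →
      ∃ t : ℂ → ℂ, AnalyticAt ℂ t s ∧ t s = s' ∧ ∀ᶠ z in 𝓝 s, u (t z) = u z)
    (inj : ∀ s ∉ Bad, ∃ V ∈ 𝓝 s, InjOn u V)
    (prop : ∀ s ∉ Bad, ∀ V ∈ 𝓝ˢ {s' | s' ∉ Bad ∧ u s' = u s},
      ∀ᶠ z in 𝓝 s, ∀ z' ∉ Bad, u z' = u z → z' ∈ V) :
    ∃ (P : Finset ℂ) (r : ℂ → ℂ), P.Nonempty ∧ (∀ c ∈ P, c ∉ Bad ∧ r c ≠ 0) ∧
      ∀ s ∉ Bad, ∀ x : OnePoint ℂ, rat P r x = rat P r s ↔ ∃ s' ∉ Bad, x = s' ∧ u s' = u s := by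
  classical
  obtain ⟨c, hc⟩ := hB.infinite_compl.nonempty
  have hc : c ∉ Bad := hc
  have hf : ∀ s ∉ Bad, (cls u Bad s).Finite := fin
  have L := fun s (hs : s ∉ Bad) => cls_loc u hB fin loc inj prop hs
  -- the size of a class
  have card : ∀ s ∉ Bad, (cls u Bad s).ncard = (cls u Bad c).ncard := fun s hs => by
    refine (hB.countable.isConnected_compl_of_one_lt_rank (by simp)).2.constant
      (f := fun z => (cls u Bad z).ncard) (fun z hz => ?_) hs hc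
    obtain ⟨t, -, h⟩ := L z hz
    exact (continuousAt_const.congr (h.mono fun w hw => hw.ncard_eq)).continuousWithinAt
  set P : Finset ℂ := (hf c hc).toFinset with hP
  have mP : ∀ z, z ∈ P ↔ z ∈ cls u Bad c := fun z => (hf c hc).mem_toFinset
  set φ : ℂ → ℂ := fun z => ∑ᶠ a ∈ cls u Bad z, (a - c)⁻¹ with hφ
  have φl : ∀ s (hs : s ∉ Bad), ∃ t : ℂ → ℂ → ℂ,
      (∀ a ∈ cls u Bad s, AnalyticAt ℂ (t a) s ∧ t a s = a ∧ deriv (t a) s ≠ 0) ∧
      φ =ᶠ[𝓝 s] fun z => ∑ a ∈ (hf s hs).toFinset, (t a z - c)⁻¹ := fun s hs => by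
    obtain ⟨t, h1, h2⟩ := L s hs
    refine ⟨t, h1, h2.mono fun z hz => ?_⟩
    exact (finsum_mem_eq_of_bijOn (f := fun a => (t a z - c)⁻¹) (g := fun a => (a - c)⁻¹) _ hz
      fun _ _ => rfl).symm.trans (finsum_mem_eq_finite_toFinset_sum _ (hf s hs))
  have an : ∀ z, z ∉ Bad → z ∉ P → AnalyticAt ℂ φ z := fun z hz hz' => by
    obtain ⟨t, h1, h2⟩ := φl z hz
    refine AnalyticAt.congr (Finset.analyticAt_fun_sum _ fun a ha => ?_) h2.symm
    have ha' := (hf z hz).mem_toFinset.1 ha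
    refine ((h1 a ha').1.sub analyticAt_const).inv ?_
    change t a z - c ≠ 0
    rw [(h1 a ha').2.1, sub_ne_zero]
    rintro rfl
    exact hz' ((mP z).2 ⟨hz, ha'.2.symm⟩)
  have pole : ∀ s ∈ P, ∃ ρ : ℂ, ρ ≠ 0 ∧ ∃ K : ℝ, ∀ᶠ z in 𝓝[≠] s, ‖φ z - ρ / (z - s)‖ ≤ K :=
    fun s hs => by
      obtain ⟨hs1, hs2⟩ := (mP s).1 hs
      obtain ⟨t, h1, h2⟩ := φl s hs1
      have hcs : c ∈ cls u Bad s := ⟨hc, hs2.symm⟩
      obtain ⟨g, g1, g2⟩ := inv_pole (h1 c hcs).1 (h1 c hcs).2.2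
      have g3 : ContinuousAt
          (fun z => g z + ∑ a ∈ (hf s hs1).toFinset.erase c, (t a z - c)⁻¹) s := by
        refine g1.add (tendsto_finsetSum _ fun a ha => ?_)
        obtain ⟨a1, a2⟩ := Finset.mem_erase.1 ha
        have ha' := (hf s hs1).mem_toFinset.1 a2
        refine ((h1 a ha').1.continuousAt.sub continuousAt_const).inv₀ ?_
        change t a s - c ≠ 0
        rwa [(h1 a ha').2.1, sub_ne_zero]
      refine ⟨_, inv_ne_zero (h1 c hcs).2.2,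
        ‖g s + ∑ a ∈ (hf s hs1).toFinset.erase c, (t a s - c)⁻¹‖ + 1, ?_⟩
      filter_upwards [g2, eventually_nhdsWithin_of_eventually_nhds h2,
        eventually_nhdsWithin_of_eventually_nhds
          (g3.norm.eventually (eventually_le_nhds (lt_add_one _)))] with z e1 e2 e3
      rw [e2, ← Finset.add_sum_erase _ _ ((hf s hs1).mem_toFinset.2 hcs), add_sub_right_comm]
      rw [(h1 c hcs).2.1] at e1
      rwa [e1]
  choose! r r1 r2 using pole
  have bd : ∀ l : Filter ℂ, Disjoint (𝓝ˢ (cls u Bad c)) l → (∀ᶠ z in l, z ∉ Bad) →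
      ∃ K : ℝ, ∀ᶠ z in l, ‖φ z‖ ≤ K := fun l h1 h2 => by
    obtain ⟨V, hV, W, hW, hVW⟩ := Filter.disjoint_iff.1 h1
    obtain ⟨ε, ε0, hε⟩ := Metric.eventually_nhds_iff.1 (prop c hc V hV)
    refine ⟨(cls u Bad c).ncard * ε⁻¹, ?_⟩
    filter_upwards [hW, h2] with z z1 z2
    have e : φ z = ∑ a ∈ (hf z z2).toFinset, (a - c)⁻¹ :=
      finsum_mem_eq_finite_toFinset_sum _ (hf z z2)
    rw [e, ← card z z2, ncard_eq_toFinset_card _ (hf z z2), ← nsmul_eq_mul]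
    refine (norm_sum_le _ _).trans (Finset.sum_le_card_nsmul _ _ _ fun a ha => ?_)
    have ha' := (hf z z2).mem_toFinset.1 ha
    rw [norm_inv, ← dist_eq_norm]
    exact inv_anti₀ ε0 (not_lt.1 fun h => disjoint_left.1 hVW (hε h z z2 ha'.2.symm) z1)
  obtain ⟨k, hk⟩ := partial_fractions hB P (fun a ha => ((mP a).1 ha).1) an r r2
    (fun b hb => bd _ ((disjoint_nhdsSet_nhds.2 (by
        rw [(hf c hc).isClosed.closure_eq]
        exact fun h => h.1 hb)).mono_right nhdsWithin_le_nhds) (by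
      filter_upwards [eventually_nhdsWithin_of_eventually_nhds
        ((hB.subset (sdiff_subset (t := {b}))).isClosed.isOpen_compl.mem_nhds
          (x := b) (by simp)), self_mem_nhdsWithin] with z z1 z2 z3
      exact z1 ⟨z3, z2⟩))
    (bd _ (Metric.disjoint_nhdsSet_cobounded (hf c hc).isCompact) (by
      filter_upwards [hB.isBounded] with z hz
      simpa using hz))
  have hne : P.Nonempty := ⟨c, (mP c).2 ⟨hc, rfl⟩⟩
  refine ⟨P, r, hne, fun a ha => ⟨((mP a).1 ha).1, r1 a ha⟩, fun s hs x => ?_⟩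
  have sub : ((↑) : ℂ → OnePoint ℂ) '' cls u Bad s ⊆ rat P r ⁻¹' {rat P r s} := by
    rintro _ ⟨a, ha, rfl⟩
    change rat P r a = rat P r s
    by_cases h : s ∈ P
    · rw [rat_of_mem h, rat_of_mem ((mP a).2 ⟨ha.1, ha.2.trans ((mP s).1 h).2⟩)]
    · have h' : a ∉ P := fun e => h ((mP s).2 ⟨hs, ha.2.symm.trans ((mP a).1 e).2⟩)
      have e : φ a = φ s := by simp only [hφ, cls_eq ha.2]
      rw [hk a ha.1 h', hk s hs h] at e
      rw [rat_of_notMem h, rat_of_notMem h', add_left_cancel e]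
  obtain ⟨f1, f2⟩ := rat_fibre hne r1 (rat P r s)
  have eq := eq_of_subset_of_ncard_le sub (f2.trans (by
    rw [OnePoint.coe_injective.injOn.ncard_image, card s hs,
      ncard_eq_toFinset_card _ (hf c hc)])) f1
  constructor
  · intro h
    obtain ⟨a, ha, rfl⟩ := eq.ge (show x ∈ rat P r ⁻¹' {rat P r s} from h)
    exact ⟨a, ha.1, rfl, ha.2⟩
  · rintro ⟨a, a1, rfl, a2⟩
    exact sub ⟨a, ⟨a1, a2⟩, rfl⟩

end Pool.Agent.Lib.MP_1c0d65_gt.B
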