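import Pool.Agent.Lib.MP_1c0d65_gt.B.GermL
import Pool.Agent.Lib.MP_1c0d65_gt.B.ChtR
import Pool.Agent.Lib.MP_1c0d65_gt.B.Div

/-! Division of a germ by a holomorphic function. -/

set_option autoImplicit false
set_option linter.unusedSectionVars false

open scoped Manifold ContDiff Topology
open Set Filter Metric Pool.Agent.Lib.MP_1c0d65_gt.B

noncomputable section

namespace Pool.Agent.Lib.MP_1c0d65_gt.PW

variable {X : Type} [TopologicalSpace X] [ChartedSpace E X] [IsManifold 𝓘(ℝ, E) ∞ X]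
  [T2Space X] [CompactSpace X] [MeasurableSpace X] [BorelSpace X] {c : Ctx X} {O : Orb c}
  {g g' : ℂ → X} {z z' : ℂ} {p : X}

theorem gb_inv {f : ℂ → ℂ} {s : ℂ} (hf : AnalyticAt ℂ f s) (hd : deriv f s ≠ 0) :
    ∃ σ : ℂ → ℂ, AnalyticAt ℂ σ (f s) ∧ σ (f s) = s ∧ ∀ᶠ w in 𝓝 (f s), f (σ w) = w :=
  ⟨_, hf.analyticAt_localInverse hd,
    (hf.hasStrictDerivAt.hasStrictFDerivAt_equiv hd).localInverse_apply_image,
    (hf.hasStrictDerivAt.hasStrictFDerivAt_equiv hd).eventually_right_inverse⟩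

theorem gb_deriv {f : ℂ → ℂ} (hf : AnalyticAt ℂ f 0) (h0 : f 0 = 0) (h1 : ¬f =ᶠ[𝓝 0] 0) :
    ∀ᶠ s in 𝓝[≠] (0 : ℂ), deriv f s ≠ 0 := by
  obtain ⟨e, a, ha, ho⟩ := ord_of_analytic (n := 1) hf h0 h1
  filter_upwards [ho.lower ha, self_mem_nhdsWithin,
    mem_nhdsWithin_of_mem_nhds hf.eventually_analyticAt] with s h2 h3 h4 h5
  have h6 := h2 1
  rw [brk_fderiv h4.differentiableAt.hasDerivAt, h5, zero_mul, norm_zero] at h6
  have h7 : 0 < ‖a‖ := norm_pos_iff.2 ha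
  have h8 : 0 < ‖s‖ := norm_pos_iff.2 h3
  exact absurd h6 (not_le.2 (mul_pos (by positivity) (by simp)))

theorem HolG.div {V : ℂ → X} {f : ℂ → ℂ} (h : HolG O.J g 0) (hp : g 0 ∈ O.W)
    (nc : ¬∀ᶠ s in 𝓝 (0 : ℂ), g s = g 0) (hf : AnalyticAt ℂ f 0) (h0 : f 0 = 0)
    (h1 : ¬f =ᶠ[𝓝 0] 0) (hV : ∀ᶠ s in 𝓝 (0 : ℂ), V (f s) = g s) : HolG O.J V 0 := by
  obtain ⟨K⟩ := O.exists_cht hp
  obtain ⟨m1, m2⟩ := map_nhds_of_analytic hf h0 h1
  have V0 : V 0 = g 0 := by simpa [h0] using hV.self_of_nhds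
  have hc : ContinuousAt V 0 := by
    rw [ContinuousAt, V0, Tendsto]
    conv_lhs => rw [← m1, map_map]
    exact (h.cont.tendsto.congr' (hV.mono fun s hs => hs.symm) : Tendsto (V ∘ f) _ _)
  obtain ⟨l, a, ha, ho⟩ := (order (sim_holds E) K.acs (n := ∞) (by norm_cast)
    ((K.holG_iff K.mem h.cont).1 h) K.zero).resolve_left (K.gb_ne h.cont rfl nc)
  obtain ⟨m, b, -, hb⟩ := ho.div (V := K.ψ ∘ V) (by simp) ha hf h0 h1
    (hV.mono fun s hs => congrArg K.ψ hs)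
  refine K.holG_of_one V0 hc (hb.contDiffAt_one (by simp)) ?_
  rw [← m2, eventually_map]
  filter_upwards [gb_deriv hf h0 h1, mem_nhdsWithin_of_mem_nhds (hf.eventually_analyticAt.and
    (h.ev.and ((h.ev_W hp).eventually_nhds.and hV.eventually_nhds)))] with s d ⟨a1, a2, a3, a4⟩
  obtain ⟨σ, s1, s2, s3⟩ := gb_inv a1 d
  refine (HolG.comp (t := σ) (s2.symm ▸ a2) (s2.symm ▸ a3) s1).congr ?_
  have t : Tendsto σ (𝓝 (f s)) (𝓝 s) := by simpa only [s2] using s1.continuousAt.tendsto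
  filter_upwards [s3, t.eventually a4] with w w1 w2
  rw [Function.comp_apply, ← w2, w1]

end Pool.Agent.Lib.MP_1c0d65_gt.PW
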