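import Pool.Agent.Lib.MP_1c0d65_gt.B.Diff
import Pool.Agent.Lib.MP_1c0d65_gt.B.Div
import Pool.Agent.Lib.MP_1c0d65_gt.B.Coord
import Pool.Agent.Lib.MP_1c0d65_gt.A.Sim

/-! Normal form of a branch, differences of branches, and the local dichotomy. -/

namespace Pool.Agent.Lib.MP_1c0d65_gt.B

open Filter Topology Asymptotics Complex ContinuousLinearMap

set_option linter.unusedSectionVars false

theorem sim_holds (E : Type*) [NormedAddCommGroup E] [NormedSpace ℂ E] [CompleteSpace E] :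
    Sim E := fun _ _ h1 h2 => A.sim h1 h2

variable {n : WithTop ℕ∞}

theorem Ord.map_nhds {g : ℂ → ℂ} {l : ℕ} {a : ℂ} (h : Ord n g l a) (hn : n ≠ 0) (ha : a ≠ 0) :
    ∀ᶠ z in 𝓝[≠] (0 : ℂ), map g (𝓝 z) = 𝓝 (g z) := by
  filter_upwards [h.lower ha, h.cd, self_mem_nhdsWithin] with z h1 h2 z0
  have c0 : 0 < ‖a‖ / 2 * ‖z‖ ^ l :=
    mul_pos (half_pos (norm_pos_iff.2 ha)) (pow_pos (norm_pos_iff.2 z0) l)
  obtain ⟨e, he⟩ := equiv_of_lower c0 h1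
  have := h2.hasStrictFDerivAt hn
  rw [← he] at this
  exact this.map_nhds_eq_of_equiv

section
variable {E : Type*} [NormedAddCommGroup E] [NormedSpace ℝ E] [NormedSpace ℂ E]
  [IsScalarTower ℝ ℂ E] {W : ℂ → E}

theorem Dich.congr {W' : ℂ → E} (h : Dich W) (e : W =ᶠ[𝓝[≠] 0] W') : Dich W' := by
  rcases h with h | ⟨l, b, b0, h⟩
  · exact Or.inl ((h.and e).mono fun z hz => hz.2 ▸ hz.1)
  · exact Or.inr ⟨l, b, b0, h.congr' (e.mono fun z hz => by simp only [hz])⟩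

theorem lead_comp {θ : ℂ → ℂ} {c : ℂ} {l m : ℕ} {b : E} (hθ : Ord n θ m c) (hn : n ≠ 0)
    (hc : c ≠ 0) (h : Tendsto (fun z : ℂ => (z ^ l)⁻¹ • W z) (𝓝[≠] 0) (𝓝 b)) :
    Tendsto (fun z : ℂ => (z ^ ((m + 1) * l))⁻¹ • W (θ z)) (𝓝[≠] 0) (𝓝 (c ^ l • b)) := by
  have ht := hθ.tendsto_pn hn hc
  refine (((hθ.tendsto hn).pow l).smul (h.comp ht)).congr' ?_
  filter_upwards [ht.eventually self_mem_nhdsWithin] with z hz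
  have : θ z ≠ 0 := hz
  simp only [Function.comp, smul_smul, smul_eq_mul, mul_pow, inv_pow, ← pow_mul]
  rw [mul_assoc, mul_inv_cancel₀ (pow_ne_zero l this), mul_one]

theorem Dich.comp {θ : ℂ → ℂ} {c : ℂ} {m : ℕ} (h : Dich W) (hθ : Ord n θ m c) (hn : n ≠ 0)
    (hc : c ≠ 0) : Dich fun z => W (θ z) := by
  rcases h with h | ⟨l, b, b0, h⟩
  · exact Or.inl ((hθ.tendsto_pn hn hc).eventually h)
  · exact Or.inr ⟨_, _, smul_ne_zero (pow_ne_zero l hc) b0, lead_comp hθ hn hc h⟩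

theorem lead_ne {l : ℕ} {b : E} (b0 : b ≠ 0)
    (h : Tendsto (fun z : ℂ => (z ^ l)⁻¹ • W z) (𝓝[≠] 0) (𝓝 b)) : ∀ᶠ z in 𝓝[≠] (0 : ℂ), W z ≠ 0 :=
  (h.eventually_ne b0).mono fun z hz h0 => hz (by simp [h0])

theorem Dich.ev (h : Dich W) : ∀ᶠ z in 𝓝[≠] (0 : ℂ), W z = 0 → ∀ᶠ y in 𝓝 z, W y = 0 := by
  rcases h with h | ⟨l, b, b0, h⟩
  · filter_upwards [eventually_eventually_nhdsWithin.2 h, self_mem_nhdsWithin] with z hz z0 _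
    rwa [nhdsWithin_eq_nhds.2 (isOpen_compl_singleton.mem_nhds z0)] at hz
  · exact (lead_ne b0 h).mono fun z hz h0 => absurd h0 hz

/-- The exponent of the leading term is larger than any exponent of decay. -/
theorem lead_lt {l N : ℕ} {b : E} (b0 : b ≠ 0)
    (h : Tendsto (fun z : ℂ => (z ^ l)⁻¹ • W z) (𝓝[≠] 0) (𝓝 b))
    (h' : W =o[𝓝[≠] 0] fun z : ℂ => z ^ N) : N < l := by
  by_contra hl
  have h1 : (fun z : ℂ => z ^ N) =O[𝓝[≠] 0] fun z : ℂ => z ^ l := by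
    obtain ⟨k, rfl⟩ := Nat.exists_eq_add_of_le (not_lt.1 hl)
    have : (fun z : ℂ => z ^ k) =O[𝓝[≠] 0] fun _ => (1 : ℂ) :=
      (((continuous_pow k).tendsto 0).mono_left nhdsWithin_le_nhds).isBigO_one ℂ
    simpa [pow_add] using (isBigO_refl (fun z : ℂ => z ^ l) _).mul this
  have h2 := tendsto_of_littleO (f := W) (k := l) (b := 0) (by simpa using h'.trans_isBigO h1)
  exact b0 (tendsto_nhds_unique h h2)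

theorem lead_le {l N : ℕ} {b : E} (b0 : b ≠ 0)
    (h : Tendsto (fun z : ℂ => (z ^ l)⁻¹ • W z) (𝓝[≠] 0) (𝓝 b))
    (h' : W =O[𝓝[≠] 0] fun z : ℂ => z ^ N) : N ≤ l := by
  rcases N with _ | N
  · exact Nat.zero_le _
  refine lead_lt b0 h (h'.trans_isLittleO ?_)
  exact (isLittleO_pow_pow (𝕜 := ℂ) (Nat.lt_succ_self N)).mono nhdsWithin_le_nhds

theorem CR.comp {J : E → E →L[ℝ] E} {u : ℂ → E} {t : ℂ → ℂ} {z : ℂ} (h : CR J u (t z))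
    (hJ : ∀ v, J (u (t z)) (J (u (t z)) v) = -v) (hu : DifferentiableAt ℝ u (t z))
    (ht : DifferentiableAt ℂ t z) : CR J (fun s => u (t s)) z := by
  have d := (hu.hasFDerivAt.comp z (ht.hasDerivAt.hasFDerivAt.restrictScalars ℝ)).fderiv
  change fderiv ℝ (u ∘ t) z I = J (u (t z)) (fderiv ℝ (u ∘ t) z 1)
  rw [d, comp_apply, comp_apply, h.mul_I hJ]
  simp

/-- Conjugation by a complex linear map. -/
noncomputable def conj (A : E ≃L[ℂ] E) (J : E → E →L[ℝ] E) (p : E) : E →L[ℝ] E :=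
  ((A : E →L[ℂ] E).restrictScalars ℝ).comp
    ((J (A.symm p)).comp ((A.symm : E →L[ℂ] E).restrictScalars ℝ))

theorem Acs.conj {J : E → E →L[ℝ] E} (h : Acs J) (A : E ≃L[ℂ] E) : Acs (conj A J) := by
  have h0 : A.symm 0 = 0 := map_zero _
  refine ⟨?_, ?_, ?_⟩
  · have h1 : ContDiffAt ℝ 1 (fun p => J (A.symm p)) 0 :=
      ContDiffAt.comp (g := J) 0 (h0.symm ▸ h.cd)
        ((A.symm : E →L[ℂ] E).restrictScalars ℝ).contDiff.contDiffAt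
    exact contDiffAt_const.clm_comp (h1.clm_comp contDiffAt_const)
  · ext1 v; simp [B.conj, h.zero]
  · have : Tendsto A.symm (𝓝 0) (𝓝 0) := by simpa using A.symm.continuous.tendsto 0
    filter_upwards [this.eventually h.sq] with p hp v
    simp [B.conj, hp]

theorem CR.conj {J : E → E →L[ℝ] E} {u : ℂ → E} {z : ℂ} (h : CR J u z) (A : E ≃L[ℂ] E)
    (hu : DifferentiableAt ℝ u z) : CR (conj A J) (fun s => A (u s)) z := by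
  have d := (((A : E →L[ℂ] E).restrictScalars ℝ).hasFDerivAt.comp z hu.hasFDerivAt).fderiv
  change fderiv ℝ (((A : E →L[ℂ] E).restrictScalars ℝ) ∘ u) z I = B.conj A J (A (u z))
    (fderiv ℝ (((A : E →L[ℂ] E).restrictScalars ℝ) ∘ u) z 1)
  rw [d, comp_apply, comp_apply, h]
  simp [B.conj]

end

/-- The shear. -/
noncomputable def shear (c : ℂ) : (ℂ × ℂ) ≃L[ℂ] ℂ × ℂ :=
  (ContinuousLinearEquiv.prodComm ℂ ℂ ℂ).trans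
    (((ContinuousLinearEquiv.refl ℂ ℂ).skewProd (ContinuousLinearEquiv.refl ℂ ℂ)
      (c • ContinuousLinearMap.id ℂ ℂ)).trans (ContinuousLinearEquiv.prodComm ℂ ℂ ℂ))

@[simp] theorem shear_apply (c : ℂ) (v : ℂ × ℂ) : shear c v = (v.1 + c * v.2, v.2) := by
  simp [shear]

/-- A parameter `ξ` with inverse `σ` in which the first coordinate is a power. -/
structure Nf (n : WithTop ℕ∞) (u : ℂ → ℂ × ℂ) (l : ℕ) (σ ξ : ℂ → ℂ) (c : ℂ) : Prop where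
  c0 : c ≠ 0
  oξ : Ord n ξ 0 c
  oσ : Ord n σ 0 c⁻¹
  σξ : ∀ᶠ z in 𝓝 (0 : ℂ), σ (ξ z) = z
  ξσ : ∀ᶠ τ in 𝓝 (0 : ℂ), ξ (σ τ) = τ
  fst : ∀ᶠ z in 𝓝 (0 : ℂ), ξ z ^ (l + 1) = (u z).1

variable {J : ℂ × ℂ → ℂ × ℂ →L[ℝ] ℂ × ℂ} {u u₁ u₂ : ℂ → ℂ × ℂ} {l l₁ l₂ : ℕ} {a a₁ a₂ : ℂ × ℂ}
  {σ ξ σ₁ ξ₁ σ₂ ξ₂ : ℂ → ℂ} {c c₁ c₂ : ℂ}

theorem exists_nf (ho : Ord n u l a) (hn : n ≠ 0) (ha : a.1 ≠ 0) :
    ∃ σ ξ c, c ^ (l + 1) = a.1 ∧ Nf n u l σ ξ c := by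
  obtain ⟨c, hc⟩ := IsAlgClosed.exists_pow_nat_eq a.1 (Nat.succ_pos l)
  have c0 : c ≠ 0 := by rintro rfl; exact ha (by simpa using hc.symm)
  obtain ⟨ξ, h1, h2⟩ := (ord_fst ho hn).root hn ha hc
  obtain ⟨σ, h3, h4, h5⟩ := h1.inverse hn c0
  exact ⟨σ, ξ, c, hc, c0, h1, h3, h4, h5, h2⟩

theorem Ord.tendsto_zero {E : Type*} [NormedAddCommGroup E] [NormedSpace ℝ E] [NormedSpace ℂ E]
    [IsScalarTower ℝ ℂ E] {u : ℂ → E} {a : E} (h : Ord n u l a) : Tendsto u (𝓝 0) (𝓝 0) := by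
  simpa [h.zero] using h.cont.tendsto

theorem Nf.pow (h : Nf n u l σ ξ c) : ∀ᶠ τ in 𝓝 (0 : ℂ), (u (σ τ)).1 = τ ^ (l + 1) := by
  filter_upwards [h.oσ.tendsto_zero.eventually h.fst, h.ξσ] with τ h1 h2
  rw [← h1, h2]

/-- The branch in the new parameter. -/
theorem Nf.ord (h : Nf n u l σ ξ c) (ho : Ord n u l a) (hn : n ≠ 0) :
    Ord n (fun τ => u (σ τ)) l (c⁻¹ ^ (l + 1) • a) := by
  simpa using ho.comp h.oσ hn (inv_ne_zero h.c0)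

theorem Nf.snd (h : Nf n u l σ ξ c) (ho : Ord n u l a) (hn : n ≠ 0) (hc : c ^ (l + 1) = a.1) :
    Ord n (fun τ => (u (σ τ)).2) l (a.2 / a.1) := by
  have := ord_snd (h.ord ho hn) hn
  rwa [Prod.smul_snd, inv_pow, hc, smul_eq_mul, ← div_eq_inv_mul] at this

theorem Ord.pow {g : ℂ → ℂ} {c : ℂ} (h : Ord n g 0 c) (hn : n ≠ 0) (hc : c ≠ 0) (m : ℕ) (ζ : ℂ) :
    Ord n (fun z => ζ * g z ^ (m + 1)) m (c ^ (m + 1) * ζ) := by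
  simpa [mul_comm] using (ord_pow n m ζ).comp h hn hc

/-- The two branches over a common cover, in the holomorphic parameter of the first one. -/
theorem dich_aux (hJ : Acs J) (h₁ : ∀ᶠ z in 𝓝 (0 : ℂ), ContDiffAt ℝ 2 u₁ z ∧ CR J u₁ z)
    (o₁ : Ord 2 u₁ l₁ a₁) (f₁ : Nf 2 u₁ l₁ σ₁ ξ₁ c₁)
    (h₂ : ∀ᶠ z in 𝓝 (0 : ℂ), ContDiffAt ℝ 2 u₂ z ∧ CR J u₂ z)
    (o₂ : Ord 2 u₂ l₂ a₂) (ha₂ : a₂.1 ≠ 0) (f₂ : Nf 2 u₂ l₂ σ₂ ξ₂ c₂) {m₁ m₂ : ℕ}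
    (hm : (m₁ + 1) * (l₁ + 1) = (m₂ + 1) * (l₂ + 1)) :
    ∃ (ρ : ℂ → ℂ) (d : ℂ), d ≠ 0 ∧ Ord 2 ρ 0 d ∧
      (∀ᶠ z in 𝓝 (0 : ℂ), ρ z ^ (m₁ + 1) = ξ₁ (z ^ (m₁ + 1))) ∧ ∀ ζ : ℂ, ζ ^ (l₂ + 1) = 1 →
        (∃ e, e ≠ 0 ∧ Ord 2 (fun z => σ₂ (ζ * ρ z ^ (m₂ + 1))) m₂ e) ∧
        (∀ᶠ z in 𝓝 (0 : ℂ), (u₁ (z ^ (m₁ + 1))).1 = (u₂ (σ₂ (ζ * ρ z ^ (m₂ + 1)))).1) ∧
        Dich fun z => (u₁ (z ^ (m₁ + 1))).2 - (u₂ (σ₂ (ζ * ρ z ^ (m₂ + 1)))).2 := by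
  have op : Ord 2 (fun z : ℂ => z ^ (m₁ + 1)) m₁ 1 := by simpa using ord_pow 2 m₁ 1
  have og : Ord 2 (fun z : ℂ => ξ₁ (z ^ (m₁ + 1))) m₁ c₁ := by
    simpa using f₁.oξ.comp op two_ne_zero one_ne_zero
  obtain ⟨d, hd⟩ := IsAlgClosed.exists_pow_nat_eq c₁ (Nat.succ_pos m₁)
  have d0 : d ≠ 0 := by rintro rfl; exact f₁.c0 (by simpa using hd.symm)
  obtain ⟨ρ, oρ, hρ⟩ := og.root two_ne_zero f₁.c0 hd
  refine ⟨ρ, d, d0, oρ, hρ, fun ζ hζ => ?_⟩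
  have ζ0 : ζ ≠ 0 := by rintro rfl; simp at hζ
  have o3 := oρ.pow two_ne_zero d0 m₂ ζ
  have e3 : d ^ (m₂ + 1) * ζ ≠ 0 := mul_ne_zero (pow_ne_zero _ d0) ζ0
  have o4 : Ord 2 (fun z => σ₂ (ζ * ρ z ^ (m₂ + 1))) m₂ (d ^ (m₂ + 1) * ζ * c₂⁻¹) := by
    simpa using f₂.oσ.comp o3 two_ne_zero e3
  have e4 := mul_ne_zero e3 (inv_ne_zero f₂.c0)
  have hx : ∀ᶠ z in 𝓝 (0 : ℂ), (u₁ (z ^ (m₁ + 1))).1 = (u₂ (σ₂ (ζ * ρ z ^ (m₂ + 1)))).1 := by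
    filter_upwards [hρ, op.tendsto_zero.eventually f₁.fst, o3.tendsto_zero.eventually f₂.pow]
      with z h1 h2 h3
    rw [h3, ← h2, ← h1, mul_pow, hζ, one_mul, ← pow_mul, ← pow_mul, hm]
  refine ⟨⟨_, e4, o4⟩, hx, ?_⟩
  refine diff_dich (sim_holds ℂ) hJ (u₁ := fun z => u₁ (z ^ (m₁ + 1)))
    ((o₁.comp op two_ne_zero one_ne_zero).mono (by norm_num)) ?_ h₂ o₂ ha₂
    (o4.mono (by norm_num)) e4 (hx.filter_mono nhdsWithin_le_nhds)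
  refine Eventually.filter_mono nhdsWithin_le_nhds ?_
  filter_upwards [op.tendsto_zero.eventually h₁,
    op.tendsto_zero.eventually (o₁.tendsto_zero.eventually hJ.sq)] with z h1 h2
  exact CR.comp (t := fun z => z ^ (m₁ + 1)) h1.2 h2 (h1.1.differentiableAt two_ne_zero)
    (by fun_prop)

/-- The difference of two branches over a common cover vanishes or has a leading term. -/
theorem dich (hJ : Acs J) (h₁ : ∀ᶠ z in 𝓝 (0 : ℂ), ContDiffAt ℝ 2 u₁ z ∧ CR J u₁ z)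
    (o₁ : Ord 2 u₁ l₁ a₁) (f₁ : Nf 2 u₁ l₁ σ₁ ξ₁ c₁)
    (h₂ : ∀ᶠ z in 𝓝 (0 : ℂ), ContDiffAt ℝ 2 u₂ z ∧ CR J u₂ z)
    (o₂ : Ord 2 u₂ l₂ a₂) (ha₂ : a₂.1 ≠ 0) (f₂ : Nf 2 u₂ l₂ σ₂ ξ₂ c₂) {m₁ m₂ : ℕ}
    (hm : (m₁ + 1) * (l₁ + 1) = (m₂ + 1) * (l₂ + 1)) {ζ : ℂ} (hζ : ζ ^ (l₂ + 1) = 1) :
    Dich fun τ => (u₁ (σ₁ (τ ^ (m₁ + 1)))).2 - (u₂ (σ₂ (ζ * τ ^ (m₂ + 1)))).2 := by
  obtain ⟨ρ, d, d0, oρ, hρ, h⟩ := dich_aux hJ h₁ o₁ f₁ h₂ o₂ ha₂ f₂ hm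
  obtain ⟨θ, oθ, -, hθ⟩ := oρ.inverse two_ne_zero d0
  refine ((h ζ hζ).2.2.comp oθ two_ne_zero (inv_ne_zero d0)).congr ?_
  refine Eventually.filter_mono nhdsWithin_le_nhds ?_
  have tp : Tendsto (fun τ => θ τ ^ (m₁ + 1)) (𝓝 0) (𝓝 0) := by
    simpa using oθ.tendsto_zero.pow (m₁ + 1)
  filter_upwards [hθ, oθ.tendsto_zero.eventually hρ, tp.eventually f₁.σξ] with τ h1 h2 h3
  rw [h1] at h2
  simp only [h1, h2, h3]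

theorem ld_aux (hJ : Acs J) (h₁ : ∀ᶠ z in 𝓝 (0 : ℂ), ContDiffAt ℝ 2 u₁ z ∧ CR J u₁ z)
    (o₁ : Ord 2 u₁ l₁ a₁) (ha₁ : a₁.1 ≠ 0)
    (h₂ : ∀ᶠ z in 𝓝 (0 : ℂ), ContDiffAt ℝ 2 u₂ z ∧ CR J u₂ z)
    (o₂ : Ord 2 u₂ l₂ a₂) (ha₂ : a₂.1 ≠ 0) :
    ∀ᶠ p in 𝓝[≠] (0 : ℂ) ×ˢ 𝓝 (0 : ℂ), u₁ p.1 = u₂ p.2 → map u₁ (𝓝 p.1) = map u₂ (𝓝 p.2) := by
  obtain ⟨σ₁, ξ₁, c₁, -, f₁⟩ := exists_nf o₁ two_ne_zero ha₁
  obtain ⟨σ₂, ξ₂, c₂, -, f₂⟩ := exists_nf o₂ two_ne_zero ha₂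
  obtain ⟨ρ, d, d0, oρ, hρ, h⟩ := dich_aux hJ h₁ o₁ f₁ h₂ o₂ ha₂ f₂ (mul_comm (l₂ + 1) (l₁ + 1))
  have op : Ord 2 (fun z : ℂ => z ^ (l₂ + 1)) l₂ 1 := by simpa using ord_pow 2 l₂ 1
  have fin : {ζ : ℂ | ζ ^ (l₂ + 1) = 1}.Finite :=
    (Polynomial.nthRootsFinset (l₂ + 1) (1 : ℂ)).finite_toSet.subset fun ζ hζ =>
      (Polynomial.mem_nthRootsFinset (Nat.succ_pos _) _).2 hζ
  have key : ∀ᶠ z in 𝓝[≠] (0 : ℂ), ∀ ζ ∈ {ζ : ℂ | ζ ^ (l₂ + 1) = 1},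
      u₁ (z ^ (l₂ + 1)) = u₂ (σ₂ (ζ * ρ z ^ (l₁ + 1))) →
        map u₁ (𝓝 (z ^ (l₂ + 1))) = map u₂ (𝓝 (σ₂ (ζ * ρ z ^ (l₁ + 1)))) := by
    refine (eventually_all_finite fin).2 fun ζ hζ => ?_
    obtain ⟨⟨e, e0, oe⟩, hx, hd⟩ := h ζ hζ
    filter_upwards [hd.ev, oe.map_nhds two_ne_zero e0, op.map_nhds two_ne_zero one_ne_zero,
      mem_nhdsWithin_of_mem_nhds (eventually_eventually_nhds.2 hx)] with z h1 h2 h3 h4 he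
    rw [← h2, ← h3, map_map, map_map]
    refine Filter.map_congr ?_
    filter_upwards [h1 (by rw [he, sub_self]), h4] with y h5 h6
    exact Prod.ext h6 (sub_eq_zero.1 h5)
  have mp : map (fun z : ℂ => z ^ (l₂ + 1)) (𝓝[≠] 0) = 𝓝[≠] 0 :=
    (map_nhds_of_analytic (by fun_prop) (by simp) fun h0 =>
      (((op.ne_zero two_ne_zero one_ne_zero).and (h0.filter_mono nhdsWithin_le_nhds)).exists.elim
        fun _ hz => hz.1 hz.2)).2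
  have k2 : ∀ᶠ z₁ in 𝓝[≠] (0 : ℂ), ∀ z₂, σ₂ (ξ₂ z₂) = z₂ → ξ₂ z₂ ^ (l₂ + 1) = (u₂ z₂).1 →
      u₁ z₁ = u₂ z₂ → map u₁ (𝓝 z₁) = map u₂ (𝓝 z₂) := by
    rw [← mp, eventually_map]
    filter_upwards [key, oρ.ne_zero two_ne_zero d0, mem_nhdsWithin_of_mem_nhds hρ,
      mem_nhdsWithin_of_mem_nhds (op.tendsto_zero.eventually f₁.fst)] with z h1 h2 h3 h4 z₂ h5 h6 he
    have r0 : ρ z ^ (l₁ + 1) ≠ 0 := pow_ne_zero _ h2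
    have h7 : ξ₂ z₂ / ρ z ^ (l₁ + 1) * ρ z ^ (l₁ + 1) = ξ₂ z₂ := div_mul_cancel₀ _ r0
    have h8 := h1 (ξ₂ z₂ / ρ z ^ (l₁ + 1)) (by
      change _ ^ _ = _
      rw [div_pow, h6, ← he, ← h4, ← h3, ← pow_mul, ← pow_mul, mul_comm]
      exact div_self (pow_ne_zero _ h2))
    rw [h7, h5] at h8
    exact h8 he
  exact (k2.prod_mk (f₂.σξ.and f₂.fst)).mono fun p hp => hp.1 _ hp.2.1 hp.2.2

/-- Near a common point, two curves that meet have the same image germ there. -/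
theorem ld (hJ : Acs J)
    (h₁ : ∀ᶠ z in 𝓝 (0 : ℂ), ContDiffAt ℝ 2 u₁ z ∧ CR J u₁ z) (z₁ : u₁ 0 = 0) (n₁ : ¬u₁ =ᶠ[𝓝 0] 0)
    (h₂ : ∀ᶠ z in 𝓝 (0 : ℂ), ContDiffAt ℝ 2 u₂ z ∧ CR J u₂ z) (z₂ : u₂ 0 = 0) (n₂ : ¬u₂ =ᶠ[𝓝 0] 0) :
    ∀ᶠ p in 𝓝[≠] (0 : ℂ) ×ˢ 𝓝 (0 : ℂ), u₁ p.1 = u₂ p.2 → map u₁ (𝓝 p.1) = map u₂ (𝓝 p.2) := by
  obtain ⟨l₁, a₁, b₁, o₁⟩ := (order (sim_holds _) hJ le_rfl h₁ z₁).resolve_left n₁
  obtain ⟨l₂, a₂, b₂, o₂⟩ := (order (sim_holds _) hJ le_rfl h₂ z₂).resolve_left n₂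
  obtain ⟨c, hc⟩ := exists_shear (S := {a₁, a₂}) (Set.toFinite _) (by simp [b₁.symm, b₂.symm])
  set A : ℂ × ℂ →L[ℝ] ℂ × ℂ := ((shear c : ℂ × ℂ →L[ℂ] ℂ × ℂ).restrictScalars ℝ) with hA
  have t : ∀ {u : ℂ → ℂ × ℂ}, (∀ᶠ z in 𝓝 (0 : ℂ), ContDiffAt ℝ 2 u z ∧ CR J u z) →
      ∀ᶠ z in 𝓝 (0 : ℂ), ContDiffAt ℝ 2 (fun s => shear c (u s)) z ∧
        CR (conj (shear c) J) (fun s => shear c (u s)) z := fun h => h.mono fun z hz =>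
    ⟨A.contDiff.contDiffAt.comp z hz.1, hz.2.conj _ (hz.1.differentiableAt two_ne_zero)⟩
  have l : ∀ (k : ℂ) v, A (k • v) = k • A v := fun k v => (shear c).map_smul k v
  filter_upwards [ld_aux (hJ.conj (shear c)) (t h₁) (o₁.clm two_ne_zero A l)
    (by simpa [hA] using hc a₁ (by simp)) (t h₂) (o₂.clm two_ne_zero A l)
    (by simpa [hA] using hc a₂ (by simp))] with p hp he
  exact map_injective (shear c).injective (hp (congrArg _ he))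

end Pool.Agent.Lib.MP_1c0d65_gt.B
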