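import Pool.Agent.Lib.MP_1c0d65_gt.B.Cht
import Pool.Agent.Lib.MP_1c0d65_gt.B.Loc

/-! Two germs through one point. -/

set_option autoImplicit false
set_option linter.unusedSectionVars false

open scoped Manifold ContDiff Topology
open Set Filter Metric Pool.Agent.Lib.MP_1c0d65_gt.B

noncomputable section

namespace Pool.Agent.Lib.MP_1c0d65_gt.PW

variable {X : Type} [TopologicalSpace X] [ChartedSpace E X] [IsManifold 𝓘(ℝ, E) ∞ X]
  [T2Space X] [CompactSpace X] [MeasurableSpace X] [BorelSpace X] {c : Ctx X} {O : Orb c}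
  {g g' : ℂ → X} {z z' : ℂ} {p : X}

/-- A nonconstant germ is not constant in an adapted chart. -/
theorem Cht.gb_ne (K : Cht O p) (hc : ContinuousAt g z) (hz : g z = p)
    (nc : ¬∀ᶠ s in 𝓝 z, g s = g z) : ¬K.ψ ∘ g =ᶠ[𝓝 z] 0 := fun h => nc <| by
  filter_upwards [h, hc.eventually (K.ψ.open_source.mem_nhds (hz ▸ K.mem))] with s h1 h2
  rw [hz]
  exact K.ψ.injOn h2 K.mem (h1.trans K.zero.symm)

theorem HolG.gb_shift (h : HolG O.J g z) (hp : g z ∈ O.W) : HolG O.J (g ∘ fun s => z + s) 0 :=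
  HolG.comp (by simpa using h) (by simpa using h.ev_W hp) (by fun_prop)

theorem Cht.gb_map (K : Cht O p) {s : ℂ} (h : ∀ᶠ w in 𝓝 s, g w ∈ K.ψ.source) :
    map g (𝓝 s) = map K.ψ.symm (map (K.ψ ∘ g ∘ fun w => z + w) (𝓝 (s - z))) := by
  rw [← Function.comp_assoc, ← map_map (m := fun w => z + w), map_add_left_nhds, add_sub_cancel,
    map_map]
  exact map_congr (h.mono fun w hw => (K.ψ.left_inv hw).symm)

theorem Cht.gb_data (K : Cht O p) (hp : p ∈ O.W) (h : HolG O.J g z) (hz : g z = p)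
    (nc : ¬∀ᶠ s in 𝓝 z, g s = g z) :
    (∀ᶠ s in 𝓝 (0 : ℂ), ContDiffAt ℝ 2 (K.ψ ∘ g ∘ fun w => z + w) s ∧
      CR K.Jt (K.ψ ∘ g ∘ fun w => z + w) s) ∧ (K.ψ ∘ g ∘ fun w => z + w) 0 = 0 ∧
      ¬(K.ψ ∘ g ∘ fun w => z + w) =ᶠ[𝓝 0] 0 := by
  have h1 := h.gb_shift (hz ▸ hp)
  have h2 : (g ∘ fun w => z + w) 0 = p := by simpa using hz
  refine ⟨((K.holG_iff (h2 ▸ K.mem) h1.cont).1 h1).mono fun s hs => ⟨hs.1.of_le (by norm_cast), hs.2⟩,
    (congrArg K.ψ h2).trans K.zero, K.gb_ne h1.cont h2 fun h3 => nc ?_⟩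
  have t : Tendsto (fun s => s - z) (𝓝 z) (𝓝 0) := tendsto_sub_nhds_zero_iff.2 tendsto_id
  filter_upwards [t.eventually h3] with s hs
  simpa using hs

theorem HolG.ld (h : HolG O.J g z) (h' : HolG O.J g' z') (hp : g z ∈ O.W) (he : g' z' = g z)
    (nc : ¬∀ᶠ s in 𝓝 z, g s = g z) (nc' : ¬∀ᶠ s in 𝓝 z', g' s = g' z') :
    ∀ᶠ q in 𝓝[≠] z ×ˢ 𝓝 z', g q.1 = g' q.2 → map g (𝓝 q.1) = map g' (𝓝 q.2) := by
  obtain ⟨K⟩ := O.exists_cht hp
  obtain ⟨a1, a2, a3⟩ := K.gb_data hp h rfl nc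
  obtain ⟨b1, b2, b3⟩ := K.gb_data hp h' he nc'
  have t1 : Tendsto (fun s => s - z) (𝓝[≠] z) (𝓝[≠] 0) :=
    tendsto_nhdsWithin_iff.2 ⟨(tendsto_sub_nhds_zero_iff.2 tendsto_id).mono_left nhdsWithin_le_nhds,
      eventually_mem_nhdsWithin.mono fun s hs => sub_ne_zero.2 hs⟩
  have t2 : Tendsto (fun s => s - z') (𝓝 z') (𝓝 0) := tendsto_sub_nhds_zero_iff.2 tendsto_id
  have s1 : ∀ᶠ s in 𝓝 z, g s ∈ K.ψ.source := h.cont.eventually (K.ψ.open_source.mem_nhds K.mem)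
  have s2 : ∀ᶠ s in 𝓝 z', g' s ∈ K.ψ.source :=
    h'.cont.eventually (K.ψ.open_source.mem_nhds (by rw [he]; exact K.mem))
  filter_upwards [(t1.prodMap t2).eventually (B.ld K.acs a1 a2 a3 b1 b2 b3),
    (s1.eventually_nhds.filter_mono nhdsWithin_le_nhds).prod_mk s2.eventually_nhds]
    with q h1 h2 h3
  rw [K.gb_map (z := z) h2.1, K.gb_map (z := z') h2.2]
  exact congrArg _ (h1 (by simp [h3]))

end Pool.Agent.Lib.MP_1c0d65_gt.PW
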