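import Pool.Agent.Lib.MP_1c0d65_gt.B.Root

/-! The similarity principle for a variable complex structure; the order of a curve. -/

namespace Pool.Agent.Lib.MP_1c0d65_gt.B

open Filter Topology Asymptotics Complex

set_option linter.unusedSectionVars false

variable {E : Type*} [NormedAddCommGroup E] [NormedSpace ℝ E] [NormedSpace ℂ E]
  [IsScalarTower ℝ ℂ E]

/-- `W` vanishes near the origin or has a leading term. -/
def Dich (W : ℂ → E) : Prop :=
  (∀ᶠ z in 𝓝[≠] (0 : ℂ), W z = 0) ∨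
    ∃ (l : ℕ) (b : E), b ≠ 0 ∧ Tendsto (fun z : ℂ => (z ^ l)⁻¹ • W z) (𝓝[≠] 0) (𝓝 b)

variable (E) in
/-- The similarity principle. -/
def Sim : Prop :=
  ∀ (W : ℂ → E) (K : ℝ), ContinuousAt W 0 →
    (∀ᶠ z in 𝓝[≠] (0 : ℂ), ContDiffAt ℝ 1 W z ∧
      ‖fderiv ℝ W z I - I • fderiv ℝ W z 1‖ ≤ K * ‖W z‖) → Dich W

variable (E) in
/-- Multiplication by `I`. -/
noncomputable def mI : E →L[ℝ] E := (I • ContinuousLinearMap.id ℂ E).restrictScalars ℝ

@[simp] theorem mI_apply (v : E) : mI E v = I • v := rfl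

theorem norm_mI_le : ‖mI E‖ ≤ 1 :=
  ContinuousLinearMap.opNorm_le_bound _ zero_le_one fun v => by simp [norm_smul]

theorem sim_var (hs : Sim E) {W : ℂ → E} {j : ℂ → E →L[ℝ] E} {K K' : ℝ} (hW : ContinuousAt W 0)
    (hj : Tendsto j (𝓝[≠] 0) (𝓝 (mI E)))
    (h : ∀ᶠ z in 𝓝[≠] (0 : ℂ), ContDiffAt ℝ 1 W z ∧ ContDiffAt ℝ 1 j z ∧ ‖fderiv ℝ j z‖ ≤ K' ∧
      (∀ v, j z (j z v) = -v) ∧ ‖fderiv ℝ W z I - j z (fderiv ℝ W z 1)‖ ≤ K * ‖W z‖) :
    Dich W := by
  set V₀ : ℂ → E := fun z => (2⁻¹ : ℝ) • (W z - mI E (j z (W z))) with hV₀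
  have hd : ∀ z, ‖V₀ z - W z‖ ≤ ‖j z - mI E‖ * ‖W z‖ := fun z => by
    have : V₀ z - W z = (-2⁻¹ : ℝ) • mI E ((j z - mI E) (W z)) := by
      simp only [hV₀, sub_apply, mI_apply, smul_sub, smul_smul, I_mul_I]
      module
    rw [this, norm_smul, mI_apply, norm_smul, norm_I, one_mul]
    have := (j z - mI E).le_opNorm (W z)
    have h2 : ‖(-2⁻¹ : ℝ)‖ = 2⁻¹ := by simp
    rw [h2]
    nlinarith [norm_nonneg ((j z - mI E) (W z))]
  have hj0 : Tendsto (fun z => ‖j z - mI E‖) (𝓝[≠] 0) (𝓝 0) :=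
    tendsto_iff_norm_sub_tendsto_zero.1 hj
  have hs2 : ∀ᶠ z in 𝓝[≠] (0 : ℂ), ‖j z - mI E‖ ≤ 2⁻¹ :=
    (hj0.eventually (gt_mem_nhds (by norm_num : (0 : ℝ) < 2⁻¹))).mono fun _ hz => hz.le
  have hWV : ∀ᶠ z in 𝓝[≠] (0 : ℂ), ‖W z‖ ≤ 2 * ‖V₀ z‖ := hs2.mono fun z hz => by
    have h1 := hd z
    have h2 : ‖W z‖ ≤ ‖V₀ z‖ + ‖V₀ z - W z‖ := by
      simpa using norm_sub_le (V₀ z) (V₀ z - W z)
    nlinarith [norm_nonneg (W z)]
  set V := Function.update V₀ 0 (W 0) with hV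
  have hVV : ∀ z, z ≠ 0 → V =ᶠ[𝓝 z] V₀ := fun z hz =>
    (isOpen_compl_singleton.eventually_mem hz).mono fun w hw => Function.update_of_ne hw _ _
  have hW' : Tendsto W (𝓝[≠] 0) (𝓝 (W 0)) := hW.tendsto.mono_left nhdsWithin_le_nhds
  have hc : ContinuousAt V 0 := by
    rw [hV, continuousAt_update_same]
    have h1 : Tendsto (fun z => V₀ z - W z) (𝓝[≠] 0) (𝓝 0) :=
      squeeze_zero_norm hd (by simpa using hj0.mul hW'.norm)
    simpa using h1.add hW'
  have := hs V (2 * (2 * |K| + |K'|)) hc ?_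
  · rcases this with h0 | ⟨l, b, hb, ht⟩
    · left
      filter_upwards [h0, hWV, self_mem_nhdsWithin] with z h1 h2 h3
      rw [(hVV z h3).eq_of_nhds] at h1
      simpa [h1] using h2
    · right
      refine ⟨l, b, hb, ?_⟩
      have t1 : Tendsto (fun z : ℂ => (z ^ l)⁻¹ • V₀ z) (𝓝[≠] 0) (𝓝 b) := by
        refine ht.congr' ?_
        filter_upwards [self_mem_nhdsWithin] with z h3
        rw [(hVV z h3).eq_of_nhds]
      have t2 : Tendsto (fun z : ℂ => (z ^ l)⁻¹ • V₀ z - (z ^ l)⁻¹ • W z) (𝓝[≠] 0) (𝓝 0) := by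
        refine squeeze_zero_norm' ?_ (by simpa using hj0.mul (t1.norm.const_mul 2))
        filter_upwards [hWV] with z h2
        rw [← smul_sub, norm_smul]
        have h3 := (hd z).trans (mul_le_mul_of_nonneg_left h2 (norm_nonneg _))
        refine (mul_le_mul_of_nonneg_left h3 (norm_nonneg _)).trans (le_of_eq ?_)
        simp only [norm_smul, norm_inv, norm_pow]
        ring
      simpa using t1.sub t2
  filter_upwards [h, hs2, hWV, self_mem_nhdsWithin] with z ⟨d1, d2, b2, jj, eq⟩ s2 wv z0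
  have d3 : ContDiffAt ℝ 1 V₀ z :=
    (d1.sub ((mI E).contDiff.contDiffAt.comp z (d2.clm_apply d1))).const_smul _
  refine ⟨d3.congr_of_eventuallyEq (hVV z z0), ?_⟩
  rw [(hVV z z0).fderiv_eq, (hVV z z0).eq_of_nhds]
  have f1 := (d1.differentiableAt one_ne_zero).hasFDerivAt
  have f2 := (d2.differentiableAt one_ne_zero).hasFDerivAt
  have f3 : ∀ v, fderiv ℝ V₀ z v = (2⁻¹ : ℝ) • (fderiv ℝ W z v -
      I • (j z (fderiv ℝ W z v) + fderiv ℝ j z v (W z))) := fun v => by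
    have := ((f1.sub ((mI E).hasFDerivAt.comp z (f2.clm_apply f1))).const_smul (2⁻¹ : ℝ)).fderiv
    rw [show V₀ = (2⁻¹ : ℝ) • (W - mI E ∘ fun y => j y (W y)) from rfl, this]
    simp
  set D := fderiv ℝ W z I - j z (fderiv ℝ W z 1) with hD
  have e1 : fderiv ℝ V₀ z I - I • fderiv ℝ V₀ z 1 = (2⁻¹ : ℝ) • (D - I • j z D -
      I • fderiv ℝ j z I (W z) - fderiv ℝ j z 1 (W z)) := by
    rw [f3, f3, hD, map_sub, jj, smul_comm I (2⁻¹ : ℝ)]
    simp only [smul_sub, smul_add, smul_neg, smul_smul I I, I_mul_I]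
    module
  have n1 : ‖j z D‖ ≤ 2 * ‖D‖ := by
    have h1 : ‖j z‖ ≤ ‖j z - mI E‖ + ‖mI E‖ := by simpa using norm_add_le (j z - mI E) (mI E)
    have := (j z).le_opNorm D
    nlinarith [norm_mI_le (E := E), norm_nonneg D]
  have n2 : ∀ v : ℂ, ‖v‖ = 1 → ‖fderiv ℝ j z v (W z)‖ ≤ |K'| * ‖W z‖ := fun v hv =>
    (ContinuousLinearMap.le_opNorm _ _).trans (mul_le_mul_of_nonneg_right (by
      have := (fderiv ℝ j z).le_opNorm v
      rw [hv, mul_one] at this
      exact this.trans (b2.trans (le_abs_self _))) (norm_nonneg _))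
  have n3 : ‖D‖ ≤ |K| * ‖W z‖ :=
    eq.trans (mul_le_mul_of_nonneg_right (le_abs_self _) (norm_nonneg _))
  have n4 : ‖D - I • j z D - I • fderiv ℝ j z I (W z) - fderiv ℝ j z 1 (W z)‖ ≤
      ‖D‖ + ‖j z D‖ + ‖fderiv ℝ j z I (W z)‖ + ‖fderiv ℝ j z 1 (W z)‖ := by
    refine (norm_sub_le _ _).trans (add_le_add_left ((norm_sub_le _ _).trans (add_le_add
      ((norm_sub_le _ _).trans ?_) ?_)) _) <;> simp [norm_smul]
  rw [e1, norm_smul, show ‖(2⁻¹ : ℝ)‖ = 2⁻¹ by simp]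
  have := n2 I norm_I
  have := n2 1 norm_one
  have p1 := mul_le_mul_of_nonneg_left wv (abs_nonneg K)
  have p2 := mul_le_mul_of_nonneg_left wv (abs_nonneg K')
  have p3 : 0 ≤ |K| * ‖V₀ z‖ := by positivity
  nlinarith

/-- The equation of a `J`-holomorphic curve at a point. -/
def CR (J : E → E →L[ℝ] E) (u : ℂ → E) (z : ℂ) : Prop :=
  fderiv ℝ u z I = J (u z) (fderiv ℝ u z 1)

/-- An almost complex structure near the origin that is standard at the origin. -/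
structure Acs (J : E → E →L[ℝ] E) : Prop where
  cd : ContDiffAt ℝ 1 J 0
  zero : J 0 = mI E
  sq : ∀ᶠ p in 𝓝 (0 : E), ∀ v, J p (J p v) = -v

theorem exists_fderiv_bound {F G : Type*} [NormedAddCommGroup F] [NormedSpace ℝ F]
    [NormedAddCommGroup G] [NormedSpace ℝ G] {f : F → G} {x : F} (h : ContDiffAt ℝ 1 f x) :
    ∃ K, 0 ≤ K ∧ ∀ᶠ y in 𝓝 x, ‖fderiv ℝ f y‖ ≤ K :=
  ⟨‖fderiv ℝ f x‖ + 1, by positivity,
    ((h.continuousAt_fderiv one_ne_zero).norm.eventually (gt_mem_nhds (lt_add_one _))).mono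
      fun _ hy => hy.le⟩

theorem clm_eq (A : ℂ →L[ℝ] E) (h : ℂ) : A h = h.re • A 1 + h.im • A I := by
  rw [← map_smul, ← map_smul, ← map_add]
  congr 1
  apply Complex.ext <;> simp

/-- A curve through the origin is constant or has a leading term. -/
theorem order (hs : Sim E) {J : E → E →L[ℝ] E} (hJ : Acs J) {n : WithTop ℕ∞} (hn : 2 ≤ n)
    {u : ℂ → E} (hu : ∀ᶠ z in 𝓝 (0 : ℂ), ContDiffAt ℝ n u z ∧ CR J u z) (h0 : u 0 = 0) :
    u =ᶠ[𝓝 0] 0 ∨ ∃ l a, a ≠ 0 ∧ Ord n u l a := by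
  have u2 : ∀ᶠ z in 𝓝 (0 : ℂ), ContDiffAt ℝ 2 u z := hu.mono fun z hz => hz.1.of_le hn
  have u1 : ContDiffAt ℝ 1 u 0 := u2.self_of_nhds.of_le (by norm_num)
  have ut : Tendsto u (𝓝 0) (𝓝 0) := by simpa [h0] using u1.continuousAt.tendsto
  set ξ : ℂ → E := fun z => fderiv ℝ u z 1 with hξ
  have hJu : ContDiffAt ℝ 1 (fun z => J (u z)) 0 :=
    ContDiffAt.comp (g := J) 0 (by rw [h0]; exact hJ.cd) u1
  obtain ⟨K, K0, hK⟩ := exists_fderiv_bound hJu
  have df : ∀ z, ContDiffAt ℝ 2 u z → ContDiffAt ℝ 1 (fderiv ℝ u) z := fun z hz =>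
    hz.fderiv_right (by norm_num)
  have dξ : ∀ z, ContDiffAt ℝ 2 u z → ContDiffAt ℝ 1 ξ z := fun z hz =>
    (df z hz).clm_apply contDiffAt_const
  have jt : Tendsto (fun z => J (u z)) (𝓝 0) (𝓝 (mI E)) := by
    simpa [h0, hJ.zero] using hJu.continuousAt.tendsto
  have hfd : ∀ᶠ z in 𝓝 (0 : ℂ), ∀ h : ℂ, fderiv ℝ u z h = h.re • ξ z + h.im • J (u z) (ξ z) :=
    hu.mono fun z hz h => by rw [clm_eq, hz.2]
  have := sim_var hs (W := ξ) (j := fun z => J (u z)) (K := K) (K' := K)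
    (dξ 0 u2.self_of_nhds).continuousAt (jt.mono_left nhdsWithin_le_nhds) ?_
  · rcases this with h1 | ⟨l, b, hb, ht⟩
    · left
      have ho : Ord n u 0 0 := ⟨h0, u1.continuousAt,
        mem_nhdsWithin_of_mem_nhds (hu.mono fun z hz => hz.1), ?_⟩
      · have h2 : ∀ᶠ z in 𝓝 (0 : ℂ), fderiv ℝ u z = 0 := by
          have h3 : ∀ᶠ z in 𝓝[≠] (0 : ℂ), fderiv ℝ u z = 0 := by
            filter_upwards [h1, mem_nhdsWithin_of_mem_nhds hfd] with z a b
            ext1 h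
            simp [b h, a]
          have h4 : fderiv ℝ u 0 = 0 := tendsto_nhds_unique
            ((df 0 u2.self_of_nhds).continuousAt.tendsto.mono_left nhdsWithin_le_nhds)
            (tendsto_const_nhds.congr' (h3.mono fun z hz => hz.symm))
          filter_upwards [eventually_nhdsWithin_iff.1 h3] with z hz
          by_cases z0 : z = 0
          · rw [z0, h4]
          · exact hz z0
        obtain ⟨ε, hε, h5⟩ := Metric.eventually_nhds_iff_ball.1 (h2.and u2)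
        filter_upwards [Metric.ball_mem_nhds (0 : ℂ) hε] with z hz
        rw [Pi.zero_apply, ← h0]
        exact Metric.isOpen_ball.is_const_of_fderiv_eq_zero (𝕜 := ℝ) (convex_ball _ _).isPreconnected
          (fun w hw => ((h5 w hw).2.differentiableAt (by norm_num)).differentiableWithinAt)
          (fun w hw => (h5 w hw).1) hz (Metric.mem_ball_self hε)
      · refine (isLittleO_zero _ _).congr' ?_ EventuallyEq.rfl
        filter_upwards [h1, mem_nhdsWithin_of_mem_nhds hfd] with z a b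
        ext1 h
        simp [b h, a]
    · right
      have l0 : (l + 1 : ℂ) ≠ 0 := by exact_mod_cast Nat.succ_ne_zero l
      refine ⟨l, (l + 1 : ℂ)⁻¹ • b, smul_ne_zero (inv_ne_zero l0) hb, h0, u1.continuousAt,
        mem_nhdsWithin_of_mem_nhds (hu.mono fun z hz => hz.1), ?_⟩
      have o1 := littleO_of_tendsto ht
      have o2 : ξ =O[𝓝[≠] 0] fun z : ℂ => z ^ l := by
        have h1 : (fun z : ℂ => z ^ l • b) =O[𝓝[≠] 0] fun z : ℂ => z ^ l :=
          IsBigO.of_bound ‖b‖ (Eventually.of_forall fun z => by rw [norm_smul, mul_comm])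
        simpa using o1.isBigO.add h1
      have o3 : (fun z => ‖J (u z) - mI E‖ * ‖ξ z‖) =o[𝓝[≠] 0] fun z : ℂ => ‖z ^ l‖ := by
        have h1 : (fun z => ‖J (u z) - mI E‖) =o[𝓝[≠] (0 : ℂ)] fun _ => (1 : ℝ) :=
          (isLittleO_one_iff ℝ).2
            ((tendsto_iff_norm_sub_tendsto_zero.1 jt).mono_left nhdsWithin_le_nhds)
        simpa using h1.mul_isBigO o2.norm_norm
      refine (IsBigO.of_bound 1 ?_).trans_isLittleO (o1.norm_norm.add o3).of_norm_right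
      filter_upwards [mem_nhdsWithin_of_mem_nhds hfd] with z hz
      rw [one_mul, Real.norm_of_nonneg (by positivity)]
      refine ContinuousLinearMap.opNorm_le_bound _ (by positivity) fun h => ?_
      have e1 : (fderiv ℝ u z - sm (((l + 1 : ℂ) * z ^ l) • (l + 1 : ℂ)⁻¹ • b)) h =
          h • (ξ z - z ^ l • b) + h.im • (J (u z) - mI E) (ξ z) := by
        have e2 : h • ξ z = h.re • ξ z + h.im • I • ξ z := by simpa using clm_eq (sm (ξ z)) h
        have e3 : ((l + 1 : ℂ) * z ^ l) • (l + 1 : ℂ)⁻¹ • b = z ^ l • b := by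
          rw [smul_smul]; congr 1; field_simp
        rw [sub_apply, hz, e3, sm_apply, smul_sub h, e2, sub_apply, mI_apply, smul_sub]
        abel
      rw [e1, add_mul]
      refine (norm_add_le _ _).trans (add_le_add ?_ ?_)
      · rw [norm_smul, mul_comm]
      · rw [norm_smul, mul_comm]
        exact mul_le_mul (ContinuousLinearMap.le_opNorm _ _) (abs_im_le_norm h) (norm_nonneg _)
          (by positivity)
  refine mem_nhdsWithin_of_mem_nhds ?_
  filter_upwards [u2, hJu.eventually (by simp), hK, ut.eventually hJ.sq, hu.eventually_nhds]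
    with z a1 a2 a3 a4 a5
  refine ⟨dξ z a1, a2, a3, a4, ?_⟩
  have f1 := ((df z a1).differentiableAt one_ne_zero).hasFDerivAt
  have e1 : ∀ v w, fderiv ℝ (fun y => fderiv ℝ u y v) z w = fderiv ℝ (fderiv ℝ u) z w v :=
    fun v w => by
      rw [(f1.clm_apply (hasFDerivAt_const v z)).fderiv]; simp
  have e2 : (fun y => fderiv ℝ u y I) =ᶠ[𝓝 z] fun y => J (u y) (ξ y) := a5.mono fun y hy => hy.2
  have e3 := congrArg (fun A : ℂ →L[ℝ] E => A 1) (e2.fderiv_eq (𝕜 := ℝ))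
  rw [((a2.differentiableAt one_ne_zero).hasFDerivAt.clm_apply
    ((dξ z a1).differentiableAt one_ne_zero).hasFDerivAt).fderiv] at e3
  simp only [e1, add_apply, ContinuousLinearMap.comp_apply, ContinuousLinearMap.flip_apply] at e3
  have e4 : fderiv ℝ ξ z I = fderiv ℝ (fderiv ℝ u) z 1 I := by
    rw [hξ, e1, (a1.isSymmSndFDerivAt (by simp)).eq]
  rw [e4, e3, add_sub_cancel_left]
  refine (ContinuousLinearMap.le_opNorm _ _).trans (mul_le_mul_of_nonneg_right ?_ (norm_nonneg _))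
  simpa using ((fderiv ℝ (fun z => J (u z)) z).le_opNorm 1).trans (by simpa using a3)

end Pool.Agent.Lib.MP_1c0d65_gt.B
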