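import Pool.Agent.Lib.MP_1c0d65_gt.PW.BrK
import Pool.Agent.Lib.MP_1c0d65_gt.B.Sim
import Pool.Agent.Lib.MP_1c0d65_gt.B.Ch

/-! Germs of curves, adapted charts, and an orbifold curve as a map on the sphere. -/

set_option autoImplicit false
set_option linter.unusedSectionVars false

open scoped Manifold ContDiff Topology
open Set Filter Metric Pool.Agent.Lib.MP_1c0d65_gt.B

noncomputable section

namespace Pool.Agent.Lib.MP_1c0d65_gt.PW

variable {X : Type} [TopologicalSpace X] [ChartedSpace E X] [IsManifold 𝓘(ℝ, E) ∞ X]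

/-- `g` is smooth and `J`-holomorphic near `z`. -/
def HolG (J : X → E →L[ℝ] E) (g : ℂ → X) (z : ℂ) : Prop :=
  ∀ᶠ s in 𝓝 z, ContMDiffAt 𝓘(ℝ, ℂ) 𝓘(ℝ, E) ∞ g s ∧ dif g s .I = J (g s) (dif g s 1)

variable {J : X → E →L[ℝ] E} {g g' : ℂ → X} {z : ℂ}

theorem Hol.holG {S : Set ℂ} (h : Hol J g S) (hS : S ∈ 𝓝 z) : HolG J g z :=
  (eventually_mem_nhds_iff.2 hS).mono fun s hs =>
    ⟨h.1.contMDiffAt hs, h.2 s (mem_of_mem_nhds hs)⟩

theorem hol_of_holG {S : Set ℂ} (h : ∀ s ∈ S, HolG J g s) : Hol J g S :=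
  ⟨fun s hs => (h s hs).self_of_nhds.1.contMDiffWithinAt, fun s hs => (h s hs).self_of_nhds.2⟩

theorem HolG.ev (h : HolG J g z) : ∀ᶠ s in 𝓝 z, HolG J g s := eventually_eventually_nhds.2 h

theorem HolG.cm (h : HolG J g z) : ContMDiffAt 𝓘(ℝ, ℂ) 𝓘(ℝ, E) ∞ g z := h.self_of_nhds.1

theorem HolG.cont (h : HolG J g z) : ContinuousAt g z := h.cm.continuousAt

theorem HolG.ball (h : HolG J g z) : ∃ r > 0, Hol J g (ball z r) :=
  let ⟨r, hr, h1⟩ := Metric.eventually_nhds_iff_ball.1 h.ev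
  ⟨r, hr, hol_of_holG h1⟩

theorem HolG.congr (h : HolG J g z) (e : g =ᶠ[𝓝 z] g') : HolG J g' z := by
  filter_upwards [h, e.eventuallyEq_nhds] with s hs es
  exact ⟨hs.1.congr_of_eventuallyEq es.symm, by
    rw [← brk_dif_congr es, ← es.eq_of_nhds]; exact hs.2⟩

variable [MeasurableSpace X] {c : Ctx X} {O : Orb c}

theorem HolG.comp {t : ℂ → ℂ} (h : HolG O.J g (t z)) (hW : ∀ᶠ s in 𝓝 (t z), g s ∈ O.W)
    (ht : AnalyticAt ℂ t z) : HolG O.J (g ∘ t) z := by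
  filter_upwards [ht.continuousAt.eventually h, ht.continuousAt.eventually hW,
    ht.eventually_analyticAt] with s hs hw ts
  have d := ts.differentiableAt.hasDerivAt
  refine ⟨hs.1.comp s (brk_cm ts), ?_⟩
  rw [brk_dif_hol hs.1 d, brk_dif_hol hs.1 d, mul_one]
  exact brk_cr (O.JJ hw) hs.2 _

theorem Orb.isOpen_W (O : Orb c) : IsOpen O.W :=
  (isClosed_iUnion_of_finite O.closed).isOpen_compl

theorem HolG.ev_W (h : HolG J g z) (hW : g z ∈ O.W) : ∀ᶠ s in 𝓝 z, g s ∈ O.W :=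
  h.cont.eventually (O.isOpen_W.mem_nhds hW)

/-- A chart centred at `p` in which `J` is standard at the centre. -/
structure Cht (O : Orb c) (p : X) where
  ψ : OpenPartialHomeomorph X E
  Jt : E → E →L[ℝ] E
  mem : p ∈ ψ.source
  zero : ψ p = 0
  sub : ψ.source ⊆ O.W
  acs : Acs Jt
  cd : ContDiffOn ℝ ∞ Jt ψ.target
  sq : ∀ y ∈ ψ.target, ∀ v, Jt y (Jt y v) = -v
  sm : ContMDiffOn 𝓘(ℝ, E) 𝓘(ℝ, E) ∞ ψ ψ.source
  sm' : ContMDiffOn 𝓘(ℝ, E) 𝓘(ℝ, E) ∞ ψ.symm ψ.target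
  pull : ∀ y ∈ ψ.target, ∀ v, dif ψ.symm y (Jt y v) = O.J (ψ.symm y) (dif ψ.symm y v)

/-- The curve as a map on the sphere. -/
def OC.U (C : OC O) (x : OnePoint ℂ) : X := x.elim (C.v 0) C.u

/-- The points of the sphere that go to smooth points. -/
def OC.D (C : OC O) : Set (OnePoint ℂ) := (((↑) : ℂ → OnePoint ℂ) '' (C.F : Set ℂ))ᶜ

@[simp] theorem OC.U_coe (C : OC O) (s : ℂ) : C.U s = C.u s := rfl

@[simp] theorem OC.U_infty (C : OC O) : C.U OnePoint.infty = C.v 0 := rfl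

@[simp] theorem OC.coe_mem_D (C : OC O) (s : ℂ) : (s : OnePoint ℂ) ∈ C.D ↔ s ∉ C.F := by
  simp [OC.D]

@[simp] theorem OC.infty_mem_D (C : OC O) : OnePoint.infty ∈ C.D := by simp [OC.D]

end Pool.Agent.Lib.MP_1c0d65_gt.PW
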