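import Pool.Agent.Lib.MP_1c0d65_gt.B.Sphere
import Pool.Agent.Lib.MP_1c0d65_gt.B.GermL
import Pool.Agent.Lib.MP_1c0d65_gt.B.Punct

/-! Two orbifold curves have finitely many isolated common points. -/

set_option autoImplicit false
set_option linter.unusedSectionVars false

open scoped Manifold ContDiff Topology
open Set Filter Metric Pool.Agent.Lib.MP_1c0d65_gt.B

noncomputable section

namespace Pool.Agent.Lib.MP_1c0d65_gt.PW

variable {X : Type} [TopologicalSpace X] [ChartedSpace E X] [IsManifold 𝓘(ℝ, E) ∞ X]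
  [T2Space X] [CompactSpace X] [MeasurableSpace X] [BorelSpace X] {c : Ctx X} {O : Orb c}

theorem finite_of_isolated {Y : Type*} [TopologicalSpace Y] [CompactSpace Y] {S : Set Y}
    (h : ∀ x, ∀ᶠ y in 𝓝[≠] x, y ∉ S) : S.Finite := by
  by_contra hS
  obtain ⟨x, -, hx⟩ := (Set.not_finite.1 hS).exists_accPt_of_subset_isCompact isCompact_univ
    (subset_univ _)
  obtain ⟨y, h1, h2⟩ := ((accPt_iff_frequently_nhdsNE.1 hx).and_eventually (h x)).exists
  exact h2 h1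

theorem OC.apart (C C' : OC O) {x x' : OnePoint ℂ} (hx : x ∈ C.D) (hx' : x' ∉ C'.D) :
    ∀ᶠ q in 𝓝 x ×ˢ 𝓝 x', q.2 ∈ C'.D → C.U q.1 ≠ C'.U q.2 := by
  obtain ⟨i, hi⟩ := C'.exists_tendsto hx'
  obtain ⟨A, hA, B, hB, hAB⟩ := Filter.disjoint_iff.1 (O.disjoint_nhds (C.U_mem hx) i)
  filter_upwards [((C.contAt hx).eventually hA).prod_mk (eventually_nhdsWithin_iff.1 (hi hB))]
    with q hq hD he
  have h2 : C'.U q.2 ∈ B := hq.2 fun h => hx' (by rwa [show q.2 = x' from h] at hD)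
  exact Set.disjoint_left.1 hAB hq.1 (he ▸ h2)

theorem OC.ld_pair (C C' : OC O) (x x' : OnePoint ℂ) : ∀ᶠ q in 𝓝[≠] x ×ˢ 𝓝 x',
    q.1 ∈ C.D → q.2 ∈ C'.D → C.U q.1 = C'.U q.2 → map C.U (𝓝 q.1) = map C'.U (𝓝 q.2) := by
  have le : 𝓝[≠] x ×ˢ 𝓝 x' ≤ 𝓝 x ×ˢ 𝓝 x' := prod_mono_left _ nhdsWithin_le_nhds
  by_cases hx : x ∈ C.D <;> by_cases hx' : x' ∈ C'.D
  · by_cases he : C'.U x' = C.U x
    · have h := (C.holG hx).ld (C'.holG hx') (by simpa only [ch_zero] using C.U_mem hx)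
        (by simpa only [ch_zero] using he) (C.nconst hx) (C'.nconst hx')
      rw [← map_ch_ne x, ← map_ch x', prod_map_map_eq, eventually_map]
      filter_upwards [h] with q hq _ _ h1
      rw [← (ch_isOpenEmbedding x).map_nhds_eq, ← (ch_isOpenEmbedding x').map_nhds_eq]
      exact hq h1
    · obtain ⟨A, hA, B, hB, hAB⟩ := Filter.disjoint_iff.1 (disjoint_nhds_nhds.2 (Ne.symm he))
      filter_upwards [le (((C.contAt hx).eventually hA).prod_mk ((C'.contAt hx').eventually hB))]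
        with q hq _ _ h1
      exact absurd (h1 ▸ hq.2) (Set.disjoint_left.1 hAB hq.1)
  · filter_upwards [le (C.apart C' hx hx')] with q hq _ h2 h3 using absurd h3 (hq h2)
  · filter_upwards [le (eventually_swap_iff.1 (C'.apart C hx' hx))] with q hq h1 _ h3
    exact absurd h3.symm (hq h1)
  · obtain ⟨a, ha, rfl⟩ : x ∈ ((↑) : ℂ → OnePoint ℂ) '' (C.F : Set ℂ) := not_not.1 hx
    obtain ⟨a', ha', rfl⟩ : x' ∈ ((↑) : ℂ → OnePoint ℂ) '' (C'.F : Set ℂ) := not_not.1 hx'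
    have h : ∀ᶠ q in 𝓝[≠] (a : OnePoint ℂ) ×ˢ 𝓝[≠] (a' : OnePoint ℂ),
        C.U q.1 = C'.U q.2 → map C.U (𝓝 q.1) = map C'.U (𝓝 q.2) := by
      rw [← map_coe_ne, ← map_coe_ne, prod_map_map_eq, eventually_map]
      filter_upwards [C.ld_punct C' ha ha'] with q hq h1
      rw [← OnePoint.isOpenEmbedding_coe.map_nhds_eq, ← OnePoint.isOpenEmbedding_coe.map_nhds_eq]
      exact hq h1
    obtain ⟨A, hA, B, hB, hAB⟩ := eventually_prod_iff.1 h
    filter_upwards [hA.prod_mk (eventually_nhdsWithin_iff.1 hB)] with q hq _ h2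
    exact hAB hq.1 (hq.2 fun h => hx' (by rwa [show q.2 = a' from h] at h2))

/-- Off a finite set, points with the same image have the same image germ. -/
theorem OC.bad_finite (C C' : OC O) : {x ∈ C.D | ∃ x' ∈ C'.D, C.U x = C'.U x' ∧
    map C.U (𝓝 x) ≠ map C'.U (𝓝 x')}.Finite := by
  refine finite_of_isolated fun x => ?_
  have h := isCompact_univ.eventually_forall_of_forall_eventually (x₀ := x)
    (P := fun y (y' : OnePoint ℂ) => y ≠ x → y ∈ C.D → y' ∈ C'.D → C.U y = C'.U y' →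
      map C.U (𝓝 y) = map C'.U (𝓝 y')) fun x' _ => by
    obtain ⟨A, hA, B, hB, hAB⟩ := eventually_prod_iff.1 (C.ld_pair C' x x')
    rw [nhds_prod_eq]
    filter_upwards [(eventually_nhdsWithin_iff.1 hA).prod_mk hB] with q hq h1
    exact hAB (hq.1 h1) hq.2
  filter_upwards [mem_nhdsWithin_of_mem_nhds h, self_mem_nhdsWithin] with y h1 h2
  rintro ⟨h3, y', h4, h5, h6⟩
  exact h6 (h1 y' trivial h2 h3 h4 h5)

/-- Two curves meet in a finite set unless one image contains the other. -/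
theorem OC.inter_finite (C C' : OC O) (hne : ¬C'.img ⊆ C.img) :
    {x ∈ C'.D | C'.U x ∈ C.img}.Finite := by
  set Z := {x ∈ C'.D | ∃ x' ∈ C.D, C'.U x = C.U x' ∧ map C'.U (𝓝 x) ≠ map C.U (𝓝 x')} with hZ
  have fZ : (Z ∪ C'.Dᶜ).Finite := (C'.bad_finite C).union C'.D_fin
  obtain ⟨pc, de⟩ := preconn_compl fZ
  have hD : ∀ x ∈ (Z ∪ C'.Dᶜ)ᶜ, x ∈ C'.D := fun x hx => not_not.1 fun h => hx (Or.inr h)
  have cl : ∀ x ∈ C'.D, (∃ᶠ y in 𝓝 x, C'.U y ∈ C.img) → C'.U x ∈ C.img := fun x hx h =>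
    C.img_closed (C'.U_mem hx) (mem_closure_of_frequently_of_tendsto h (C'.contAt hx))
  have op : ∀ x ∈ (Z ∪ C'.Dᶜ)ᶜ, C'.U x ∈ C.img → ∀ᶠ y in 𝓝 x, C'.U y ∈ C.img := by
    intro x hx h
    rw [C.img_eq] at h ⊢
    obtain ⟨x', h1, h2⟩ := h
    have h3 : map C'.U (𝓝 x) = map C.U (𝓝 x') :=
      not_not.1 fun h => hx (Or.inl ⟨hD x hx, x', h1, h2.symm, h⟩)
    have : C.U '' C.D ∈ map C.U (𝓝 x') := image_mem_map (C.isOpen_D.mem_nhds h1)
    rwa [← h3] at this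
  rcases pc.subset_or_subset (u := {x | ∀ᶠ y in 𝓝 x, C'.U y ∈ C.img})
    (v := {x | ∀ᶠ y in 𝓝 x, C'.U y ∉ C.img}) isOpen_setOfPred_eventually_nhds
    isOpen_setOfPred_eventually_nhds
    (Set.disjoint_left.2 fun x h1 h2 => h2.self_of_nhds h1.self_of_nhds)
    (fun x hx => by
      by_cases h : C'.U x ∈ C.img
      · exact Or.inl (op x hx h)
      · exact Or.inr (not_frequently.1 fun h' => h (cl x (hD x hx) h'))) with h | h
  · refine absurd ?_ hne
    rw [C'.img_eq]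
    rintro _ ⟨x, hx, rfl⟩
    exact cl x hx ((mem_closure_iff_frequently.1 (de x)).mono fun y hy => (h hy).self_of_nhds)
  · exact fZ.subset fun x hx => not_not.1 fun h' => (h h').self_of_nhds hx.2

end Pool.Agent.Lib.MP_1c0d65_gt.PW
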