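import Pool.Agent.Lib.MP_1c0d65_gt.B.ExRat
import Pool.Agent.Lib.MP_1c0d65_gt.B.Zfin
import Pool.Agent.Lib.MP_1c0d65_gt.B.Punct
import Pool.Agent.Lib.MP_1c0d65_gt.B.GermA
import Pool.Agent.Lib.MP_1c0d65_gt.B.Sphere

/-! The fibres of a curve, off a finite set, are the fibres of a rational map. -/

set_option autoImplicit false

open scoped Manifold ContDiff Topology
open Set Filter Metric Pool.Agent.Lib.MP_1c0d65_gt.B

noncomputable section

namespace Pool.Agent.Lib.MP_1c0d65_gt.PW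

variable {X : Type} [TopologicalSpace X] [ChartedSpace E X] [IsManifold 𝓘(ℝ, E) ∞ X]
  [T2Space X] [CompactSpace X] [MeasurableSpace X] [BorelSpace X] {c : Ctx X} {O : Orb c}

theorem OC.gd_holG (C : OC O) {s : ℂ} (hs : s ∉ C.F) : HolG O.J C.u s :=
  C.hu.holG (C.isOpen_F.mem_nhds hs)

theorem OC.gd_map (C : OC O) (s : ℂ) : map C.U (𝓝 (s : OnePoint ℂ)) = map C.u (𝓝 s) := by
  rw [OnePoint.nhds_coe_eq, map_map]
  rfl

theorem OC.exists_good (C : OC O) : ∃ (Bad : Set ℂ) (P : Finset ℂ) (r : ℂ → ℂ), Bad.Finite ∧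
    (C.F : Set ℂ) ⊆ Bad ∧ P.Nonempty ∧ (∀ a ∈ P, a ∉ Bad ∧ r a ≠ 0) ∧ ∀ s ∉ Bad,
      ∀ x : OnePoint ℂ, rat P r x = rat P r s ↔ ∃ s' ∉ Bad, x = s' ∧ C.u s' = C.u s := by
  set Z : Set (OnePoint ℂ) := ({OnePoint.infty} ∪ (↑) '' {s | s ∉ C.F ∧ dif C.u s 1 = 0}) ∪
    {x ∈ C.D | ∃ x' ∈ C.D, C.U x = C.U x' ∧ map C.U (𝓝 x) ≠ map C.U (𝓝 x')} with hZ
  have fZ : Z.Finite := ((finite_singleton _).union (C.crit_finite.image _)).union (C.bad_finite C)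
  have dZ : Z ⊆ C.D := by
    rintro x ((rfl | ⟨s, hs, rfl⟩) | hx)
    exacts [C.infty_mem_D, (C.coe_mem_D s).2 hs.1, hx.1]
  have fib : ∀ p ∈ O.W, {s | s ∉ C.F ∧ C.u s = p}.Finite := fun p hp =>
    ((C.fibre_finite hp).preimage OnePoint.coe_injective.injOn).subset fun s hs =>
      ⟨(C.coe_mem_D s).2 hs.1, hs.2⟩
  set Bad : Set ℂ := {s | s ∈ C.F ∨ C.u s ∈ C.U '' Z} with hBad
  have fB : Bad.Finite := by
    refine (C.F.finite_toSet.union (fZ.biUnion fun x hx => fib _ (C.U_mem (dZ hx)))).subset ?_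
    intro s hs
    by_cases hF : s ∈ C.F
    · exact Or.inl hF
    · obtain ⟨x, hx, e⟩ := hs.resolve_left hF
      exact Or.inr (mem_biUnion hx ⟨hF, e.symm⟩)
  have nF : ∀ s ∉ Bad, s ∉ C.F := fun s hs h => hs (Or.inl h)
  have nZ : ∀ s ∉ Bad, ∀ x ∈ Z, C.U x ≠ C.u s := fun s hs x hx e => hs (Or.inr ⟨x, hx, e⟩)
  have nc : ∀ s ∉ Bad, dif C.u s 1 ≠ 0 := fun s hs h =>
    nZ s hs s (Or.inl (Or.inr ⟨s, ⟨nF s hs, h⟩, rfl⟩)) rfl
  obtain ⟨P, r, h1, h2, h3⟩ := exists_rat C.u fB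
    (fun s hs => (fib _ (C.mu (nF s hs))).subset fun s' hs' => ⟨nF s' hs'.1, hs'.2⟩)
    (fun s hs s' hs' e => by
      refine (C.gd_holG (nF s hs)).factor (C.gd_holG (nF s' hs')) (C.mu (nF s hs)) e (nc s' hs') ?_
      rw [← C.gd_map, ← C.gd_map]
      by_contra hne
      exact nZ s hs s (Or.inr ⟨(C.coe_mem_D s).2 (nF s hs), s', (C.coe_mem_D s').2 (nF s' hs'),
        e.symm, fun h => hne h.le⟩) rfl)
    (fun s hs => (C.gd_holG (nF s hs)).injOn (C.mu (nF s hs)) (nc s hs))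
    (fun s hs V hV => by
      have hV' : ((↑) : ℂ → OnePoint ℂ) '' V ∈ 𝓝ˢ {x ∈ C.D | C.U x = C.u s} := by
        refine mem_nhdsSet_iff_forall.2 fun x hx => ?_
        induction x using OnePoint.rec with
        | infty => exact (nZ s hs _ (Or.inl (Or.inl rfl)) hx.2).elim
        | coe a =>
          refine OnePoint.isOpenEmbedding_coe.isOpenMap.image_mem_nhds
            (mem_nhdsSet_iff_forall.1 hV a ⟨?_, hx.2⟩)
          rintro (h | ⟨y, hy, e⟩)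
          · exact (C.coe_mem_D a).1 hx.1 h
          · exact nZ s hs y hy (e.trans hx.2)
      filter_upwards [(C.gd_holG (nF s hs)).cont.eventually (C.nbhd (C.mu (nF s hs)) hV')]
        with z hz z' hz' e
      obtain ⟨w, hw, e'⟩ := hz z' ((C.coe_mem_D z').2 (nF z' hz')) e
      exact OnePoint.coe_injective e' ▸ hw)
  exact ⟨Bad, P, r, fB, fun s hs => Or.inl hs, h1, h2, h3⟩

end Pool.Agent.Lib.MP_1c0d65_gt.PW
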