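import Mathlib

/-! Germs at the origin of the plane whose derivative has a complex leading term. -/

namespace Pool.Agent.Lib.MP_1c0d65_gt.B

open Filter Topology Asymptotics

set_option linter.unusedSectionVars false

variable {E : Type*} [NormedAddCommGroup E] [NormedSpace ℝ E] [NormedSpace ℂ E]
  [IsScalarTower ℝ ℂ E]

/-- The real linear map `h ↦ h • b`. -/
noncomputable def sm (b : E) : ℂ →L[ℝ] E :=
  (ContinuousLinearMap.toSpanSingleton ℂ b).restrictScalars ℝ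

@[simp] theorem sm_apply (b : E) (h : ℂ) : sm b h = h • b := rfl

theorem norm_sm_le (b : E) : ‖sm b‖ ≤ ‖b‖ :=
  ContinuousLinearMap.opNorm_le_bound _ (norm_nonneg _) fun h => by
    rw [sm_apply, norm_smul, mul_comm]

theorem sm_sub (a b : E) : sm a - sm b = sm (a - b) := by
  ext1 h; simp [smul_sub]

/-- `u = z ^ (l + 1) • a + ...`, together with the derivative. -/
structure Ord (n : WithTop ℕ∞) (u : ℂ → E) (l : ℕ) (a : E) : Prop where
  zero : u 0 = 0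
  cont : ContinuousAt u 0
  cd : ∀ᶠ z in 𝓝[≠] (0 : ℂ), ContDiffAt ℝ n u z
  d : (fun z => fderiv ℝ u z - sm (((l + 1 : ℂ) * z ^ l) • a)) =o[𝓝[≠] 0] fun z : ℂ => z ^ l

theorem hasFDerivAt_pow_smul (l : ℕ) (a : E) (z : ℂ) :
    HasFDerivAt (fun w : ℂ => w ^ (l + 1) • a) (sm (((l + 1 : ℂ) * z ^ l) • a)) z := by
  have h := ((hasDerivAt_pow (l + 1) z).smul_const a).hasFDerivAt.restrictScalars ℝ
  simpa [sm] using h

variable {n : WithTop ℕ∞} {u : ℂ → E} {l : ℕ} {a : E}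

theorem Ord.mono {m : WithTop ℕ∞} (h : Ord n u l a) (hm : m ≤ n) : Ord m u l a :=
  ⟨h.zero, h.cont, h.cd.mono fun _ hz => hz.of_le hm, h.d⟩

theorem Ord.diff (h : Ord n u l a) (hn : n ≠ 0) :
    ∀ᶠ z in 𝓝[≠] (0 : ℂ), DifferentiableAt ℝ u z :=
  h.cd.mono fun _ hz => hz.differentiableAt hn

theorem Ord.val (h : Ord n u l a) (hn : n ≠ 0) :
    (fun z => u z - z ^ (l + 1) • a) =o[𝓝 0] fun z : ℂ => z ^ (l + 1) := by
  rw [isLittleO_iff]
  intro ε hε
  have h1 := (h.diff hn).and (isLittleO_iff.1 h.d hε)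
  rw [eventually_nhdsWithin_iff, Metric.eventually_nhds_iff] at h1
  obtain ⟨δ, hδ, h1⟩ := h1
  filter_upwards [Metric.ball_mem_nhds (0 : ℂ) hδ] with z hz
  by_cases z0 : z = 0
  · simp [z0, h.zero]
  set r : ℂ → E := fun w => u w - w ^ (l + 1) • a with hr
  have hz' : ‖z‖ < δ := by simpa using hz
  have hγ : ∀ t : ℝ, HasDerivAt (fun s : ℝ => ((1 - s : ℝ) : ℂ) * z) (-z) t := fun t => by
    have := ((hasDerivAt_id t).const_sub 1).ofReal_comp.mul_const z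
    simpa using this
  have hn1 : ∀ t ∈ Set.Icc (0 : ℝ) 1, ‖((1 - t : ℝ) : ℂ) * z‖ ≤ ‖z‖ := fun t ht => by
    rw [norm_mul, Complex.norm_real, Real.norm_eq_abs, abs_of_nonneg (by linarith [ht.2])]
    nlinarith [norm_nonneg z, ht.1]
  have hne : ∀ t : ℝ, t < 1 → ((1 - t : ℝ) : ℂ) * z ≠ 0 := fun t ht =>
    mul_ne_zero (by exact_mod_cast (by linarith : (1 - t : ℝ) ≠ 0)) z0
  have hd : ∀ t ∈ Set.Ico (0 : ℝ) 1, HasFDerivAt r (fderiv ℝ u (((1 - t : ℝ) : ℂ) * z) -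
      sm (((l + 1 : ℂ) * (((1 - t : ℝ) : ℂ) * z) ^ l) • a)) (((1 - t : ℝ) : ℂ) * z) :=
    fun t ht => ((h1 (by simpa using (hn1 t ⟨ht.1, ht.2.le⟩).trans_lt hz')
      (hne t ht.2)).1.hasFDerivAt).sub (hasFDerivAt_pow_smul l a _)
  have key := norm_image_sub_le_of_norm_deriv_right_le_segment
    (f := fun s : ℝ => r (((1 - s : ℝ) : ℂ) * z)) (a := 0) (b := 1) (C := ε * ‖z ^ (l + 1)‖)
    (f' := fun t => (fderiv ℝ u (((1 - t : ℝ) : ℂ) * z) -
      sm (((l + 1 : ℂ) * (((1 - t : ℝ) : ℂ) * z) ^ l) • a)) (-z))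
    (fun t ht => by
      rcases ht.2.lt_or_eq with h2 | rfl
      · exact ((hd t ⟨ht.1, h2⟩).continuousAt.comp (f := fun s : ℝ => ((1 - s : ℝ) : ℂ) * z)
          (hγ t).continuousAt).continuousWithinAt
      · have : ContinuousAt r ((((1 : ℝ) - 1 : ℝ) : ℂ) * z) := by
          simp only [sub_self, Complex.ofReal_zero, zero_mul]
          exact h.cont.sub (by fun_prop)
        exact (this.comp (f := fun s : ℝ => ((1 - s : ℝ) : ℂ) * z)
          (hγ 1).continuousAt).continuousWithinAt)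
    (fun t ht => (HasFDerivAt.comp_hasDerivAt (f := fun s : ℝ => ((1 - s : ℝ) : ℂ) * z) t (hd t ht)
      (hγ t)).hasDerivWithinAt)
    (fun t ht => by
      have h2 := (h1 (by simpa using (hn1 t ⟨ht.1, ht.2.le⟩).trans_lt hz') (hne t ht.2)).2
      refine (ContinuousLinearMap.le_opNorm _ _).trans ?_
      rw [norm_neg, norm_pow, pow_succ, ← mul_assoc]
      refine mul_le_mul_of_nonneg_right (h2.trans ?_) (norm_nonneg _)
      rw [norm_pow]
      exact mul_le_mul_of_nonneg_left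
        (pow_le_pow_left₀ (norm_nonneg _) (hn1 t ⟨ht.1, ht.2.le⟩) l) hε.le)
    1 ⟨zero_le_one, le_rfl⟩
  simpa [hr, h.zero, norm_sub_rev] using key

theorem tendsto_of_littleO {f : ℂ → E} {k : ℕ} {b : E}
    (h : (fun z => f z - z ^ k • b) =o[𝓝[≠] 0] fun z : ℂ => z ^ k) :
    Tendsto (fun z => (z ^ k)⁻¹ • f z) (𝓝[≠] 0) (𝓝 b) := by
  rw [tendsto_iff_norm_sub_tendsto_zero]
  have h1 := h.norm_norm.tendsto_div_nhds_zero
  refine h1.congr' ?_
  filter_upwards [self_mem_nhdsWithin] with z hz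
  have : (z ^ k : ℂ) ≠ 0 := pow_ne_zero _ hz
  rw [show (z ^ k)⁻¹ • f z - b = (z ^ k)⁻¹ • (f z - z ^ k • b) by
    rw [smul_sub, inv_smul_smul₀ this], norm_smul, norm_inv, div_eq_inv_mul]

theorem littleO_of_tendsto {f : ℂ → E} {k : ℕ} {b : E}
    (h : Tendsto (fun z => (z ^ k)⁻¹ • f z) (𝓝[≠] 0) (𝓝 b)) :
    (fun z => f z - z ^ k • b) =o[𝓝[≠] 0] fun z : ℂ => z ^ k := by
  rw [tendsto_iff_norm_sub_tendsto_zero] at h
  rw [isLittleO_iff]
  intro ε hε
  filter_upwards [self_mem_nhdsWithin, h.eventually (gt_mem_nhds hε)] with z hz h1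
  have : (z ^ k : ℂ) ≠ 0 := pow_ne_zero _ hz
  rw [show f z - z ^ k • b = (z ^ k) • ((z ^ k)⁻¹ • f z - b) by
    rw [smul_sub, smul_inv_smul₀ this], norm_smul, mul_comm]
  exact mul_le_mul_of_nonneg_right h1.le (norm_nonneg _)

theorem Ord.tendsto (h : Ord n u l a) (hn : n ≠ 0) :
    Tendsto (fun z => (z ^ (l + 1))⁻¹ • u z) (𝓝[≠] 0) (𝓝 a) :=
  tendsto_of_littleO ((h.val hn).mono nhdsWithin_le_nhds)

theorem Ord.ne_zero (h : Ord n u l a) (hn : n ≠ 0) (ha : a ≠ 0) :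
    ∀ᶠ z in 𝓝[≠] (0 : ℂ), u z ≠ 0 :=
  ((h.tendsto hn).eventually_ne ha).mono fun z hz e => hz (by simp [e])

theorem Ord.tendsto_pn {σ : ℂ → ℂ} {c : ℂ} (h : Ord n σ l c) (hn : n ≠ 0) (hc : c ≠ 0) :
    Tendsto σ (𝓝[≠] 0) (𝓝[≠] 0) :=
  tendsto_nhdsWithin_iff.2 ⟨by
    have := h.cont.tendsto
    rw [h.zero] at this
    exact this.mono_left nhdsWithin_le_nhds, h.ne_zero hn hc⟩

theorem Ord.bigO (h : Ord n u l a) (hn : n ≠ 0) : u =O[𝓝 0] fun z : ℂ => z ^ (l + 1) := by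
  have h1 : (fun z : ℂ => z ^ (l + 1) • a) =O[𝓝 0] fun z : ℂ => z ^ (l + 1) :=
    IsBigO.of_bound ‖a‖ (Eventually.of_forall fun z => by rw [norm_smul, mul_comm])
  simpa using (h.val hn).isBigO.add h1

theorem Ord.d_bigO (h : Ord n u l a) : fderiv ℝ u =O[𝓝[≠] 0] fun z : ℂ => z ^ l := by
  have h1 : (fun z : ℂ => sm (((l + 1 : ℂ) * z ^ l) • a)) =O[𝓝[≠] 0] fun z : ℂ => z ^ l :=
    IsBigO.of_bound (‖(l + 1 : ℂ)‖ * ‖a‖) (Eventually.of_forall fun z =>
      (norm_sm_le _).trans (by rw [norm_smul, norm_mul]; exact le_of_eq (by ring)))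
  simpa using h.d.isBigO.add h1

theorem Ord.d_bound (h : Ord n u l a) : ∃ K, 0 ≤ K ∧ ∀ᶠ z in 𝓝[≠] (0 : ℂ), ‖fderiv ℝ u z‖ ≤ K := by
  obtain ⟨K, hK, h1⟩ := h.d_bigO.exists_nonneg
  refine ⟨K, hK, ?_⟩
  filter_upwards [h1.bound, mem_nhdsWithin_of_mem_nhds (Metric.ball_mem_nhds (0 : ℂ) one_pos)]
    with z h2 h3
  have : ‖z ^ l‖ ≤ 1 := by
    rw [norm_pow]; exact pow_le_one₀ (norm_nonneg _) (le_of_lt (by simpa using h3))
  nlinarith

theorem ord_pow (n : WithTop ℕ∞) (m : ℕ) (c : ℂ) : Ord n (fun z : ℂ => z ^ (m + 1) • c) m c :=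
  ⟨by simp, by fun_prop, Eventually.of_forall fun z =>
      ((contDiff_id.pow (m + 1)).smul (contDiff_const (𝕜 := ℝ))).contDiffAt,
    by simp only [(hasFDerivAt_pow_smul m c _).fderiv, sub_self]; exact isLittleO_zero _ _⟩

/-- Complex linear maps preserve the leading term. -/
theorem Ord.clm {F : Type*} [NormedAddCommGroup F] [NormedSpace ℝ F] [NormedSpace ℂ F]
    [IsScalarTower ℝ ℂ F] (h : Ord n u l a) (hn : n ≠ 0) (A : E →L[ℝ] F)
    (hA : ∀ (c : ℂ) v, A (c • v) = c • A v) : Ord n (fun z => A (u z)) l (A a) := by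
  refine ⟨by simp [h.zero], A.continuous.continuousAt.comp h.cont,
    h.cd.mono fun z hz => A.contDiff.contDiffAt.comp z hz, ?_⟩
  refine (IsBigO.of_bound ‖A‖ ?_).trans_isLittleO h.d
  filter_upwards [h.diff hn] with z hz
  have : fderiv ℝ (fun z => A (u z)) z - sm (((l + 1 : ℂ) * z ^ l) • A a) =
      A.comp (fderiv ℝ u z - sm (((l + 1 : ℂ) * z ^ l) • a)) := by
    rw [show (fun z => A (u z)) = A ∘ u from rfl, (A.hasFDerivAt.comp z hz.hasFDerivAt).fderiv]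
    ext1 h; simp [hA]
  rw [this]
  exact A.opNorm_comp_le _

theorem Ord.comp {σ : ℂ → ℂ} {m : ℕ} {c : ℂ} (h : Ord n u l a) (hσ : Ord n σ m c) (hn : n ≠ 0)
    (hc : c ≠ 0) : Ord n (fun z => u (σ z)) (l * m + l + m) (c ^ (l + 1) • a) := by
  have ht := hσ.tendsto_pn hn hc
  refine ⟨by simp [hσ.zero, h.zero], ?_, ?_, ?_⟩
  · exact ContinuousAt.comp (f := σ) (by rw [hσ.zero]; exact h.cont) hσ.cont
  · filter_upwards [ht.eventually h.cd, hσ.cd] with z h1 h2 using h1.comp z h2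
  have hp : ∀ z : ℂ, (z ^ (m + 1)) ^ l * z ^ m = z ^ (l * m + l + m) := fun z => by ring
  have b1 : (fun z => σ z ^ l) =O[𝓝[≠] 0] fun z : ℂ => (z ^ (m + 1)) ^ l :=
    ((hσ.bigO hn).mono nhdsWithin_le_nhds).pow l
  have t1 : (fun z => (fderiv ℝ u (σ z) - sm (((l + 1 : ℂ) * σ z ^ l) • a)).comp (fderiv ℝ σ z))
      =o[𝓝[≠] 0] fun z : ℂ => z ^ (l * m + l + m) := by
    have := (((h.d.comp_tendsto ht).trans_isBigO b1).norm_norm).mul_isBigO hσ.d_bigO.norm_norm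
    refine (IsBigO.of_bound 1 (Eventually.of_forall fun z => ?_)).trans_isLittleO
      (this.trans_isBigO (IsBigO.of_bound 1 (Eventually.of_forall fun z => ?_)))
    · rw [one_mul, Real.norm_of_nonneg (by positivity)]
      exact ContinuousLinearMap.opNorm_comp_le _ _
    · rw [← norm_mul, hp, norm_norm, one_mul]
  have t2 : (fun z => (sm (((l + 1 : ℂ) * σ z ^ l) • a)).comp
      (fderiv ℝ σ z - sm (((m + 1 : ℂ) * z ^ m) • c)))
      =o[𝓝[≠] 0] fun z : ℂ => z ^ (l * m + l + m) := by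
    have := b1.norm_norm.mul_isLittleO hσ.d.norm_norm
    refine (IsBigO.of_bound (‖(l + 1 : ℂ)‖ * ‖a‖) (Eventually.of_forall fun z => ?_)).trans_isLittleO
      (this.trans_isBigO (IsBigO.of_bound 1 (Eventually.of_forall fun z => ?_)))
    · rw [Real.norm_of_nonneg (by positivity), ← mul_assoc]
      refine (ContinuousLinearMap.opNorm_comp_le _ _).trans
        (mul_le_mul_of_nonneg_right ((norm_sm_le _).trans ?_) (norm_nonneg _))
      rw [norm_smul, norm_mul]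
      exact le_of_eq (by ring)
    · rw [← norm_mul, hp, norm_norm, one_mul]
  have t3 : (fun z => sm ((σ z ^ l * z ^ m - z ^ (l * m + l + m) * c ^ l) •
      (((l + 1 : ℂ) * (m + 1) * c) • a))) =o[𝓝[≠] 0] fun z : ℂ => z ^ (l * m + l + m) := by
    have h1 : Tendsto (fun z => (z ^ (l * m + l + m))⁻¹ • (σ z ^ l * z ^ m)) (𝓝[≠] 0)
        (𝓝 (c ^ l)) := by
      refine ((hσ.tendsto hn).pow l).congr' ?_
      filter_upwards [self_mem_nhdsWithin] with z hz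
      have : z ≠ 0 := hz
      rw [← hp]
      simp only [smul_eq_mul, mul_pow, inv_pow]
      field_simp
    refine (IsBigO.of_bound ‖((l + 1 : ℂ) * (m + 1) * c) • a‖
      (Eventually.of_forall fun z => ?_)).trans_isLittleO (littleO_of_tendsto h1)
    refine (norm_sm_le _).trans ?_
    rw [norm_smul, mul_comm, smul_eq_mul]
  refine ((t1.add t2).add t3).congr' ?_ EventuallyEq.rfl
  filter_upwards [ht.eventually (h.diff hn), hσ.diff hn] with z h1 h2
  rw [show (fun z => u (σ z)) = u ∘ σ from rfl, fderiv_comp z h1 h2]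
  ext1 v
  simp only [add_apply, ContinuousLinearMap.comp_apply,
    sub_apply, sm_apply, smul_smul, smul_eq_mul]
  push_cast
  module

end Pool.Agent.Lib.MP_1c0d65_gt.B
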