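import Pool.Agent.Lib.MP_1c0d65_gt.B.Glb
import Pool.Agent.Lib.MP_1c0d65_gt.B.Div
import Pool.Agent.Lib.MP_1c0d65_gt.B.Loc
import Pool.Agent.Lib.MP_1c0d65_gt.PW.OCi

/-! Branches at the punctures of an orbifold curve. -/

set_option autoImplicit false
set_option linter.unusedSectionVars false

open scoped Manifold ContDiff Topology
open Set Filter Metric Pool.Agent.Lib.MP_1c0d65_gt.B

noncomputable section

namespace Pool.Agent.Lib.MP_1c0d65_gt.PW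

variable {X : Type} [TopologicalSpace X] [ChartedSpace E X] [IsManifold 𝓘(ℝ, E) ∞ X]
  [T2Space X] [CompactSpace X] [MeasurableSpace X] [BorelSpace X] {c : Ctx X} {O : Orb c}

theorem punct_finite {S : Set ℂ} (h : ∀ a, ∀ᶠ s in 𝓝[≠] a, s ∉ S)
    (h' : ∀ᶠ s in Bornology.cobounded ℂ, s ∉ S) : S.Finite := by
  rw [Metric.cobounded_eq_cocompact, (hasBasis_cocompact).eventually_iff] at h'
  obtain ⟨K, hK, h'⟩ := h'
  by_contra hS
  obtain ⟨a, -, ha⟩ := Set.Infinite.exists_accPt_of_subset_isCompact hS hK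
    fun s hs => by_contra fun e => h' e hs
  exact accPt_iff_frequently_nhdsNE.1 ha (h a)

theorem punct_map {N : ℕ} (hN : N ≠ 0) (a : ℂ) :
    map (fun ζ : ℂ => a + ζ ^ N) (𝓝[≠] 0) = 𝓝[≠] a := by
  obtain ⟨k, rfl⟩ := Nat.exists_eq_succ_of_ne_zero hN
  have h := (Homeomorph.addLeft a).map_punctured_nhds_eq 0
  rw [← tendsto_pow_pn k, map_map] at h
  simpa [Function.comp_def] using h

theorem punct_deriv (N : ℕ) (a ζ : ℂ) :
    HasStrictDerivAt (fun ζ : ℂ => a + ζ ^ N) (N * ζ ^ (N - 1)) ζ :=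
  (hasStrictDerivAt_pow N ζ).const_add a

theorem punct_map' {N : ℕ} (hN : N ≠ 0) (a : ℂ) {ζ : ℂ} (h : ζ ≠ 0) :
    map (fun ζ : ℂ => a + ζ ^ N) (𝓝 ζ) = 𝓝 (a + ζ ^ N) :=
  (punct_deriv N a ζ).map_nhds_eq (mul_ne_zero (Nat.cast_ne_zero.2 hN) (pow_ne_zero _ h))

theorem punct_gen_mod {N : ℕ} (hN : N ≠ 0) (a m : ℕ) (z : E) : gen N a (m % N) z = gen N a m z := by
  have h : ∀ k, eps N ^ (k % N) = eps N ^ k := fun k =>
    (pow_eq_pow_mod k (mon_prim hN).pow_eq_one).symm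
  rw [gen, gen, h, ← h (a * (m % N)), Nat.mul_mod_mod, h]

theorem punct_cr {z : ℂ → E} (h : AnalyticAt ℂ z 0) :
    ∀ᶠ ζ in 𝓝 (0 : ℂ), ContDiffAt ℝ 2 z ζ ∧ CR (fun _ => mI E) z ζ := by
  filter_upwards [h.eventually_analyticAt] with ζ hζ
  refine ⟨(hζ.contDiffAt (n := 2)).restrict_scalars ℝ, ?_⟩
  rw [CR, (hζ.differentiableAt.hasDerivAt.hasFDerivAt.restrictScalars ℝ).fderiv]
  simp

variable {C : OC O} {a : ℂ} {i : Fin O.n} {j : ℕ} {z : ℂ → E}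

theorem OC.Br.zero (h : C.Br a i j z) : z 0 = 0 := h.choose_spec.2.2.1

theorem OC.Br.ev (h : C.Br a i j z) : ∀ᶠ ζ in 𝓝[≠] (0 : ℂ), ∀ᶠ t in 𝓝 ζ,
    z t ∈ pb O.R ∧ O.Pi i (z t) = C.u (a + t ^ O.N i) := by
  obtain ⟨r, hr, -, -, H⟩ := h
  filter_upwards [self_mem_nhdsWithin, nhdsWithin_le_nhds (ball_mem_nhds 0 hr)] with ζ h0 h1
  filter_upwards [isOpen_compl_singleton.mem_nhds h0, isOpen_ball.mem_nhds h1] with t t0 t1
  exact ⟨(H t t1 t0).1, (H t t1 t0).2.1⟩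

theorem OC.Br.gen_ne (h : C.Br a i j z) (m : ℕ) : ¬gen (O.N i) (O.a i) m ∘ z =ᶠ[𝓝 0] 0 := fun e => by
  obtain ⟨ζ, h1, h2⟩ := (h.ev.and (e.filter_mono nhdsWithin_le_nhds)).exists
  exact (mon_gen_pb (O.N_ne i) _ m h1.self_of_nhds.1).2 h2

theorem OC.Br.ne (h : C.Br a i j z) : ¬z =ᶠ[𝓝 0] 0 := fun e => by
  obtain ⟨ζ, h1, h2⟩ := (h.ev.and (e.filter_mono nhdsWithin_le_nhds)).exists
  exact h1.self_of_nhds.1.2 h2

theorem OC.Br.deriv_ne (h : C.Br a i j z) : ∀ᶠ ζ in 𝓝[≠] (0 : ℂ), deriv z ζ ≠ 0 := by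
  refine h.analyticAt.deriv.eventually_eq_zero_or_eventually_ne_zero.resolve_left fun e => h.ne ?_
  obtain ⟨r, hr, H⟩ := Metric.eventually_nhds_iff_ball.1 (e.and h.analyticAt.eventually_analyticAt)
  filter_upwards [ball_mem_nhds 0 hr] with ζ hζ
  exact (isOpen_ball.is_const_of_deriv_eq_zero (convex_ball (0 : ℂ) r).isPreconnected
    (fun t ht => (H t ht).2.differentiableAt.differentiableWithinAt) (fun t ht => (H t ht).1)
    hζ (mem_ball_self hr)).trans h.zero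

theorem OC.Br.dif_ne (h : C.Br a i j z) : ∀ᶠ s in 𝓝[≠] a, dif C.u s 1 ≠ 0 := by
  rw [← punct_map (O.N_ne i) a, eventually_map]
  filter_upwards [h.ev, h.deriv_ne, nhdsWithin_le_nhds h.analyticAt.eventually_analyticAt,
    (mon_tendsto (O.N_ne i) a).eventually (C.ev_F a)] with ζ h1 h2 h3 h4 e
  have e1 : C.u ∘ (fun t => a + t ^ O.N i) =ᶠ[𝓝 ζ] O.Pi i ∘ z := h1.mono fun t ht => ht.2.symm
  have e2 := DFunLike.congr_fun (brk_dif_congr e1) 1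
  rw [brk_dif_hol (φ := fun t => a + t ^ O.N i) (C.cm h4) (punct_deriv _ a ζ).hasDerivAt, brk_lin, C.hu.2 _ h4, e,
    brk_dif_comp (brk_md (O.Pi_cm i h1.self_of_nhds.1)) (h3.differentiableAt.restrictScalars ℝ),
    (h3.differentiableAt.hasDerivAt.hasFDerivAt.restrictScalars ℝ).fderiv] at e2
  refine h2 (O.inj i _ h1.self_of_nhds.1 ?_)
  simpa using e2.symm

theorem OC.ld_punct (C C' : OC O) {a a' : ℂ} (ha : a ∈ C.F) (ha' : a' ∈ C'.F) :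
    ∀ᶠ q in 𝓝[≠] a ×ˢ 𝓝[≠] a', C.u q.1 = C'.u q.2 → map C.u (𝓝 q.1) = map C'.u (𝓝 q.2) := by
  obtain ⟨i, hi⟩ := C.pu a ha
  obtain ⟨j, -, z, h⟩ := C.exists_br hi
  obtain ⟨i', hi'⟩ := C'.pu a' ha'
  obtain ⟨j', -, z', h'⟩ := C'.exists_br hi'
  have hJ : Acs fun _ : E => mI E := ⟨contDiffAt_const, rfl, .of_forall fun _ v => by
    simp [smul_smul]⟩
  have H : ∀ᶠ p in 𝓝[≠] (0 : ℂ) ×ˢ 𝓝[≠] (0 : ℂ), ∀ m : Fin (O.N i),
      (gen (O.N i) (O.a i) m ∘ z) p.1 = z' p.2 →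
        map (gen (O.N i) (O.a i) m ∘ z) (𝓝 p.1) = map z' (𝓝 p.2) := by
    refine eventually_all.2 fun m => (ld hJ (punct_cr ?_) ?_ (h.gen_ne m) (punct_cr h'.analyticAt)
      h'.zero h'.ne).filter_mono (prod_mono le_rfl nhdsWithin_le_nhds)
    · exact (analyticAt_const.mul (analyticAt_fst.comp h.analyticAt)).prod
        (analyticAt_const.mul (analyticAt_snd.comp h.analyticAt))
    · simp [h.zero, gen]
  rw [← punct_map (O.N_ne i) a, ← punct_map (O.N_ne i') a', prod_map_map_eq, eventually_map]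
  filter_upwards [H, (h.ev.and self_mem_nhdsWithin).prod_mk (h'.ev.and self_mem_nhdsWithin)]
    with p h1 ⟨⟨h2, h3⟩, h4, h5⟩ e
  obtain ⟨rfl, m, hm⟩ := (O.fibre i i' _ h2.self_of_nhds.1 _ h4.self_of_nhds.1).1
    (h2.self_of_nhds.2.trans (e.trans h4.self_of_nhds.2.symm))
  have h6 := congrArg (map (O.Pi i)) (h1 ⟨m % O.N i, Nat.mod_lt _ (O.N_ne i).pos⟩
    ((punct_gen_mod (O.N_ne i) _ m _).trans hm.symm))
  rw [← punct_map' (O.N_ne i) a h3, ← punct_map' (O.N_ne i) a' h5, map_map, map_map]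
  rw [map_map, map_map] at h6
  refine (Filter.map_congr ?_).trans (h6.trans (Filter.map_congr ?_))
  · exact h2.mono fun t ht => ht.2.symm.trans (O.Pi_gen i ht.1 _).symm
  · exact h4.mono fun t ht => ht.2

end Pool.Agent.Lib.MP_1c0d65_gt.PW
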