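import Pool.Agent.Lib.MP_1c0d65_gt.B.Ch

/-! Rational maps with simple poles: continuity, fibres, local form. -/

namespace Pool.Agent.Lib.MP_1c0d65_gt.B

open Filter Topology Polynomial

variable {P : Finset ℂ} {r : ℂ → ℂ}

theorem rat_infty : rat P r OnePoint.infty = ((0 : ℂ) : OnePoint ℂ) := rfl

theorem rat_of_mem {z : ℂ} (h : z ∈ P) : rat P r z = OnePoint.infty := if_pos h

theorem rat_of_notMem {z : ℂ} (h : z ∉ P) :
    rat P r z = ((∑ c ∈ P, r c / (z - c) : ℂ) : OnePoint ℂ) := if_neg h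

/-- numerator and denominator -/
theorem rat_poly (hr : ∀ c ∈ P, r c ≠ 0) : ∃ N Q : ℂ[X], Q.Monic ∧ Q.natDegree = P.card ∧
    N.degree < Q.degree ∧ (∀ c ∈ P, Q.eval c = 0 ∧ N.eval c ≠ 0) ∧
    ∀ z ∉ P, ∀ a, ∑ c ∈ P, r c / (z - c) = a ↔ (C a * Q - N).eval z = 0 := by
  have hQ : ∀ s : Finset ℂ, (∏ c ∈ s, (X - C c)).natDegree = s.card := fun s =>
    natDegree_finsetProd_X_sub_C_eq_card s id
  have mQ : ∀ s : Finset ℂ, (∏ c ∈ s, (X - C c)).Monic := fun s => monic_prod_X_sub_C id s
  refine ⟨∑ c ∈ P, C (r c) * ∏ d ∈ P.erase c, (X - C d), ∏ c ∈ P, (X - C c), mQ P, hQ P, ?_,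
    fun c hc => ⟨?_, ?_⟩, fun z hz a => ?_⟩
  · rw [degree_eq_natDegree (mQ P).ne_zero, hQ]
    refine (degree_sum_le _ _).trans_lt ((Finset.sup_lt_iff (WithBot.bot_lt_coe _)).2
      fun c hc => ?_)
    rw [degree_C_mul (hr c hc), degree_eq_natDegree (mQ _).ne_zero, hQ]
    exact_mod_cast Finset.card_erase_lt_of_mem hc
  · rw [eval_prod]
    exact Finset.prod_eq_zero hc (by simp)
  · rw [eval_finsetSum, Finset.sum_eq_single_of_mem c hc fun d _ hd => ?_]
    · rw [eval_mul, eval_C, eval_prod]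
      exact mul_ne_zero (hr c hc) (Finset.prod_ne_zero_iff.2 fun d hd => by
        simpa [sub_eq_zero] using (Finset.ne_of_mem_erase hd).symm)
    · rw [eval_mul, eval_prod, Finset.prod_eq_zero (Finset.mem_erase.2 ⟨hd.symm, hc⟩) (by simp),
        mul_zero]
  · have h0 : ∀ c ∈ P, z - c ≠ 0 := fun c hc => sub_ne_zero.2 fun e => hz (e ▸ hc)
    have e : (∑ c ∈ P, r c / (z - c)) * ∏ c ∈ P, (z - c) =
        ∑ c ∈ P, r c * ∏ d ∈ P.erase c, (z - d) := by
      rw [Finset.sum_mul]
      refine Finset.sum_congr rfl fun c hc => ?_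
      rw [← Finset.mul_prod_erase P _ hc, ← mul_assoc, div_mul_cancel₀ _ (h0 c hc)]
    simp only [eval_sub, eval_mul, eval_C, eval_prod, eval_finsetSum, eval_X, ← e, ← sub_mul]
    rw [mul_eq_zero, or_iff_left (Finset.prod_ne_zero_iff.2 h0), sub_eq_zero, eq_comm]

theorem rat_surjective (hP : P.Nonempty) (hr : ∀ c ∈ P, r c ≠ 0) :
    Function.Surjective (rat P r) := fun w => by
  induction w using OnePoint.rec with
  | infty => exact ⟨hP.choose, rat_of_mem hP.choose_spec⟩
  | coe a =>
    rcases eq_or_ne a 0 with rfl | ha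
    · exact ⟨_, rat_infty⟩
    obtain ⟨N, Q, mQ, nQ, d, h, e⟩ := rat_poly hr
    obtain ⟨z, hz⟩ := IsAlgClosed.exists_root (C a * Q - N) (by
      rw [degree_sub_eq_left_of_degree_lt (by rwa [degree_C_mul ha]), degree_C_mul ha,
        degree_eq_natDegree mQ.ne_zero, nQ]
      exact_mod_cast hP.card_pos.ne')
    have hzP : z ∉ P := fun c => (h z c).2 (by simpa [(h z c).1] using hz)
    exact ⟨z, (rat_of_notMem hzP).trans (congrArg _ ((e z hzP a).2 hz))⟩

theorem rat_fibre (hP : P.Nonempty) (hr : ∀ c ∈ P, r c ≠ 0) (w : OnePoint ℂ) :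
    (rat P r ⁻¹' {w}).Finite ∧ (rat P r ⁻¹' {w}).ncard ≤ P.card := by
  classical
  suffices ∃ s : Finset (OnePoint ℂ), rat P r ⁻¹' {w} ⊆ s ∧ s.card ≤ P.card by
    obtain ⟨s, h1, h2⟩ := this
    exact ⟨s.finite_toSet.subset h1,
      (Set.ncard_le_ncard h1 s.finite_toSet).trans (by rwa [Set.ncard_coe_finset])⟩
  induction w using OnePoint.rec with
  | infty =>
    refine ⟨P.image (↑), fun x hx => ?_, Finset.card_image_le⟩
    induction x using OnePoint.rec with
    | infty => exact absurd hx (OnePoint.coe_ne_infty _)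
    | coe z =>
      refine Finset.mem_image_of_mem _ (by_contra fun h => ?_)
      exact OnePoint.coe_ne_infty _ ((rat_of_notMem h).symm.trans hx)
  | coe a =>
    obtain ⟨N, Q, mQ, nQ, d, h, e⟩ := rat_poly hr
    obtain ⟨c, hc⟩ := hP
    have n0 : C a * Q - N ≠ 0 := fun e => (h c hc).2 (by
      simpa [(h c hc).1] using congrArg (eval c) e)
    have key : ∀ z : ℂ, rat P r z = a →
        (z : OnePoint ℂ) ∈ (C a * Q - N).roots.toFinset.image (↑) := fun z hz => by
      have hzP : z ∉ P := fun c => OnePoint.coe_ne_infty _ (hz.symm.trans (rat_of_mem c))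
      exact Finset.mem_image_of_mem _ (Multiset.mem_toFinset.2 ((mem_roots n0).2
        ((e z hzP a).1 (OnePoint.coe_injective ((rat_of_notMem hzP).symm.trans hz)))))
    have cd : ((C a * Q - N).roots.toFinset.image ((↑) : ℂ → OnePoint ℂ)).card ≤
        (C a * Q - N).natDegree :=
      Finset.card_image_le.trans ((Multiset.toFinset_card_le _).trans (card_roots' _))
    rcases eq_or_ne a 0 with rfl | ha
    · refine ⟨insert OnePoint.infty _, fun x hx => ?_, (Finset.card_insert_le _ _).trans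
        ((Nat.succ_le_succ cd).trans ?_)⟩
      · induction x using OnePoint.rec with
        | infty => exact Finset.mem_insert_self _ _
        | coe z => exact Finset.mem_insert_of_mem (key z hx)
      · rw [← nQ]
        exact natDegree_lt_natDegree n0 (by simpa using d)
    · refine ⟨_, fun x hx => ?_, cd.trans ?_⟩
      · induction x using OnePoint.rec with
        | infty => exact absurd (OnePoint.coe_injective hx).symm ha
        | coe z => exact key z hx
      · rw [← nQ]
        exact natDegree_le_natDegree (by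
          rw [degree_sub_eq_left_of_degree_lt (by rwa [degree_C_mul ha]), degree_C_mul ha])

theorem rat_local (hP : P.Nonempty) (hr : ∀ c ∈ P, r c ≠ 0) (x : OnePoint ℂ) :
    ∃ f : ℂ → ℂ, AnalyticAt ℂ f 0 ∧ f 0 = 0 ∧ ¬f =ᶠ[𝓝 0] 0 ∧
      ∀ᶠ z in 𝓝 (0 : ℂ), rat P r (ch x z) = ch (rat P r x) (f z) := by
  classical
  suffices ∃ f : ℂ → ℂ, AnalyticAt ℂ f 0 ∧ f 0 = 0 ∧
      ∀ᶠ z in 𝓝 (0 : ℂ), rat P r (ch x z) = ch (rat P r x) (f z) by
    obtain ⟨f, h1, h2, h3⟩ := this
    refine ⟨f, h1, h2, fun h => infinite_of_mem_nhds (0 : ℂ) (h3.and h)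
      (((rat_fibre hP hr (rat P r x)).1.preimage (ch_isOpenEmbedding x).injective.injOn).subset
        fun z hz => ?_), h3⟩
    exact hz.1.trans (by rw [hz.2]; exact ch_zero _)
  have an : ∀ (s : Finset ℂ) (a : ℂ), a ∉ s →
      AnalyticAt ℂ (fun z => ∑ c ∈ s, r c / (a + z - c)) 0 ∧ ∀ᶠ z in 𝓝 (0 : ℂ), a + z ∉ s :=
    fun s a ha => ⟨s.analyticAt_fun_sum fun c hc => analyticAt_const.div (by fun_prop)
      (by simpa [sub_eq_zero] using fun e : a = c => ha (e ▸ hc)),
      (show ContinuousAt (fun z : ℂ => a + z) 0 by fun_prop).eventually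
        (s.finite_toSet.isClosed.isOpen_compl.mem_nhds (by simpa using ha))⟩
  induction x using OnePoint.rec with
  | infty =>
    refine ⟨fun z => ∑ c ∈ P, r c * z / (1 - c * z), P.analyticAt_fun_sum fun c _ =>
      (analyticAt_const.mul analyticAt_id).div (by fun_prop) (by simp), by simp, ?_⟩
    filter_upwards [(eventually_all_finset P).2 fun c _ =>
      (show ContinuousAt (fun z : ℂ => 1 - c * z) 0 by fun_prop).eventually_ne
        (y := 0) (by simp)] with z hz
    change rat P r (if z = 0 then _ else _) = ((0 + _ : ℂ) : OnePoint ℂ)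
    split_ifs with h0
    · simp [h0, rat_infty]
    · rw [rat_of_notMem fun c => hz _ c (by simp [h0]), zero_add]
      refine congrArg _ (Finset.sum_congr rfl fun c hc => ?_)
      have := hz c hc
      rw [div_eq_div_iff (fun e => this (by rw [← sub_eq_zero.1 e]; simp [h0])) this]
      field_simp
  | coe a =>
    by_cases ha : a ∈ P
    · obtain ⟨h1, h2⟩ := an (P.erase a) a (Finset.notMem_erase _ _)
      have h3 : AnalyticAt ℂ (fun z => r a + z * ∑ c ∈ P.erase a, r c / (a + z - c)) 0 :=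
        analyticAt_const.add (analyticAt_id.mul h1)
      have h4 : r a + 0 * ∑ c ∈ P.erase a, r c / (a + 0 - c) ≠ 0 := by simpa using hr a ha
      refine ⟨fun z => z / (r a + z * ∑ c ∈ P.erase a, r c / (a + z - c)),
        analyticAt_id.div h3 h4, by simp, ?_⟩
      filter_upwards [h2, h3.continuousAt.eventually_ne h4] with z hz hz'
      rw [rat_of_mem ha]
      change rat P r ((a + z : ℂ) : OnePoint ℂ) = if _ then _ else _
      rcases eq_or_ne z 0 with rfl | h0
      · simp [rat_of_mem ha]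
      · rw [if_neg (div_ne_zero h0 hz'), rat_of_notMem fun c => hz (Finset.mem_erase.2
          ⟨by simpa using h0, c⟩), ← Finset.add_sum_erase P _ ha, inv_div, add_sub_cancel_left,
          add_div, mul_div_cancel_left₀ _ h0]
    · obtain ⟨h1, h2⟩ := an P a ha
      refine ⟨fun z => ∑ c ∈ P, r c / (a + z - c) - ∑ c ∈ P, r c / (a - c),
        h1.sub analyticAt_const, by simp, ?_⟩
      filter_upwards [h2] with z hz
      rw [rat_of_notMem ha]
      change rat P r ((a + z : ℂ) : OnePoint ℂ) = ((_ + _ : ℂ) : OnePoint ℂ)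
      rw [rat_of_notMem hz, add_sub_cancel]

theorem rat_continuous (hP : P.Nonempty) (hr : ∀ c ∈ P, r c ≠ 0) : Continuous (rat P r) :=
  continuous_iff_continuousAt.2 fun x => by
    obtain ⟨f, h1, h2, -, h3⟩ := rat_local hP hr x
    have h4 : Tendsto (fun z => ch (rat P r x) (f z)) (𝓝 0) (𝓝 (rat P r x)) := by
      simpa [ContinuousAt, Function.comp_def, h2, ch_zero] using
        (ch_isOpenEmbedding (rat P r x)).continuous.continuousAt.comp h1.continuousAt
    have h5 := (ch_isOpenEmbedding x).map_nhds_eq 0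
    rw [ch_zero] at h5
    rw [ContinuousAt]
    nth_rewrite 1 [← h5]
    exact tendsto_map'_iff.2 (h4.congr' (h3.mono fun z hz => hz.symm))

end Pool.Agent.Lib.MP_1c0d65_gt.B
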