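import Pool.Agent.Lib.MP_1c0d65_gt.B.Sphere
import Pool.Agent.Lib.MP_1c0d65_gt.B.GermB
import Pool.Agent.Lib.MP_1c0d65_gt.B.Rat
import Pool.Agent.Lib.MP_1c0d65_gt.B.Div

/-! An orbifold curve factors through a rational map of the sphere. -/

set_option autoImplicit false
set_option linter.unusedSectionVars false

open scoped Manifold ContDiff Topology
open Set Filter Metric Pool.Agent.Lib.MP_1c0d65_gt.B

noncomputable section

namespace Pool.Agent.Lib.MP_1c0d65_gt.PW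

theorem map_rat_ne {P : Finset ℂ} {r : ℂ → ℂ} (hP : P.Nonempty) (hr : ∀ a ∈ P, r a ≠ 0)
    (x : OnePoint ℂ) : map (rat P r) (𝓝[≠] x) = 𝓝[≠] (rat P r x) := by
  obtain ⟨f, h1, h2, h3, h4⟩ := rat_local hP hr x
  rw [← map_ch_ne x, ← map_ch_ne (rat P r x), map_map]
  conv_rhs => rw [← (map_nhds_of_analytic h1 h2 h3).2, map_map]
  exact map_congr (mem_nhdsWithin_of_mem_nhds h4)

variable {X : Type} [TopologicalSpace X] [ChartedSpace E X] [IsManifold 𝓘(ℝ, E) ∞ X]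
  [T2Space X] [CompactSpace X] [MeasurableSpace X] [BorelSpace X] {c : Ctx X} {O : Orb c}

theorem OC.exists_quot (C : OC O) {Bad : Set ℂ} {P : Finset ℂ} {r : ℂ → ℂ} (hB : Bad.Finite)
    (hF : (C.F : Set ℂ) ⊆ Bad) (hP : P.Nonempty) (hr : ∀ a ∈ P, a ∉ Bad ∧ r a ≠ 0) (h : ∀ s ∉ Bad,
      ∀ x : OnePoint ℂ, rat P r x = rat P r s ↔ ∃ s' ∉ Bad, x = s' ∧ C.u s' = C.u s) :
    ∃ U' : OnePoint ℂ → X, (∀ x ∈ C.D, U' (rat P r x) = C.U x) ∧
      (∀ x ∈ C.D, ∀ x', rat P r x' = rat P r x → x' ∈ C.D) ∧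
      (∀ x, map U' (𝓝[≠] (rat P r x)) = map C.U (𝓝[≠] x)) ∧
      ∀ x ∈ C.D, HolG O.J (fun s => U' (ch (rat P r x) s)) 0 := by
  have hr' : ∀ a ∈ P, r a ≠ 0 := fun a ha => (hr a ha).2
  have hs := rat_surjective hP hr'
  set U' : OnePoint ℂ → X := fun w => C.U (Function.surjInv hs w)
  have h1 : ∀ x : OnePoint ℂ, ∀ᶠ y in 𝓝[≠] x, y ∈ C.D ∧ U' (rat P r y) = C.U y := fun x => by
    filter_upwards [nhdsNE_le_cofinite x ((hB.image ((↑) : ℂ → OnePoint ℂ)).insert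
      OnePoint.infty).compl_mem_cofinite] with y hy
    induction y using OnePoint.rec with
    | infty => exact absurd (mem_insert _ _) hy
    | coe s =>
      have hb : s ∉ Bad := fun hb => hy (mem_insert_of_mem _ (mem_image_of_mem _ hb))
      obtain ⟨s', -, e1, e2⟩ := (h s hb _).1 (Function.surjInv_eq hs _)
      exact ⟨(C.coe_mem_D s).2 fun hf => hb (hF hf), (congrArg C.U e1).trans e2⟩
  have h2 : ∀ x, map U' (𝓝[≠] (rat P r x)) = map C.U (𝓝[≠] x) := fun x => by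
    rw [← map_rat_ne hP hr', map_map]
    exact map_congr ((h1 x).mono fun y hy => hy.2)
  have h3 : ∀ x ∈ C.D, ∀ x', rat P r x' = rat P r x → x' ∈ C.D ∧ C.U x' = C.U x :=
    fun x hx x' e => by
      have : (𝓝[≠] x').NeBot := map_ch_ne x' ▸ map_neBot
      refine C.proper nhdsWithin_le_nhds ((h1 x').mono fun y hy => hy.1) (C.U_mem hx) ?_
      rw [Tendsto, ← h2, e, h2]
      exact (C.contAt hx).tendsto.mono_left nhdsWithin_le_nhds
  have h4 : ∀ x ∈ C.D, U' (rat P r x) = C.U x := fun x hx =>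
    (h3 x hx _ (Function.surjInv_eq hs _)).2
  refine ⟨U', h4, fun x hx x' e => (h3 x hx x' e).1, h2, fun x hx => ?_⟩
  obtain ⟨f, f1, f2, f3, f4⟩ := rat_local hP hr' x
  refine (C.holG hx).div (by rw [ch_zero]; exact C.U_mem hx) (C.nconst hx) f1 f2 f3 ?_
  filter_upwards [f4, (map_ch x).le (C.isOpen_D.mem_nhds hx)] with s a b
  rw [← a, h4 _ b]

end Pool.Agent.Lib.MP_1c0d65_gt.PW
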