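import Pool.Agent.Lib.MP_1c0d65_gt.B.Ord

/-! Roots and inverses of germs with a leading term. -/

namespace Pool.Agent.Lib.MP_1c0d65_gt.B

open Filter Topology Asymptotics

variable {n : WithTop ℕ∞}

theorem lower_of_near {A : ℂ →L[ℝ] ℂ} {b : ℂ} (h : ‖A - sm b‖ ≤ ‖b‖ / 2) (v : ℂ) :
    ‖b‖ / 2 * ‖v‖ ≤ ‖A v‖ := by
  have h1 : ‖(A - sm b) v‖ ≤ ‖b‖ / 2 * ‖v‖ :=
    ((A - sm b).le_opNorm v).trans (mul_le_mul_of_nonneg_right h (norm_nonneg _))
  have h2 : ‖v • b‖ ≤ ‖A v‖ + ‖(A - sm b) v‖ := by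
    rw [show v • b = A v - (A - sm b) v by simp]
    exact norm_sub_le _ _
  rw [norm_smul] at h2
  linarith

theorem equiv_of_lower {A : ℂ →L[ℝ] ℂ} {c : ℝ} (hc : 0 < c) (h : ∀ v, c * ‖v‖ ≤ ‖A v‖) :
    ∃ e : ℂ ≃L[ℝ] ℂ, (e : ℂ →L[ℝ] ℂ) = A := by
  have hi : Function.Injective A := by
    rw [injective_iff_map_eq_zero]
    intro v hv
    have := h v
    rw [hv, norm_zero] at this
    exact norm_le_zero_iff.1 (by nlinarith [norm_nonneg v])
  exact ⟨(LinearEquiv.ofInjectiveEndo (A : ℂ →ₗ[ℝ] ℂ) hi).toContinuousLinearEquiv, by ext1 v; rfl⟩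

theorem Ord.lower {g : ℂ → ℂ} {l : ℕ} {a : ℂ} (h : Ord n g l a) (ha : a ≠ 0) :
    ∀ᶠ z in 𝓝[≠] (0 : ℂ), ∀ v, ‖a‖ / 2 * ‖z‖ ^ l * ‖v‖ ≤ ‖fderiv ℝ g z v‖ := by
  filter_upwards [isLittleO_iff.1 h.d (half_pos (norm_pos_iff.2 ha))] with z hz v
  have h1 : (1 : ℝ) ≤ ‖(l + 1 : ℂ)‖ := by
    rw [show (l + 1 : ℂ) = ((l + 1 : ℕ) : ℂ) by simp, Complex.norm_natCast]
    exact_mod_cast Nat.le_add_left 1 l
  have h2 : ‖a‖ / 2 * ‖z‖ ^ l ≤ ‖((l + 1 : ℂ) * z ^ l) • a‖ / 2 := by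
    rw [norm_smul, norm_mul, norm_pow]
    have : 0 ≤ ‖z‖ ^ l * ‖a‖ := by positivity
    nlinarith
  rw [norm_pow] at hz
  exact (mul_le_mul_of_nonneg_right h2 (norm_nonneg _)).trans (lower_of_near (hz.trans h2) v)

theorem Ord.root {g : ℂ → ℂ} {l : ℕ} {a c : ℂ} (h : Ord n g l a) (hn : n ≠ 0) (ha : a ≠ 0)
    (hc : c ^ (l + 1) = a) :
    ∃ ξ : ℂ → ℂ, Ord n ξ 0 c ∧ ∀ᶠ z in 𝓝 (0 : ℂ), ξ z ^ (l + 1) = g z := by
  have c0 : c ≠ 0 := by rintro rfl; exact ha (by simpa using hc.symm)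
  have l0 : (l + 1 : ℂ) ≠ 0 := by exact_mod_cast Nat.succ_ne_zero l
  set q : ℂ → ℂ := fun z => (z ^ (l + 1))⁻¹ * g z * a⁻¹ with hq
  have q1 : Tendsto q (𝓝[≠] 0) (𝓝 1) := by
    have := (h.tendsto hn).mul_const a⁻¹
    rwa [mul_inv_cancel₀ ha] at this
  have qs : ∀ᶠ z in 𝓝[≠] (0 : ℂ), q z ∈ Complex.slitPlane :=
    q1.eventually (Complex.isOpen_slitPlane.mem_nhds Complex.one_mem_slitPlane)
  set e : ℂ → ℂ := fun z => Complex.exp (Complex.log (q z) / (l + 1)) with he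
  have e1 : Tendsto e (𝓝[≠] 0) (𝓝 1) := by
    have := ((q1.clog Complex.one_mem_slitPlane).div_const (l + 1 : ℂ)).cexp
    simpa using this
  set ξ : ℂ → ℂ := fun z => z * c * e z with hξ
  have hp : ∀ᶠ z in 𝓝[≠] (0 : ℂ), ξ z ^ (l + 1) = g z := by
    filter_upwards [qs, self_mem_nhdsWithin] with z hz z0
    have z1 : z ≠ 0 := z0
    have : e z ^ (l + 1) = q z := by
      rw [he, ← Complex.exp_nat_mul]
      push_cast
      rw [mul_div_cancel₀ _ l0, Complex.exp_log (Complex.slitPlane_ne_zero hz)]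
    rw [hξ, mul_pow, mul_pow, this, hc, hq]
    field_simp
  have hcd : ∀ᶠ z in 𝓝[≠] (0 : ℂ), ContDiffAt ℝ n ξ z := by
    filter_upwards [qs, self_mem_nhdsWithin, h.cd] with z hz z0 h1
    have z1 : z ≠ 0 := z0
    have h2 : ContDiffAt ℝ n q z :=
      ((((contDiffAt_id.pow (l + 1)).inv (pow_ne_zero _ z1)).mul h1).mul contDiffAt_const)
    have h3 : ContDiffAt ℝ n (fun z => Complex.log (q z)) z :=
      ((Complex.contDiffAt_log hz).restrict_scalars ℝ).comp z h2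
    exact (contDiffAt_id.mul contDiffAt_const).mul
      ((Complex.contDiff_exp (𝕜 := ℝ)).contDiffAt.comp z (h3.div_const _))
  have hr : Tendsto (fun z => z⁻¹ * ξ z) (𝓝[≠] 0) (𝓝 c) := by
    have := e1.const_mul c
    rw [mul_one] at this
    refine this.congr' ?_
    filter_upwards [self_mem_nhdsWithin] with z z0
    have z1 : z ≠ 0 := z0
    rw [hξ]
    field_simp
  have hξ0 : ξ 0 = 0 := by simp [hξ]
  refine ⟨ξ, ⟨hξ0, ?_, hcd, ?_⟩, ?_⟩
  · rw [← continuousWithinAt_compl_self, ContinuousWithinAt, hξ0]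
    have h0 : Tendsto (fun z : ℂ => z) (𝓝[≠] 0) (𝓝 0) := tendsto_id.mono_left nhdsWithin_le_nhds
    simpa using (h0.mul_const c).mul e1
  · have h1 : Tendsto (fun z => (z ^ l)⁻¹ * ξ z ^ l) (𝓝[≠] 0) (𝓝 (c ^ l)) := by
      simpa [mul_pow] using hr.pow l
    have h2 : Tendsto (fun z => ‖fderiv ℝ g z - sm (((l + 1 : ℂ) * z ^ l) • a)‖ / ‖z ^ l‖)
        (𝓝[≠] 0) (𝓝 0) := h.d.norm_norm.tendsto_div_nhds_zero
    have h3 : Tendsto (fun z => (‖fderiv ℝ g z - sm (((l + 1 : ℂ) * z ^ l) • a)‖ / ‖z ^ l‖ +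
        ‖(l + 1 : ℂ)‖ * ‖a - (z ^ l)⁻¹ * ξ z ^ l * c‖) / ‖(l + 1 : ℂ) * ((z ^ l)⁻¹ * ξ z ^ l)‖)
        (𝓝[≠] 0) (𝓝 0) := by
      have := (h2.add ((((h1.mul_const c).const_sub a).norm).const_mul ‖(l + 1 : ℂ)‖)).div
        (h1.const_mul (l + 1 : ℂ)).norm (norm_ne_zero_iff.2 (mul_ne_zero l0 (pow_ne_zero _ c0)))
      rw [← pow_succ, hc, sub_self, norm_zero, mul_zero, add_zero, zero_div] at this
      exact this
    simp only [pow_zero, isLittleO_one_iff]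
    refine squeeze_zero_norm' ?_ h3
    filter_upwards [hcd, self_mem_nhdsWithin, h1.eventually_ne (pow_ne_zero _ c0),
      (eventually_eventually_nhdsWithin.2 hp)] with z d1 z0 n1 e2
    have z1 : z ≠ 0 := z0
    have zl : z ^ l ≠ 0 := pow_ne_zero _ z1
    have e3 : (fun z => ξ z ^ (l + 1)) =ᶠ[𝓝 z] g := by
      rwa [nhdsWithin_eq_nhds.2 (isOpen_compl_singleton.mem_nhds z0)] at e2
    have e4 : ∀ v, fderiv ℝ g z v = (l + 1 : ℂ) * ξ z ^ l * fderiv ℝ ξ z v := fun v => by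
      rw [← e3.fderiv_eq, ((d1.differentiableAt hn).hasFDerivAt.pow (l + 1)).fderiv]
      simp
    refine ContinuousLinearMap.opNorm_le_bound _ (by positivity) fun v => ?_
    rw [div_mul_eq_mul_div, le_div_iff₀ (norm_pos_iff.2 (mul_ne_zero l0 n1)), ← norm_mul]
    have e5 : (fderiv ℝ ξ z - sm ((((0 : ℕ) + 1 : ℂ) * 1) • c)) v *
        ((l + 1 : ℂ) * ((z ^ l)⁻¹ * ξ z ^ l)) =
        (fderiv ℝ g z - sm (((l + 1 : ℂ) * z ^ l) • a)) v / z ^ l +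
          (l + 1 : ℂ) * (a - (z ^ l)⁻¹ * ξ z ^ l * c) * v := by
      simp only [sub_apply, sm_apply, smul_eq_mul, e4]
      field_simp
      push_cast
      ring
    rw [e5, add_mul (_ / _ : ℝ)]
    refine (norm_add_le _ _).trans (add_le_add ?_ ?_)
    swap
    · rw [norm_mul, norm_mul]
    rw [norm_div, div_mul_eq_mul_div]
    exact div_le_div_of_nonneg_right (ContinuousLinearMap.le_opNorm _ _) (norm_nonneg _)
  · rw [eventually_nhdsWithin_iff] at hp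
    filter_upwards [hp] with z hz
    by_cases z0 : z = 0
    · simp [z0, hξ0, h.zero]
    · exact hz z0

theorem Ord.strict {E : Type*} [NormedAddCommGroup E] [NormedSpace ℝ E] [NormedSpace ℂ E]
    [IsScalarTower ℝ ℂ E] {u : ℂ → E} {a : E} (h : Ord n u 0 a) (hn : n ≠ 0) :
    HasStrictFDerivAt u (sm a) 0 := by
  have h0 : HasFDerivAt u (sm a) 0 := by
    rw [hasFDerivAt_iff_isLittleO]
    simpa [h.zero] using h.val hn
  have := hasStrictFDerivAt_of_hasFDerivAt_of_continuousAt (f := u)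
    (f' := Function.update (fderiv ℝ u) 0 (sm a)) (x := 0) ?_ ?_
  · simpa using this
  · filter_upwards [eventually_nhdsWithin_iff.1 (h.diff hn)] with z hz
    by_cases z0 : z = 0
    · simpa [z0] using h0
    · rw [Function.update_of_ne z0]; exact (hz z0).hasFDerivAt
  · rw [continuousAt_update_same, tendsto_iff_norm_sub_tendsto_zero]
    have := h.d
    simp only [pow_zero, isLittleO_one_iff] at this
    simpa using this.norm

theorem Ord.inverse {ξ : ℂ → ℂ} {c : ℂ} (h : Ord n ξ 0 c) (hn : n ≠ 0) (hc : c ≠ 0) :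
    ∃ σ : ℂ → ℂ, Ord n σ 0 c⁻¹ ∧ (∀ᶠ z in 𝓝 (0 : ℂ), σ (ξ z) = z) ∧
      ∀ᶠ τ in 𝓝 (0 : ℂ), ξ (σ τ) = τ := by
  have cp : 0 < ‖c‖ / 2 := half_pos (norm_pos_iff.2 hc)
  obtain ⟨e, he⟩ := equiv_of_lower (A := sm c) cp (lower_of_near (by simpa using cp.le))
  have hs : HasStrictFDerivAt ξ (e : ℂ →L[ℝ] ℂ) 0 := he ▸ h.strict hn
  set σ := hs.localInverse ξ e 0 with hσ
  have s0 : σ 0 = 0 := by simpa [h.zero] using hs.localInverse_apply_image
  have sc : ContinuousAt σ 0 := by simpa [h.zero] using hs.localInverse_continuousAt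
  have hr : ∀ᶠ τ in 𝓝 (0 : ℂ), ξ (σ τ) = τ := by simpa [h.zero] using hs.eventually_right_inverse
  have ht : Tendsto σ (𝓝[≠] 0) (𝓝[≠] 0) := by
    refine tendsto_nhdsWithin_iff.2 ⟨?_, ?_⟩
    · have := sc.tendsto
      rw [s0] at this
      exact this.mono_left nhdsWithin_le_nhds
    · filter_upwards [mem_nhdsWithin_of_mem_nhds hr, self_mem_nhdsWithin] with τ h1 h2 h3
      have h4 : σ τ = 0 := h3
      have h5 : ξ (σ τ) = τ := h1
      rw [h4, h.zero] at h5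
      exact h2 h5.symm
  have hT : ∀ᶠ τ in 𝓝 (0 : ℂ), τ ∈ (hs.toOpenPartialHomeomorph ξ).target := by
    have := hs.image_mem_toOpenPartialHomeomorph_target
    rw [h.zero] at this
    exact (hs.toOpenPartialHomeomorph ξ).open_target.mem_nhds this
  have hcd : ∀ᶠ τ in 𝓝[≠] (0 : ℂ), ContDiffAt ℝ n σ τ := by
    filter_upwards [mem_nhdsWithin_of_mem_nhds hT, ht.eventually h.cd, ht.eventually (h.lower hc)]
      with τ h1 h2 h3
    obtain ⟨f, hf⟩ := equiv_of_lower cp fun v => by simpa using h3 v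
    exact (hs.toOpenPartialHomeomorph ξ).contDiffAt_symm (f₀' := f) h1
      (hf ▸ (h2.differentiableAt hn).hasFDerivAt) h2
  refine ⟨σ, ⟨s0, sc, hcd, ?_⟩, hs.eventually_left_inverse, hr⟩
  refine (IsBigO.of_bound (‖c‖⁻¹ * (‖c‖ / 2)⁻¹) ?_).trans_isLittleO
    ((h.d.comp_tendsto ht).trans_isBigO (IsBigO.of_bound 1 (by simp)))
  filter_upwards [hcd, ht.eventually (h.diff hn), ht.eventually (h.lower hc),
    mem_nhdsWithin_of_mem_nhds hr.eventually_nhds] with τ d1 d2 h3 h4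
  have e1 : ∀ v, fderiv ℝ ξ (σ τ) (fderiv ℝ σ τ v) = v := fun v => by
    have h5 : ξ ∘ σ =ᶠ[𝓝 τ] id := h4
    have := h5.fderiv_eq (𝕜 := ℝ)
    rw [fderiv_comp τ d2 (d1.differentiableAt hn), fderiv_id] at this
    exact congrArg (fun A : ℂ →L[ℝ] ℂ => A v) this
  refine ContinuousLinearMap.opNorm_le_bound _ (by positivity) fun v => ?_
  have h6 : ‖fderiv ℝ σ τ v‖ ≤ (‖c‖ / 2)⁻¹ * ‖v‖ := by
    have := h3 (fderiv ℝ σ τ v)
    rw [e1, pow_zero, mul_one] at this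
    rwa [le_inv_mul_iff₀ cp]
  have e2 : (fderiv ℝ σ τ - sm ((((0 : ℕ) + 1 : ℂ) * τ ^ 0) • c⁻¹)) v = -c⁻¹ *
      (fderiv ℝ ξ (σ τ) - sm ((((0 : ℕ) + 1 : ℂ) * σ τ ^ 0) • c)) (fderiv ℝ σ τ v) := by
    simp only [sub_apply, sm_apply, smul_eq_mul, e1]
    field_simp
    push_cast
    ring
  rw [e2, norm_mul, norm_neg, norm_inv, mul_assoc, mul_assoc]
  refine mul_le_mul_of_nonneg_left ((ContinuousLinearMap.le_opNorm _ _).trans ?_) (by positivity)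
  rw [mul_left_comm]
  exact mul_le_mul_of_nonneg_left h6 (norm_nonneg _)

end Pool.Agent.Lib.MP_1c0d65_gt.B
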