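import Pool.Agent.Lib.MP_1c0d65_gt.B.Good
import Pool.Agent.Lib.MP_1c0d65_gt.B.Quot

/-! Every curve has the image of a simple curve. -/

set_option autoImplicit false

open scoped Manifold ContDiff Topology
open Set Filter Metric Pool.Agent.Lib.MP_1c0d65_gt.B

noncomputable section

namespace Pool.Agent.Lib.MP_1c0d65_gt.PW

variable {X : Type} [TopologicalSpace X] [ChartedSpace E X] [IsManifold 𝓘(ℝ, E) ∞ X]
  [T2Space X] [CompactSpace X] [MeasurableSpace X] [BorelSpace X] {c : Ctx X} {O : Orb c}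

theorem OC.exists_simple (C : OC O) : ∃ C' : OC O, C'.Simple ∧ C'.img = C.img := by
  classical
  obtain ⟨Bad, P, r, hB, hF, hP, hr, h⟩ := C.exists_good
  obtain ⟨U', e₁, e₂, e₃, e₄⟩ := C.exists_quot hB hF hP hr h
  set f : ℂ → ℂ := fun z => ∑ a ∈ P, r a / (z - a) with hf
  have rb : ∀ s ∈ Bad, rat P r s = (f s : OnePoint ℂ) := fun s hs =>
    rat_of_notMem fun hs' => (hr s hs').1 hs
  have sj := rat_surjective hP fun a ha => (hr a ha).2
  have pre : ∀ w : ℂ, w ∉ C.F.image f → ∃ x ∈ C.D, rat P r x = w := fun w hw => by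
    obtain ⟨x, hx⟩ := sj w
    refine ⟨x, ?_, hx⟩
    rintro ⟨a, ha, rfl⟩
    rw [rb a (hF ha)] at hx
    exact hw (Finset.mem_image.2 ⟨a, ha, OnePoint.coe_injective hx⟩)
  obtain ⟨x₀, d₀, r₀⟩ : ∃ x ∈ C.D, rat P r x = OnePoint.infty :=
    let ⟨a, ha⟩ := hP
    ⟨a, (C.coe_mem_D a).2 fun h => (hr a ha).1 (hF h), rat_of_mem ha⟩
  have mW : ∀ w : ℂ, w ∉ C.F.image f → U' w ∈ O.W := fun w hw => by
    obtain ⟨x, hx, e⟩ := pre w hw
    rw [← e, e₁ x hx]
    exact C.U_mem hx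
  have hol : ∀ w : ℂ, w ∉ C.F.image f → HolG O.J (fun s : ℂ => U' s) w := fun w hw => by
    obtain ⟨x, hx, e⟩ := pre w hw
    have g := e₄ x hx
    rw [e] at g
    have gW := g.ev_W (O := O) (by rw [ch_zero]; exact mW w hw)
    rw [← sub_self w] at g gW
    have := HolG.comp (t := fun s => s - w) (z := w) g gW (by fun_prop)
    simpa only [Function.comp_def, ch_coe, add_sub_cancel] using this
  have fB : (insert 0 (f '' Bad)).Finite := (hB.image f).insert 0
  have sub : ∀ w ∈ C.F.image f, w ∈ insert 0 (f '' Bad) := fun w hw =>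
    let ⟨a, ha, e⟩ := Finset.mem_image.1 hw
    Or.inr ⟨a, hF ha, e⟩
  have inj : InjOn (fun s : ℂ => U' s) (insert 0 (f '' Bad))ᶜ := by
    have pre' : ∀ w : ℂ, w ∉ insert 0 (f '' Bad) → ∃ s ∉ Bad, rat P r s = w ∧ U' w = C.u s :=
      fun w hw => by
        obtain ⟨x, hx, e⟩ := pre w fun h => hw (sub w h)
        induction x using OnePoint.rec with
        | infty => exact (hw (Or.inl (OnePoint.coe_injective e).symm)).elim
        | coe s =>
          refine ⟨s, fun hs => hw (Or.inr ⟨s, hs, OnePoint.coe_injective ?_⟩), e, e ▸ e₁ s hx⟩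
          exact (rb s hs).symm.trans e
    intro w hw w' hw' e
    obtain ⟨s, hs, es, us⟩ := pre' w hw
    obtain ⟨s', hs', es', us'⟩ := pre' w' hw'
    have := (h s hs s').2 ⟨s', hs', rfl, us'.symm.trans (e.symm.trans us)⟩
    rw [es, es'] at this
    exact (OnePoint.coe_injective this).symm
  refine ⟨⟨fun s => U' s, fun s => U' (ch OnePoint.infty s), C.F.image f,
    hol_of_holG fun w hw => hol w hw, fun w hw => mW w hw, (r₀ ▸ e₄ x₀ d₀).ball, ?_,
    fun s hs => by rw [ch_infty_of_ne hs], fun w hw => ?_, ?_⟩,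
    ⟨fB.toFinset, fun w hw => fB.mem_toFinset.2 (sub w hw), by rwa [fB.coe_toFinset]⟩, ?_⟩
  · rw [ch_zero, ← r₀, e₁ x₀ d₀]
    exact C.U_mem d₀
  · obtain ⟨a, ha, rfl⟩ := Finset.mem_image.1 hw
    obtain ⟨i, hi⟩ := C.pu a ha
    have n : ∀ z : ℂ, map ((↑) : ℂ → OnePoint ℂ) (𝓝[≠] z) = 𝓝[≠] (z : OnePoint ℂ) := fun z => by
      rw [← OnePoint.isOpenEmbedding_coe.map_nhdsWithin_preimage_eq, preimage_compl,
        ← image_singleton, preimage_image_eq _ OnePoint.coe_injective]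
    have e := e₃ a
    rw [rb a (hF ha), ← n, ← n, map_map, map_map] at e
    exact ⟨i, e.le.trans hi⟩
  · obtain ⟨w, hw⟩ := fB.infinite_compl.nonempty
    have hw' : w ∉ C.F.image f := fun h => hw (sub w h)
    rcases (hol w hw').order (mW w hw') with h0 | h0
    · obtain ⟨s, ⟨hs, hs'⟩, hne⟩ := ((infinite_of_mem_nhds w h0).sdiff fB).nontrivial.exists_ne w
      exact (hne (inj hs' hw hs)).elim
    · have ev : ∀ᶠ s in 𝓝 w, s ∉ C.F.image f :=
        (C.F.image f).finite_toSet.isClosed.isOpen_compl.mem_nhds hw'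
      obtain ⟨s, hs, hs'⟩ := (h0.and (ev.filter_mono nhdsWithin_le_nhds)).exists
      exact ⟨s, hs', hs.2⟩
  · rw [C.img_eq]
    refine Subset.antisymm ?_ ?_
    · rintro _ (⟨w, hw, rfl⟩ | rfl)
      · obtain ⟨x, hx, e⟩ := pre w hw
        exact ⟨x, hx, (e₁ x hx).symm.trans (congrArg U' e)⟩
      · exact ⟨x₀, d₀, (e₁ x₀ d₀).symm.trans (congrArg U' (r₀.trans (ch_zero _).symm))⟩
    · rintro _ ⟨x, hx, rfl⟩
      rw [← e₁ x hx]
      generalize e : rat P r x = y
      induction y using OnePoint.rec with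
      | infty => exact Or.inr (congrArg U' (ch_zero _).symm)
      | coe w =>
        refine Or.inl ⟨w, fun hw => ?_, rfl⟩
        obtain ⟨a, ha, rfl⟩ := Finset.mem_image.1 hw
        exact (C.coe_mem_D a).1 (e₂ x hx a ((rb a (hF ha)).trans e.symm)) ha

end Pool.Agent.Lib.MP_1c0d65_gt.PW
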