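import Pool.Agent.Lib.MP_1c0d65_gt.B.Root

/-! Parameters on the sphere and rational maps with simple poles. -/

namespace Pool.Agent.Lib.MP_1c0d65_gt.B

/-- The parameter centred at a point of the sphere. -/
noncomputable def ch (x : OnePoint ℂ) (z : ℂ) : OnePoint ℂ :=
  x.elim (if z = 0 then OnePoint.infty else ((z⁻¹ : ℂ) : OnePoint ℂ))
    fun a => ((a + z : ℂ) : OnePoint ℂ)

open Classical in
/-- The rational map with simple poles on `P`. -/
noncomputable def rat (P : Finset ℂ) (r : ℂ → ℂ) (x : OnePoint ℂ) : OnePoint ℂ :=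
  x.elim ((0 : ℂ) : OnePoint ℂ)
    fun z => if z ∈ P then OnePoint.infty else ((∑ c ∈ P, r c / (z - c) : ℂ) : OnePoint ℂ)

end Pool.Agent.Lib.MP_1c0d65_gt.B
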