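import Pool.Agent.Lib.MP_1c0d65_gt.B.Glb

/-! An orbifold curve as a proper map on the sphere minus the punctures. -/

set_option autoImplicit false
set_option linter.unusedSectionVars false

open scoped Manifold ContDiff Topology
open Set Filter Metric Pool.Agent.Lib.MP_1c0d65_gt.B

noncomputable section

namespace Pool.Agent.Lib.MP_1c0d65_gt.PW

variable {X : Type} [TopologicalSpace X] [ChartedSpace E X] [IsManifold 𝓘(ℝ, E) ∞ X]
  [T2Space X] [CompactSpace X] [MeasurableSpace X] [BorelSpace X] {c : Ctx X} {O : Orb c} {p : X}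

theorem preconn_compl {Z : Set (OnePoint ℂ)} (hZ : Z.Finite) :
    IsPreconnected Zᶜ ∧ Dense Zᶜ := by
  have h1 : (((↑) : ℂ → OnePoint ℂ) ⁻¹' Z).Countable :=
    (hZ.preimage OnePoint.coe_injective.injOn).countable
  have h2 := (h1.isPathConnected_compl_of_one_lt_rank
    (Complex.rank_real_complex ▸ Nat.one_lt_ofNat)).isConnected.isPreconnected
  have h3 : Dense (((↑) : ℂ → OnePoint ℂ) '' (((↑) : ℂ → OnePoint ℂ) ⁻¹' Z)ᶜ) :=
    OnePoint.denseRange_coe.dense_image OnePoint.continuous_coe (h1.dense_compl ℝ)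
  have h4 : ((↑) : ℂ → OnePoint ℂ) '' (((↑) : ℂ → OnePoint ℂ) ⁻¹' Z)ᶜ ⊆ Zᶜ := by
    rintro _ ⟨s, hs, rfl⟩; exact hs
  exact ⟨(h2.image _ OnePoint.continuous_coe.continuousOn).subset_closure h4 fun x _ => h3 x,
    h3.mono h4⟩

theorem map_ch (x : OnePoint ℂ) : map (ch x) (𝓝 0) = 𝓝 x := by
  rw [(ch_isOpenEmbedding x).map_nhds_eq, ch_zero]

theorem map_ch_ne (x : OnePoint ℂ) : map (ch x) (𝓝[≠] 0) = 𝓝[≠] x := by
  have h := (ch_isOpenEmbedding x).map_nhdsWithin_preimage_eq {x}ᶜ 0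
  rw [ch_zero] at h
  rw [← h]
  congr 2
  ext s
  simp only [mem_compl_iff, mem_singleton_iff, mem_preimage]
  refine not_congr ⟨fun e => by rw [e, ch_zero], fun e => (ch_isOpenEmbedding x).injective ?_⟩
  rw [e, ch_zero]

theorem map_coe_ne (a : ℂ) : map ((↑) : ℂ → OnePoint ℂ) (𝓝[≠] a) = 𝓝[≠] (a : OnePoint ℂ) := by
  rw [← OnePoint.isOpenEmbedding_coe.map_nhdsWithin_preimage_eq]
  congr 2
  ext s
  simp

theorem OC.D_fin (C : OC O) : C.Dᶜ.Finite := by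
  rw [OC.D, compl_compl]; exact C.F.finite_toSet.image _

theorem OC.isOpen_D (C : OC O) : IsOpen C.D := by
  rw [← isClosed_compl_iff]; exact C.D_fin.isClosed

theorem OC.img_eq (C : OC O) : C.img = C.U '' C.D := by
  ext q
  constructor
  · rintro (⟨s, hs, rfl⟩ | rfl)
    · exact ⟨s, (C.coe_mem_D s).2 hs, rfl⟩
    · exact ⟨_, C.infty_mem_D, rfl⟩
  · rintro ⟨x, hx, rfl⟩
    induction x using OnePoint.rec with
    | infty => exact Or.inr rfl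
    | coe s => exact Or.inl ⟨s, (C.coe_mem_D s).1 hx, rfl⟩

theorem OC.U_mem (C : OC O) {x : OnePoint ℂ} (hx : x ∈ C.D) : C.U x ∈ O.W := by
  induction x using OnePoint.rec with
  | infty => exact C.v0
  | coe s => exact C.mu ((C.coe_mem_D s).1 hx)

theorem OC.img_subset_W (C : OC O) : C.img ⊆ O.W := by
  rw [C.img_eq]
  rintro _ ⟨x, hx, rfl⟩
  exact C.U_mem hx

theorem OC.U_ch_infty (C : OC O) (s : ℂ) : C.U (ch OnePoint.infty s) = C.v s := by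
  by_cases h : s = 0
  · rw [h, ch_infty_zero]; rfl
  · rw [ch_infty_of_ne h, C.uv s h]; rfl

theorem OC.holG_u (C : OC O) {s : ℂ} (hs : s ∉ C.F) : HolG O.J C.u s :=
  C.hu.holG (C.isOpen_F.mem_nhds hs)

theorem OC.holG_v (C : OC O) : HolG O.J C.v 0 :=
  let ⟨_, hr, h⟩ := C.hv
  h.holG (ball_mem_nhds _ hr)

theorem OC.holG (C : OC O) {x : OnePoint ℂ} (hx : x ∈ C.D) :
    HolG O.J (fun s => C.U (ch x s)) 0 := by
  induction x using OnePoint.rec with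
  | infty => simpa only [C.U_ch_infty] using C.holG_v
  | coe a =>
    have h : a + 0 ∉ C.F := by simpa using hx
    exact HolG.comp (t := fun s => a + s) (C.holG_u h) ((C.holG_u h).ev_W (C.mu h)) (by fun_prop)

theorem OC.contAt (C : OC O) {x : OnePoint ℂ} (hx : x ∈ C.D) : ContinuousAt C.U x := by
  have h := (C.holG hx).cont
  rw [ContinuousAt, ch_zero] at h
  rw [ContinuousAt, ← map_ch x]
  exact h

theorem OC.exists_tendsto (C : OC O) {x : OnePoint ℂ} (hx : x ∉ C.D) :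
    ∃ i, Tendsto C.U (𝓝[≠] x) (𝓝ˢ (O.L i)) := by
  obtain ⟨a, ha, rfl⟩ : x ∈ ((↑) : ℂ → OnePoint ℂ) '' (C.F : Set ℂ) := not_not.1 hx
  obtain ⟨i, hi⟩ := C.pu a ha
  exact ⟨i, by rw [← map_coe_ne]; exact hi⟩

theorem Orb.disjoint_nhds (O : Orb c) (hp : p ∈ O.W) (i : Fin O.n) :
    Disjoint (𝓝 p) (𝓝ˢ (O.L i)) :=
  disjoint_nhds_nhdsSet.2 (by
    rw [(O.closed i).closure_eq]; exact fun h => hp (mem_iUnion.2 ⟨i, h⟩))

theorem OC.proper (C : OC O) {l : Filter (OnePoint ℂ)} [l.NeBot] {x : OnePoint ℂ} (hl : l ≤ 𝓝 x)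
    (hD : ∀ᶠ y in l, y ∈ C.D) (hp : p ∈ O.W) (h : Tendsto C.U l (𝓝 p)) :
    x ∈ C.D ∧ C.U x = p := by
  by_cases hx : x ∈ C.D
  · exact ⟨hx, tendsto_nhds_unique ((C.contAt hx).tendsto.mono_left hl) h⟩
  · obtain ⟨i, hi⟩ := C.exists_tendsto hx
    have h1 : l ≤ 𝓝[≠] x := le_inf hl (le_principal_iff.2 (hD.mono fun y hy e => hx (e ▸ hy)))
    exact absurd (h.disjoint (O.disjoint_nhds hp i) (hi.mono_left h1))
      (by simpa using NeBot.ne ‹_›)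

theorem OC.nbhd (C : OC O) (hp : p ∈ O.W) {V : Set (OnePoint ℂ)}
    (hV : V ∈ 𝓝ˢ {x ∈ C.D | C.U x = p}) : ∀ᶠ q in 𝓝 p, ∀ y ∈ C.D, C.U y = q → y ∈ V := by
  by_contra hn
  have hne : (comap C.U (𝓝 p) ⊓ 𝓟 (C.D ∩ Vᶜ)).NeBot := by
    refine inf_principal_neBot_iff.2 fun T hT => ?_
    obtain ⟨N, hN, hNT⟩ := mem_comap.1 hT
    by_contra he
    refine hn (mem_of_superset hN fun q hq y hy e => ?_)
    by_contra hv
    exact he ⟨y, hNT (show C.U y ∈ N from e ▸ hq), hy, hv⟩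
  obtain ⟨x, hx⟩ := exists_clusterPt_of_compactSpace (comap C.U (𝓝 p) ⊓ 𝓟 (C.D ∩ Vᶜ))
  have h0 : (𝓝 x ⊓ (comap C.U (𝓝 p) ⊓ 𝓟 (C.D ∩ Vᶜ))).NeBot := hx
  have h1 : ∀ᶠ y in 𝓝 x ⊓ (comap C.U (𝓝 p) ⊓ 𝓟 (C.D ∩ Vᶜ)), y ∈ C.D ∩ Vᶜ :=
    mem_inf_of_right (mem_inf_of_right (mem_principal_self _))
  have h2 := C.proper (l := 𝓝 x ⊓ (comap C.U (𝓝 p) ⊓ 𝓟 (C.D ∩ Vᶜ))) inf_le_left
    (h1.mono fun _ h => h.1) hp (tendsto_comap.mono_left (inf_le_right.trans inf_le_left))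
  have h3 : ∀ᶠ y in 𝓝 x ⊓ (comap C.U (𝓝 p) ⊓ 𝓟 (C.D ∩ Vᶜ)), y ∈ V :=
    mem_inf_of_left (mem_nhdsSet_iff_forall.1 hV x h2)
  obtain ⟨y, hy, hy'⟩ := (h1.and h3).exists
  exact hy.2 hy'

theorem OC.img_closed (C : OC O) (hp : p ∈ O.W) (h : p ∈ closure C.img) : p ∈ C.img := by
  rw [C.img_eq] at h ⊢
  by_contra hn
  have e : {x ∈ C.D | C.U x = p} = ∅ := eq_empty_of_forall_notMem fun x hx => hn ⟨x, hx.1, hx.2⟩
  have h1 := C.nbhd hp (V := ∅) (by rw [e, nhdsSet_empty]; exact mem_bot)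
  obtain ⟨q, ⟨y, hy, e'⟩, hq⟩ := ((mem_closure_iff_frequently.1 h).and_eventually h1).exists
  exact hq y hy e'

theorem dif_of_const {V : Type} [NormedAddCommGroup V] [NormedSpace ℝ V] {g : V → X} {z : V} {q : X}
    (h : ∀ᶠ s in 𝓝 z, g s = q) : dif g z = 0 := by
  rw [brk_dif_congr (g := fun _ => q) h]
  exact mfderiv_const

/-- The curve is nowhere locally constant, given the dichotomy for germs. -/
theorem OC.nconst_of (C : OC O) (ord : ∀ x ∈ C.D, (∀ᶠ s in 𝓝 (0 : ℂ), C.U (ch x s) = C.U (ch x 0)) ∨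
      ∀ᶠ s in 𝓝[≠] (0 : ℂ), dif (fun s => C.U (ch x s)) s 1 ≠ 0) {x : OnePoint ℂ} (hx : x ∈ C.D) :
    ¬∀ᶠ s in 𝓝 (0 : ℂ), C.U (ch x s) = C.U (ch x 0) := by
  intro h
  let A : Set (OnePoint ℂ) := {y | ∀ᶠ y' in 𝓝 y, C.U y' = C.U y}
  have hA : ∀ y, y ∈ A ↔ ∀ᶠ s in 𝓝 (0 : ℂ), C.U (ch y s) = C.U (ch y 0) := fun y => by
    change (∀ᶠ y' in 𝓝 y, C.U y' = C.U y) ↔ _
    rw [← map_ch y, eventually_map, ch_zero]
  have oA : IsOpen A := isOpen_iff_eventually.2 fun y hy =>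
    (eventually_eventually_nhds.2 hy).mono fun y' hy' =>
      hy'.mono fun _ e => e.trans hy'.self_of_nhds.symm
  have h1 : C.D ⊆ A := by
    have pc := (preconn_compl C.D_fin).1
    rw [compl_compl] at pc
    refine pc.subset_of_closure_inter_subset oA ⟨x, hx, (hA x).2 h⟩ fun y hy => ?_
    rcases ord y hy.2 with h2 | h2
    · exact (hA y).2 h2
    by_contra hn
    have h3 : ∀ᶠ y' in 𝓝[≠] y, y' ∉ A := by
      rw [← map_ch_ne, eventually_map]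
      refine h2.mono fun s hs hs' => hs ?_
      rw [dif_of_const ((ch_isOpenEmbedding y).continuous.continuousAt.eventually hs')]
      rfl
    have h4 : ∀ᶠ y' in 𝓝 y, y' ∉ A := by
      rw [← nhdsNE_sup_pure, eventually_sup]
      exact ⟨h3, hn⟩
    exact (mem_closure_iff_frequently.1 hy.1) h4
  obtain ⟨s, hs, hd⟩ := C.nc
  refine hd ?_
  rw [dif_of_const (g := C.u) (OnePoint.continuous_coe.continuousAt.eventually
    (h1 ((C.coe_mem_D s).2 hs)))]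
  rfl

/-- Fibres are finite, given that points of the domain are isolated in their fibre. -/
theorem OC.fibre_finite_of (C : OC O)
    (iso : ∀ x ∈ C.D, ∀ᶠ s in 𝓝[≠] (0 : ℂ), C.U (ch x s) ≠ C.U (ch x 0)) (hp : p ∈ O.W) :
    {x ∈ C.D | C.U x = p}.Finite := by
  by_contra hn
  obtain ⟨x, -, hx⟩ := Set.Infinite.exists_accPt_of_subset_isCompact hn isCompact_univ
    (subset_univ _)
  have h0 : (𝓝[≠] x ⊓ 𝓟 {x ∈ C.D | C.U x = p}).NeBot := hx
  have h1 : ∀ᶠ y in 𝓝[≠] x ⊓ 𝓟 {x ∈ C.D | C.U x = p}, y ∈ C.D ∧ C.U y = p :=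
    mem_inf_of_right (mem_principal_self _)
  have h2 := C.proper (l := 𝓝[≠] x ⊓ 𝓟 {x ∈ C.D | C.U x = p})
    (inf_le_left.trans nhdsWithin_le_nhds) (h1.mono fun _ h => h.1) hp
    (tendsto_const_nhds.congr' (h1.mono fun _ h => h.2.symm))
  have h3 : ∀ᶠ y in 𝓝[≠] x, C.U y ≠ p := by
    have := iso x h2.1
    rw [ch_zero, h2.2] at this
    rw [← map_ch_ne, eventually_map]
    exact this
  obtain ⟨y, hy, hy'⟩ := (h1.and (h3.filter_mono inf_le_left)).exists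
  exact hy' hy.2

end Pool.Agent.Lib.MP_1c0d65_gt.PW
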